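import Pool.Agent.Q47.TK.Gen

/-!
# Counting lattice points of bounded height
-/

set_option autoImplicit false

namespace Q47.TK

open Finset

variable {n : ℕ}

/-- The real vector of a lattice point. -/
def vec (x : ℤ × (Fin n → ℤ)) : Option (Fin n) → ℝ
  | none => x.1
  | some i => x.2 i

theorem vec_inj {x y : ℤ × (Fin n → ℤ)} (h : vec x = vec y) : x = y := by
  refine Prod.ext ?_ (funext fun i => ?_)
  · have h1 : ((x.1 : ℤ) : ℝ) = (y.1 : ℤ) := congrFun h none
    exact_mod_cast h1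
  · have h1 : ((x.2 i : ℤ) : ℝ) = (y.2 i : ℤ) := congrFun h (some i)
    exact_mod_cast h1

theorem vec_add (x y : ℤ × (Fin n → ℤ)) : vec (x + y) = vec x + vec y := by
  funext j
  rcases j with _ | i
  · simp [vec]
  · simp [vec]

theorem vec_nsmul (m : ℕ) (x : ℤ × (Fin n → ℤ)) : vec (m • x) = (m : ℝ) • vec x := by
  funext j
  rcases j with _ | i
  · simp [vec]
  · simp [vec]

theorem vec_zero : vec (0 : ℤ × (Fin n → ℤ)) = 0 := by
  funext j
  rcases j with _ | i
  · simp [vec]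
  · simp [vec]

theorem vec_sum {ι : Type*} (s : Finset ι) (f : ι → ℤ × (Fin n → ℤ)) :
    vec (∑ i ∈ s, f i) = ∑ i ∈ s, vec (f i) := by
  classical
  induction s using Finset.induction_on with
  | empty => simp [vec_zero]
  | insert i s hi ih => rw [Finset.sum_insert hi, Finset.sum_insert hi, vec_add, ih]

theorem fst_comb (B : Finset (ℤ × (Fin n → ℤ))) (μ : ℤ × (Fin n → ℤ) → ℕ) :
    (∑ b ∈ B, μ b • b).1 = ∑ b ∈ B, (μ b : ℤ) * b.1 := by
  rw [Prod.fst_sum]
  exact Finset.sum_congr rfl fun b _ => by rw [Prod.smul_fst, nsmul_eq_mul]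

theorem snd_comb (B : Finset (ℤ × (Fin n → ℤ))) (μ : ℤ × (Fin n → ℤ) → ℕ) (i : Fin n) :
    (∑ b ∈ B, μ b • b).2 i = ∑ b ∈ B, (μ b : ℤ) * b.2 i := by
  rw [Prod.snd_sum, Finset.sum_apply]
  exact Finset.sum_congr rfl fun b _ => by rw [Prod.smul_snd, Pi.smul_apply, nsmul_eq_mul]

/-- The space spanned by the points. -/
noncomputable def spn (B : Finset (ℤ × (Fin n → ℤ))) : Submodule ℝ (Option (Fin n) → ℝ) :=
  Submodule.span ℝ (vec '' B)

/-- The dimension of the section of the cone at height one. -/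
noncomputable def sdim (B : Finset (ℤ × (Fin n → ℤ))) : ℕ := Module.finrank ℝ (spn B) - 1

theorem comb_mem {B : Finset (ℤ × (Fin n → ℤ))} (μ : ℤ × (Fin n → ℤ) → ℕ) :
    vec (∑ b ∈ B, μ b • b) ∈ spn B := by
  rw [vec_sum]
  refine Submodule.sum_mem _ fun b hb => ?_
  rw [vec_nsmul]
  exact Submodule.smul_mem _ _ (Submodule.subset_span ⟨b, hb, rfl⟩)

theorem finrank_spn {B : Finset (ℤ × (Fin n → ℤ))} (hne : ∃ b ∈ B, b ≠ 0) :
    Module.finrank ℝ (spn B) = sdim B + 1 := by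
  obtain ⟨b, hb, hb0⟩ := hne
  have h1 : 0 < Module.finrank ℝ (spn B) := by
    have h2 : spn B ≠ ⊥ := by
      intro h
      have h3 : vec b ∈ spn B := Submodule.subset_span ⟨b, hb, rfl⟩
      rw [h, Submodule.mem_bot, ← vec_zero] at h3
      exact hb0 (vec_inj h3)
    have := (Submodule.nontrivial_iff_ne_bot).2 h2
    exact Module.finrank_pos
  rw [sdim]
  omega

theorem exists_basis {B : Finset (ℤ × (Fin n → ℤ))} (hne : ∃ b ∈ B, b ≠ 0) :
    ∃ a : Fin (sdim B + 1) → ℤ × (Fin n → ℤ), (∀ l, a l ∈ B) ∧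
      LinearIndependent ℝ fun l => vec (a l) := by
  classical
  obtain ⟨κ, a, hinj, hspan, hli⟩ := exists_linearIndependent' ℝ fun b : B => vec (b : ℤ × (Fin n → ℤ))
  have hfin : Finite κ := Finite.of_injective a hinj
  have := Fintype.ofFinite κ
  have h1 : Module.finrank ℝ (spn B) = Fintype.card κ := by
    have h2 : spn B = Submodule.span ℝ (Set.range fun b : B => vec (b : ℤ × (Fin n → ℤ))) := by
      rw [spn]
      congr 1
      ext y
      constructor
      · rintro ⟨b, hb, rfl⟩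
        exact ⟨⟨b, hb⟩, rfl⟩
      · rintro ⟨b, rfl⟩
        exact ⟨b, b.2, rfl⟩
    rw [h2, ← hspan]
    exact finrank_span_eq_card hli
  rw [finrank_spn hne] at h1
  let e : Fin (sdim B + 1) ≃ κ := Fintype.equivOfCardEq (by rw [Fintype.card_fin, h1])
  exact ⟨fun l => a (e l), fun l => (a (e l)).2, hli.comp e e.injective⟩

/-- The number of the points of the cone of given height. -/
theorem count {B : Finset (ℤ × (Fin n → ℤ))} (hB : ∀ b ∈ B, 0 ≤ b.1)
    (hB0 : ∀ b ∈ B, b.1 = 0 → b = 0) (hne : ∃ b ∈ B, b ≠ 0) :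
    ∃ D : ℕ, ∀ (k : ℕ) (k' : ℤ), 1 ≤ k → k' ≤ k → ∀ A : Finset (ℤ × (Fin n → ℤ)),
      (∀ x ∈ A, x.1 = k' ∧ ∃ μ : ℤ × (Fin n → ℤ) → ℕ, x = ∑ b ∈ B, μ b • b) →
        A.card ≤ D * k ^ sdim B := by
  classical
  -- the coordinates
  let φ : Option (Fin n) → Module.Dual ℝ (spn B) := fun j => (LinearMap.proj j).comp (spn B).subtype
  obtain ⟨b₀, hb₀, hb₀0⟩ := hne
  have hφ0 : φ none ≠ 0 := by
    intro h
    have h1 : φ none ⟨vec b₀, Submodule.subset_span ⟨b₀, hb₀, rfl⟩⟩ = 0 := by rw [h]; rfl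
    have h2 : ((b₀.1 : ℤ) : ℝ) = 0 := h1
    exact hb₀0 (hB0 b₀ hb₀ (by exact_mod_cast h2))
  have hli0 : LinearIndepOn ℝ φ {none} := by
    rw [LinearIndepOn, linearIndependent_unique_iff]
    exact hφ0
  obtain ⟨c, -, hc0, hspan, hli⟩ := exists_linearIndepOn_extension hli0 (Set.subset_univ _)
  rw [Set.singleton_subset_iff] at hc0
  have hcf := Fintype.ofFinite c
  have hcard : Fintype.card c ≤ sdim B + 1 := by
    have h1 := LinearIndependent.fintype_card_le_finrank hli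
    rw [Subspace.dual_finrank_eq, finrank_spn ⟨b₀, hb₀, hb₀0⟩] at h1
    exact h1
  have hdet : ∀ y ∈ spn B, (∀ j ∈ c, y j = 0) → y = 0 := by
    intro y hy h
    funext j
    have h1 : φ j ∈ Submodule.span ℝ (φ '' c) := hspan ⟨j, trivial, rfl⟩
    have h2 : ∀ ψ ∈ Submodule.span ℝ (φ '' c), ψ ⟨y, hy⟩ = 0 := by
      intro ψ hψ
      induction hψ using Submodule.span_induction with
      | mem x hx =>
        obtain ⟨i, hi, rfl⟩ := hx
        exact h i hi
      | zero => rfl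
      | add x z _ _ hx hz => rw [LinearMap.add_apply, hx, hz, add_zero]
      | smul t x _ hx => rw [LinearMap.smul_apply, hx, smul_zero]
    exact h2 _ h1
  -- the bound
  let R : ℕ := ∑ b ∈ B, ∑ i, (b.2 i).natAbs
  refine ⟨(2 * R + 1) ^ sdim B, fun k k' hk hk' A hA => ?_⟩
  have hcoord : ∀ x ∈ A, ∀ i, x.2 i ∈ Finset.Icc (-(R * k : ℕ) : ℤ) (R * k : ℕ) := by
    intro x hx i
    obtain ⟨h1, μ, h2⟩ := hA x hx
    have h3 : x.1 = ∑ b ∈ B, (μ b : ℤ) * b.1 := by
      conv_lhs => rw [h2]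
      exact fst_comb B μ
    have h4 : x.2 i = ∑ b ∈ B, (μ b : ℤ) * b.2 i := by
      conv_lhs => rw [h2]
      exact snd_comb B μ i
    have h5 : |x.2 i| ≤ (R * k : ℕ) := by
      rw [h4]
      refine (Finset.abs_sum_le_sum_abs _ _).trans ?_
      have h6 : ∀ b ∈ B, |(μ b : ℤ) * b.2 i| ≤ ((∑ i, (b.2 i).natAbs : ℕ) : ℤ) * k := by
        intro b hb
        by_cases hb0 : b = 0
        · rw [hb0]
          simp
        have h7 : (μ b : ℤ) * b.1 ≤ k := by
          refine le_trans ?_ hk'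
          rw [← h1, h3]
          exact Finset.single_le_sum (f := fun b => (μ b : ℤ) * b.1)
            (fun b hb => mul_nonneg (Int.natCast_nonneg _) (hB b hb)) hb
        have h8 : 1 ≤ b.1 := by
          have := hB b hb
          have : b.1 ≠ 0 := fun h => hb0 (hB0 b hb h)
          omega
        have h9 : (μ b : ℤ) ≤ k := by nlinarith [Int.natCast_nonneg (μ b)]
        rw [abs_mul, Nat.abs_cast, mul_comm]
        refine mul_le_mul ?_ h9 (Int.natCast_nonneg _) (Int.natCast_nonneg _)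
        rw [Int.abs_eq_natAbs]
        exact_mod_cast Finset.single_le_sum (f := fun i => (b.2 i).natAbs)
          (fun _ _ => Nat.zero_le _) (Finset.mem_univ i)
      refine (Finset.sum_le_sum h6).trans ?_
      rw [← Finset.sum_mul]
      simp only [R]
      push_cast
      rfl
    rw [abs_le] at h5
    exact Finset.mem_Icc.2 h5
  let c' : Type := {j : c // (j : Option (Fin n)) ≠ none}
  have hc' : Fintype.card c' ≤ sdim B := by
    have h1 : Fintype.card c' < Fintype.card c :=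
      Fintype.card_subtype_lt (x := ⟨none, hc0⟩) (fun h => h rfl)
    omega
  let g : A → (c' → Finset.Icc (-(R * k : ℕ) : ℤ) (R * k : ℕ)) := fun x j =>
    match j with
    | ⟨⟨some i, _⟩, _⟩ => ⟨x.1.2 i, hcoord x.1 x.2 i⟩
    | ⟨⟨none, _⟩, h⟩ => absurd rfl h
  have hg : Function.Injective g := by
    intro x y hxy
    apply Subtype.ext
    apply vec_inj
    rw [← sub_eq_zero]
    obtain ⟨hx1, μ, hx2⟩ := hA x.1 x.2
    obtain ⟨hy1, μ', hy2⟩ := hA y.1 y.2
    refine hdet _ (Submodule.sub_mem _ ?_ ?_) fun j hj => ?_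
    · rw [hx2]
      exact comb_mem μ
    · rw [hy2]
      exact comb_mem μ'
    · rw [Pi.sub_apply, sub_eq_zero]
      rcases j with _ | i
      · change ((x.1.1 : ℤ) : ℝ) = (y.1.1 : ℤ)
        rw [hx1, hy1]
      · have h1 := congrFun hxy ⟨⟨some i, hj⟩, Option.some_ne_none i⟩
        have h2 : x.1.2 i = y.1.2 i := congrArg Subtype.val h1
        change ((x.1.2 i : ℤ) : ℝ) = (y.1.2 i : ℤ)
        rw [h2]
  have h1 := Fintype.card_le_of_injective g hg
  rw [Fintype.card_coe, Fintype.card_fun, Fintype.card_coe, Int.card_Icc] at h1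
  have h2 : ((R * k : ℕ) + 1 - -(R * k : ℕ) : ℤ).toNat = 2 * (R * k) + 1 := by omega
  rw [h2] at h1
  calc A.card ≤ (2 * (R * k) + 1) ^ Fintype.card c' := h1
    _ ≤ ((2 * R + 1) * k) ^ Fintype.card c' := Nat.pow_le_pow_left (by nlinarith) _
    _ ≤ ((2 * R + 1) * k) ^ sdim B := Nat.pow_le_pow_right (Nat.mul_pos (by omega) hk) hc'
    _ = (2 * R + 1) ^ sdim B * k ^ sdim B := mul_pow _ _ _

end Q47.TK
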