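import Pool.Agent.Q47.TK.Unif
import Pool.Agent.Q47.TK.Count
import Pool.Agent.Q47.TB.Psef3

/-!
# The classes of the coefficients of sections on toric bundles
-/

set_option autoImplicit false

namespace Q47.TK

open Pool.Agent.W594.SYZ2 Pool.Agent.W594.SYZ2.TQ Pool.Agent.TH735.AQ MvPolynomial Q47.EB Q47.KN
open Q47.TB
open Q47.MM (nef_of_section Inv inv_of_chern roots exists_tests Refls nef_of_roots)

variable {V : Type*} [NormedAddCommGroup V] [NormedSpace ℂ V] {Γ : Subgroup (V ≃ᵃ[ℂ] V)}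
  {ι : Type*} [Fintype ι] {n : ℕ}

/-- The exponents `k d + ⟨m, u⟩`. -/
def al (u : ι → Fin n → ℤ) (d : ι → ℤ) (x : ℤ × (Fin n → ℤ)) (i : ι) : ℤ :=
  x.1 * d i + ∑ l, x.2 l * u i l

omit [Fintype ι] in
theorem al_add (u : ι → Fin n → ℤ) (d : ι → ℤ) (x y : ℤ × (Fin n → ℤ)) (i : ι) :
    al u d (x + y) i = al u d x i + al u d y i := by
  simp only [al, Prod.fst_add, Prod.snd_add, Pi.add_apply, add_mul, Finset.sum_add_distrib]
  ring

/-- The exponents as a homomorphism. -/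
def alHom (u : ι → Fin n → ℤ) (d : ι → ℤ) (i : ι) : ℤ × (Fin n → ℤ) →+ ℤ :=
  AddMonoidHom.mk' (fun x => al u d x i) fun x y => al_add u d x y i

omit [Fintype ι] in
theorem alHom_apply (u : ι → Fin n → ℤ) (d : ι → ℤ) (i : ι) (x : ℤ × (Fin n → ℤ)) :
    alHom u d i x = al u d x i := rfl

omit [Fintype ι] in
theorem al_comb (u : ι → Fin n → ℤ) (d : ι → ℤ) {κ : Type*} (s : Finset κ) (μ : κ → ℕ)
    (x : κ → ℤ × (Fin n → ℤ)) (i : ι) :
    al u d (∑ b ∈ s, μ b • x b) i = ∑ b ∈ s, (μ b : ℤ) * al u d (x b) i := by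
  rw [← alHom_apply, map_sum]
  exact Finset.sum_congr rfl fun b _ => by rw [map_nsmul, alHom_apply, nsmul_eq_mul]

/-- The class `k H - ∑ (k d_i + ⟨m, u_i⟩) Hc_i`. -/
noncomputable def form (u : ι → Fin n → ℤ) (d : ι → ℤ) (H : V → V → ℂ) (Hc : ι → V → V → ℂ)
    (x : ℤ × (Fin n → ℤ)) (v w : V) : ℂ :=
  (x.1 : ℂ) * H v w - ∑ i, (al u d x i : ℂ) * Hc i v w

omit [NormedAddCommGroup V] [NormedSpace ℂ V] in
theorem form_add (u : ι → Fin n → ℤ) (d : ι → ℤ) (H : V → V → ℂ) (Hc : ι → V → V → ℂ)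
    (x y : ℤ × (Fin n → ℤ)) (v w : V) :
    form u d H Hc (x + y) v w = form u d H Hc x v w + form u d H Hc y v w := by
  simp only [form, al_add, Prod.fst_add]
  push_cast
  simp only [add_mul, Finset.sum_add_distrib]
  ring

omit [NormedAddCommGroup V] [NormedSpace ℂ V] in
theorem form_comb (u : ι → Fin n → ℤ) (d : ι → ℤ) (H : V → V → ℂ) (Hc : ι → V → V → ℂ)
    {κ : Type*} (s : Finset κ) (μ : κ → ℕ) (x : κ → ℤ × (Fin n → ℤ)) (v w : V) :
    form u d H Hc (∑ b ∈ s, μ b • x b) v w = ∑ b ∈ s, (μ b : ℂ) * form u d H Hc (x b) v w := by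
  let g : ℤ × (Fin n → ℤ) →+ ℂ := AddMonoidHom.mk' (fun x => form u d H Hc x v w)
    fun x y => form_add u d H Hc x y v w
  have h1 : g (∑ b ∈ s, μ b • x b) = ∑ b ∈ s, (μ b : ℂ) * g (x b) := by
    rw [map_sum]
    exact Finset.sum_congr rfl fun b _ => by rw [map_nsmul, nsmul_eq_mul]
  exact h1

theorem form_herm {u : ι → Fin n → ℤ} {d : ι → ℤ} {H : V → V → ℂ} {Hc : ι → V → V → ℂ}
    (hH : IsHermitian H) (hc : ∀ i, IsHermitian (Hc i)) (x : ℤ × (Fin n → ℤ)) :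
    IsHermitian (form u d H Hc x) := by
  refine ⟨fun a v w => ?_, fun a v w => ?_, fun v w => ?_⟩
  · simp only [form, hH.add_left, (hc _).add_left, mul_add, Finset.sum_add_distrib]
    ring
  · simp only [form, hH.smul_left, (hc _).smul_left, mul_sub, Finset.mul_sum]
    congr 1
    · ring
    · exact Finset.sum_congr rfl fun i _ => by ring
  · simp only [form, map_sub, map_mul, map_sum, map_intCast, ← hH.symm, ← (hc _).symm]

/-- The functions which define the cone of the classes. -/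
def tst (u : ι → Fin n → ℤ) (d : ι → ℤ) {R : Type*} (tL : R → ℤ) (tc : ι → R → ℤ) :
    ℤ × (Fin n → ℤ) →+ (ι ⊕ R → ℤ) :=
  AddMonoidHom.mk' (fun x j => match j with
    | Sum.inl i => al u d x i
    | Sum.inr g => x.1 * tL g - ∑ i, al u d x i * tc i g) fun x y => by
    funext j
    rcases j with i | g
    · exact al_add u d x y i
    · simp only [al_add, Prod.fst_add, Pi.add_apply, add_mul, Finset.sum_add_distrib]
      ring

theorem tst_inl (u : ι → Fin n → ℤ) (d : ι → ℤ) {R : Type*} (tL : R → ℤ) (tc : ι → R → ℤ)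
    (x : ℤ × (Fin n → ℤ)) (i : ι) : tst u d tL tc x (Sum.inl i) = al u d x i := rfl

theorem tst_inr (u : ι → Fin n → ℤ) (d : ι → ℤ) {R : Type*} (tL : R → ℤ) (tc : ι → R → ℤ)
    (x : ℤ × (Fin n → ℤ)) (g : R) :
    tst u d tL tc x (Sum.inr g) = x.1 * tL g - ∑ i, al u d x i * tc i g := rfl

theorem eq_zero_of_pair {u : ι → Fin n → ℤ} {S : Set (Set ι)} (hS : IsSmoothFan u S)
    {m : Fin n → ℤ} (h : ∀ i, ∑ l, m l * u i l = 0) : m = 0 := by
  funext k
  obtain ⟨a, ⟨-, ha⟩, -⟩ := hS.rep (Pi.single k 1)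
  have h1 : ∑ l, m l * (Pi.single k (1 : ℤ) : Fin n → ℤ) l = 0 := by
    simp only [← ha, Finset.mul_sum]
    rw [Finset.sum_comm]
    refine Finset.sum_eq_zero fun i _ => ?_
    have h2 : ∑ l, m l * ((a i : ℤ) * u i l) = a i * ∑ l, m l * u i l := by
      rw [Finset.mul_sum]
      exact Finset.sum_congr rfl fun l _ => by ring
    rw [h2, h i, mul_zero]
  simpa [Pi.single_apply] using h1

theorem al_inj {u : ι → Fin n → ℤ} {S : Set (Set ι)} (hS : IsSmoothFan u S) {d : ι → ℤ}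
    {x y : ℤ × (Fin n → ℤ)} (h1 : x.1 = y.1) (h2 : ∀ i, al u d x i = al u d y i) : x = y := by
  refine Prod.ext h1 (sub_eq_zero.1 (eq_zero_of_pair hS fun i => ?_))
  have h3 := h2 i
  rw [al, al, h1] at h3
  have h4 : ∑ l, (x.2 - y.2) l * u i l = ∑ l, x.2 l * u i l - ∑ l, y.2 l * u i l := by
    rw [← Finset.sum_sub_distrib]
    exact Finset.sum_congr rfl fun l _ => by rw [Pi.sub_apply, sub_mul]
  rw [h4]
  linarith

theorem tst_inj {u : ι → Fin n → ℤ} {S : Set (Set ι)} (hS : IsSmoothFan u S) {d : ι → ℤ}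
    {R : Type*} (tL : R → ℤ) (tc : ι → R → ℤ) (x : ℤ × (Fin n → ℤ)) (h1 : x.1 = 0)
    (h2 : tst u d tL tc x = 0) : x = 0 := by
  refine al_inj hS (d := d) h1 fun i => ?_
  have h3 : al u d x i = 0 := congrFun h2 (Sum.inl i)
  rw [h3]
  simp [al]

/-- Effective classes of degree zero vanish. -/
theorem eq_zero_of_nonneg {u : ι → Fin n → ℤ} {S : Set (Set ι)} (hS : IsSmoothFan u S)
    {d : ι → ℤ} {x : ℤ × (Fin n → ℤ)} (h1 : x.1 = 0) (h2 : ∀ i, 0 ≤ al u d x i) : x = 0 := by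
  obtain ⟨a, ha1, ha⟩ := relation hS
  have h3 : ∑ i, (a i : ℤ) * al u d x i = 0 := by
    have h4 : ∀ i, al u d x i = ∑ l, x.2 l * u i l := fun i => by rw [al, h1, zero_mul, zero_add]
    simp only [h4, Finset.mul_sum]
    rw [Finset.sum_comm]
    refine Finset.sum_eq_zero fun l _ => ?_
    have h5 : ∑ i, (a i : ℤ) * (x.2 l * u i l) = x.2 l * ∑ i, (a i : ℤ) * u i l := by
      rw [Finset.mul_sum]
      exact Finset.sum_congr rfl fun i _ => by ring
    rw [h5, ha l, mul_zero]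
  refine al_inj hS (d := d) h1 fun i => ?_
  have h4 : (a i : ℤ) * al u d x i = 0 :=
    (Finset.sum_eq_zero_iff_of_nonneg fun i _ => mul_nonneg (Int.natCast_nonneg _) (h2 i)).1 h3 i
      (Finset.mem_univ i)
  have h5 : (a i : ℤ) ≠ 0 := by
    have := ha1 i
    omega
  rw [(mul_eq_zero.1 h4).resolve_left h5]
  simp [al]

/-! ### The line bundles -/

/-- The line bundle `L^k ⊗ ∏ c_i^(- α_i)`. -/
noncomputable def lb (L : LineBundle Γ) (c : ι → LineBundle Γ) (k : ℕ) (α : ι → ℕ) :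
    LineBundle Γ := tw (L.pow k) c 1 α

theorem lb_e (L : LineBundle Γ) (c : ι → LineBundle Γ) (k : ℕ) (α : ι → ℕ) (γ : Γ) (v : V) :
    (lb L c k α).e γ v = L.e γ v ^ k * (∏ i, (c i).e γ v ^ α i)⁻¹ := by
  change (L.e γ v ^ k) ^ 1 * (∏ i, (c i).e γ v ^ (1 * α i))⁻¹ = _
  simp only [pow_one, one_mul]

theorem lb_pow (L : LineBundle Γ) (c : ι → LineBundle Γ) (k : ℕ) (α : ι → ℕ) (E : ℕ) :
    (lb L c k α).pow E = lb L c (E * k) fun i => E * α i := by
  refine lb_ext fun γ v => ?_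
  change (lb L c k α).e γ v ^ E = _
  rw [lb_e, lb_e, mul_pow, ← pow_mul, mul_comm k E, inv_pow, ← Finset.prod_pow]
  congr 2
  exact Finset.prod_congr rfl fun i _ => by rw [← pow_mul, mul_comm]

theorem chern_lb {L : LineBundle Γ} {c : ι → LineBundle Γ} {H : V → V → ℂ}
    {Hc : ι → V → V → ℂ} (hL : IsChernForm L H) (hc : ∀ i, IsChernForm (c i) (Hc i)) (k : ℕ)
    (α : ι → ℕ) :
    IsChernForm (lb L c k α) fun v w => (k : ℂ) * H v w - ∑ i, (α i : ℂ) * Hc i v w := by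
  have h1 := chern_tw (chern_pow hL k) hc 1 α
  simp only [Nat.cast_one, one_mul] at h1
  exact h1

end Q47.TK
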