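import Pool.Agent.Q47.TK.Main

/-!
# The dimension of the polytope of the classes and the maximal rank
-/

set_option autoImplicit false

namespace Q47.TK

open Pool.Agent.W594.SYZ2 Pool.Agent.W594.SYZ2.TQ Pool.Agent.TH735.AQ MvPolynomial Q47.EB Q47.KN
open Q47.TB Filter
open Q47.MM (nef_of_section Inv inv_of_chern roots exists_tests Refls nef_of_roots cone_decomp)

variable {V : Type*} [NormedAddCommGroup V] [NormedSpace ℂ V] {Γ : Subgroup (V ≃ᵃ[ℂ] V)}
  {ι : Type*} [Fintype ι] {n : ℕ}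

/-- The set of the real effective divisors `∑ β_i D_i` of the class of `d` such that `H - ∑ β_i Hc_i`
is nef. -/
def pol (u : ι → Fin n → ℤ) (d : ι → ℤ) (H : V → V → ℂ) (Hc : ι → V → V → ℂ) : Set (ι → ℝ) :=
  {β | (∀ i, 0 ≤ β i) ∧ (∃ q : Fin n → ℝ, ∀ i, β i = d i + ∑ k, q k * u i k) ∧
    IsNefForm fun v w => H v w - ∑ i, (β i : ℂ) * Hc i v w}

/-- Real points of the cone are positive combinations of integral points. -/
theorem real_decomp {R : Type*} [Finite R] (u : ι → Fin n → ℤ) (d : ι → ℤ) (tL : R → ℤ)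
    (tc : ι → R → ℤ) (q : Fin n → ℝ) (h1 : ∀ i, 0 ≤ d i + ∑ k, q k * u i k)
    (h2 : ∀ g, 0 ≤ (tL g : ℝ) - ∑ i, (d i + ∑ k, q k * u i k) * tc i g) :
    ∃ (κ : Type) (_ : Fintype κ) (r : κ → ℝ) (x : κ → ℤ × (Fin n → ℤ)), (∀ k, 0 < r k) ∧
      (∀ k, 0 ≤ (x k).1) ∧ (∀ k j, 0 ≤ tst u d tL tc (x k) j) ∧ ∑ k, r k * (x k).1 = 1 ∧
      ∀ l, ∑ k, r k * (x k).2 l = q l := by
  classical
  let nn : Unit ⊕ (ι ⊕ R) → Fin (n + 1) → ℤ := Sum.elim (fun _ => Fin.cons 1 fun _ => 0)
    (Sum.elim (fun i => Fin.cons (d i) fun k => u i k)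
      (fun g => Fin.cons (tL g - ∑ i, d i * tc i g) fun k => -∑ i, u i k * tc i g))
  let z : Fin (n + 1) → ℝ := Fin.cons 1 q
  have e1 : ∀ y : Fin (n + 1) → ℝ, ∑ j, (nn (Sum.inl ()) j : ℝ) * y j = y 0 := by
    intro y
    simp [nn, Fin.sum_univ_succ]
  have e2 : ∀ (y : Fin (n + 1) → ℝ) (i : ι), ∑ j, (nn (Sum.inr (Sum.inl i)) j : ℝ) * y j
      = y 0 * d i + ∑ k, y (Fin.succ k) * u i k := by
    intro y i
    rw [Fin.sum_univ_succ]
    simp only [nn, Sum.elim_inr, Sum.elim_inl, Fin.cons_zero, Fin.cons_succ]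
    rw [mul_comm]
    congr 1
    exact Finset.sum_congr rfl fun i _ => mul_comm _ _
  have e3 : ∀ (y : Fin (n + 1) → ℝ) (g : R),
      ∑ j, (nn (Sum.inr (Sum.inr g)) j : ℝ) * y j
      = y 0 * tL g - ∑ i, (y 0 * d i + ∑ k, y (Fin.succ k) * u i k) * tc i g := by
    intro y g
    rw [Fin.sum_univ_succ]
    simp only [nn, Sum.elim_inr, Fin.cons_zero, Fin.cons_succ]
    push_cast
    simp only [neg_mul, Finset.sum_neg_distrib, Finset.sum_mul, add_mul, Finset.sum_add_distrib,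
      sub_mul]
    rw [Finset.sum_comm]
    have h1 : ∑ i, (d i : ℝ) * tc i g * y 0 = ∑ i, y 0 * d i * tc i g :=
      Finset.sum_congr rfl fun i _ => by ring
    have h2 : ∑ i, ∑ k, (u i k : ℝ) * tc i g * y (Fin.succ k)
        = ∑ i, ∑ k, y (Fin.succ k) * u i k * tc i g :=
      Finset.sum_congr rfl fun i _ => Finset.sum_congr rfl fun k _ => by ring
    rw [h1, h2]
    ring
  have hz : ∀ j, 0 ≤ ∑ i, (nn j i : ℝ) * z i := by
    rintro (⟨⟩ | i | g)
    · rw [e1]
      exact zero_le_one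
    · rw [e2]
      simpa [z] using h1 i
    · rw [e3]
      simpa [z] using h2 g
  obtain ⟨κ, _, r, b, hr, hsum, hb⟩ := cone_decomp nn z hz
  have hcast : ∀ k j, (0 : ℝ) ≤ ∑ l, (nn j l : ℝ) * (b k l : ℝ) := by
    intro k j
    have h1 := (hb k j).1
    exact_mod_cast h1
  refine ⟨κ, inferInstance, r, fun k => (b k 0, fun l => b k (Fin.succ l)), hr, fun k => ?_,
    fun k j => ?_, ?_, fun l => ?_⟩
  · have h1 := hcast k (Sum.inl ())
    rw [e1 fun i => (b k i : ℝ)] at h1
    exact_mod_cast h1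
  · rcases j with i | g
    · rw [tst_inl, al]
      have h1 := hcast k (Sum.inr (Sum.inl i))
      rw [e2 fun i => (b k i : ℝ)] at h1
      exact_mod_cast h1
    · rw [tst_inr]
      have h1 := hcast k (Sum.inr (Sum.inr g))
      rw [e3 fun i => (b k i : ℝ)] at h1
      simp only [al]
      exact_mod_cast h1
  · exact hsum 0
  · exact hsum (Fin.succ l)

/-- The exponents as a real linear map. -/
noncomputable def alR (u : ι → Fin n → ℤ) (d : ι → ℤ) : (Option (Fin n) → ℝ) →ₗ[ℝ] (ι → ℝ) where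
  toFun := fun y i => y none * d i + ∑ k, y (some k) * u i k
  map_add' := fun y y' => by
    funext i
    simp only [Pi.add_apply, add_mul, Finset.sum_add_distrib]
    ring
  map_smul' := fun t y => by
    funext i
    simp only [Pi.smul_apply, smul_eq_mul, RingHom.id_apply, mul_add, Finset.mul_sum, mul_assoc]

omit [Fintype ι] in
theorem alR_apply (u : ι → Fin n → ℤ) (d : ι → ℤ) (y : Option (Fin n) → ℝ) (i : ι) :
    alR u d y i = y none * d i + ∑ k, y (some k) * u i k := rfl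

omit [Fintype ι] in
theorem alR_vec (u : ι → Fin n → ℤ) (d : ι → ℤ) (x : ℤ × (Fin n → ℤ)) (i : ι) :
    alR u d (vec x) i = al u d x i := by
  rw [alR_apply, al]
  simp only [vec]
  push_cast
  rfl

theorem alR_inj {u : ι → Fin n → ℤ} {S : Set (Set ι)} (hS : IsSmoothFan u S) {d : ι → ℤ}
    {y : Option (Fin n) → ℝ} (h0 : y none = 0) (h : alR u d y = 0) : y = 0 := by
  have h1 : ∀ i, ∑ k, y (some k) * u i k = 0 := fun i => by
    have := congrFun h i
    rw [alR_apply, h0, zero_mul, zero_add] at this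
    exact this
  funext j
  rcases j with _ | k
  · exact h0
  obtain ⟨a, ⟨-, ha⟩, -⟩ := hS.rep (Pi.single k 1)
  have h2 : ∑ l, y (some l) * ((Pi.single k (1 : ℤ) : Fin n → ℤ) l : ℝ) = 0 := by
    have h3 : ∀ l, ((Pi.single k (1 : ℤ) : Fin n → ℤ) l : ℝ) = ∑ i, (a i : ℝ) * (u i l : ℝ) :=
      fun l => by exact_mod_cast (ha l).symm
    simp only [h3, Finset.mul_sum]
    rw [Finset.sum_comm]
    refine Finset.sum_eq_zero fun i _ => ?_
    have h4 : ∑ l, y (some l) * ((a i : ℝ) * u i l) = a i * ∑ l, y (some l) * u i l := by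
      rw [Finset.mul_sum]
      exact Finset.sum_congr rfl fun l _ => by ring
    rw [h4, h1 i, mul_zero]
  simpa [Pi.single_apply] using h2

/-- The dimension of the polytope. -/
theorem finrank_vectorSpan {u : ι → Fin n → ℤ} {S : Set (Set ι)} (hS : IsSmoothFan u S)
    {d : ι → ℤ} {B : Finset (ℤ × (Fin n → ℤ))}
    (hB0 : ∀ b ∈ B, b.1 = 0 → b = 0) (hne : ∃ b ∈ B, b ≠ 0) {P : Set (ι → ℝ)}
    (h1 : ∀ β ∈ P, ∃ y ∈ spn B, y none = 1 ∧ alR u d y = β)
    (h2 : ∀ b ∈ B, b ≠ 0 → (b.1 : ℝ)⁻¹ • alR u d (vec b) ∈ P) :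
    Module.finrank ℝ (vectorSpan ℝ P) = sdim B := by
  classical
  obtain ⟨b₀, hb₀, hb₀0⟩ := hne
  -- the hyperplane
  let W' : Submodule ℝ (Option (Fin n) → ℝ) := spn B ⊓ LinearMap.ker (LinearMap.proj none)
  have hdim : Module.finrank ℝ W' = sdim B := by
    let φ : Module.Dual ℝ (spn B) := (LinearMap.proj none).comp (spn B).subtype
    have hφ0 : φ ≠ 0 := by
      intro h
      have h1 : φ ⟨vec b₀, Submodule.subset_span ⟨b₀, hb₀, rfl⟩⟩ = 0 := by rw [h]; rfl
      have h2 : ((b₀.1 : ℤ) : ℝ) = 0 := h1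
      exact hb₀0 (hB0 b₀ hb₀ (by exact_mod_cast h2))
    have h3 := Module.Dual.finrank_ker_add_one_of_ne_zero hφ0
    rw [finrank_spn ⟨b₀, hb₀, hb₀0⟩] at h3
    have h4 : W' = (LinearMap.ker φ).map (spn B).subtype := by
      ext y
      constructor
      · rintro ⟨hy1, hy2⟩
        exact ⟨⟨y, hy1⟩, hy2, rfl⟩
      · rintro ⟨y', hy', rfl⟩
        exact ⟨y'.2, hy'⟩
    rw [h4, Submodule.finrank_map_subtype_eq]
    omega
  have hmap : vectorSpan ℝ P = W'.map (alR u d) := by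
    apply le_antisymm
    · rw [vectorSpan_def, Submodule.span_le]
      rintro _ ⟨β, hβ, β', hβ', rfl⟩
      obtain ⟨y, hy, hy1, rfl⟩ := h1 β hβ
      obtain ⟨y', hy', hy1', rfl⟩ := h1 β' hβ'
      refine ⟨y - y', ⟨Submodule.sub_mem _ hy hy', ?_⟩, map_sub _ _ _⟩
      change y none - y' none = 0
      rw [hy1, hy1', sub_self]
    · rintro _ ⟨y, ⟨hy, hy0⟩, rfl⟩
      have hy0' : y none = 0 := hy0
      -- modulo the vector of `b₀`
      have key : ∀ y ∈ spn B, alR u d y - y none • ((b₀.1 : ℝ)⁻¹ • alR u d (vec b₀))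
          ∈ vectorSpan ℝ P := by
        intro y hy
        rw [spn] at hy
        induction hy using Submodule.span_induction with
        | mem y hy =>
          obtain ⟨b, hb, rfl⟩ := hy
          by_cases hb0 : b = 0
          · rw [hb0, vec_zero, map_zero, Pi.zero_apply, zero_smul, sub_zero]
            exact Submodule.zero_mem _
          have hbR : (b.1 : ℝ) ≠ 0 := fun h => hb0 (hB0 b hb (by exact_mod_cast h))
          have h3 := vsub_mem_vectorSpan ℝ (h2 b hb hb0) (h2 b₀ hb₀ hb₀0)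
          have h4 := Submodule.smul_mem _ (b.1 : ℝ) h3
          rw [vsub_eq_sub, smul_sub, smul_smul, mul_inv_cancel₀ hbR, one_smul] at h4
          exact h4
        | zero =>
          rw [map_zero, Pi.zero_apply, zero_smul, sub_zero]
          exact Submodule.zero_mem _
        | add y z _ _ hy hz =>
          rw [map_add, Pi.add_apply, add_smul, add_sub_add_comm]
          exact Submodule.add_mem _ hy hz
        | smul t y _ hy =>
          rw [map_smul, Pi.smul_apply, smul_eq_mul, mul_smul, ← smul_sub]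
          exact Submodule.smul_mem _ _ hy
      have h3 := key y hy
      rw [hy0', zero_smul, sub_zero] at h3
      exact h3
  rw [hmap, ← hdim]
  let e := LinearEquiv.ofInjective ((alR u d).domRestrict W') (by
    rw [← LinearMap.ker_eq_bot, LinearMap.ker_eq_bot']
    intro y hy
    exact Subtype.ext (alR_inj hS y.2.2 hy))
  have h3 : LinearMap.range ((alR u d).domRestrict W') = W'.map (alR u d) := by
    ext z
    constructor
    · rintro ⟨y, rfl⟩
      exact ⟨y.1, y.2, rfl⟩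
    · rintro ⟨y, hy, rfl⟩
      exact ⟨⟨y, hy⟩, rfl⟩
  rw [← h3]
  exact e.finrank_eq.symm

end Q47.TK
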