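import Pool.Agent.Q47.TK.Num

/-!
# Line bundles dominated by a log pluricanonical bundle
-/

set_option autoImplicit false

namespace Q47.TK

open Pool.Agent.W594.SYZ2 Pool.Agent.W594.SYZ2.TQ Pool.Agent.TH735.AQ MvPolynomial Q47.EB Q47.KN
open Q47.TB Filter
open Q47.MM (nef_of_section Inv inv_of_chern roots exists_tests Refls nef_of_roots)

variable {V : Type*} [NormedAddCommGroup V] [NormedSpace ℂ V] {Γ : Subgroup (V ≃ᵃ[ℂ] V)}
  {ι : Type*} [Fintype ι] {n : ℕ}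

theorem herm_sub_smul {H HA : V → V → ℂ} (hH : IsHermitian H) (hA : IsHermitian HA) (t : ℝ) :
    IsHermitian fun v w => H v w - t * HA v w := by
  refine ⟨fun a v w => ?_, fun a v w => ?_, fun v w => ?_⟩
  · simp only [hH.add_left, hA.add_left]
    ring
  · simp only [hH.smul_left, hA.smul_left]
    ring
  · simp only [map_sub, map_mul, Complex.conj_ofReal, ← hH.symm, ← hA.symm]

/-- The classes of the coefficients of sections of a dominated line bundle are near the cone. -/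
theorem near_real [FiniteDimensional ℂ V] (hΓ : IsTorusQuotient Γ) {u : ι → Fin n → ℤ}
    {A M : LineBundle Γ} {c : ι → LineBundle Γ} {H HA HM : V → V → ℂ} {Hc : ι → V → V → ℂ}
    (hH : IsHermitian H) (hc : ∀ i, IsChernForm (c i) (Hc i)) (hA : IsChernForm A HA)
    (hM : IsChernForm M HM) {X Y : Refls Γ → V}
    {tL tM : Refls Γ → ℤ} {tc : ι → Refls Γ → ℤ} (htL : ∀ g, (H (X g) (Y g)).im = tL g)
    (htc : ∀ i g, (Hc i (X g) (Y g)).im = tc i g) (htM : ∀ g, (HM (X g) (Y g)).im = tM g)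
    (ht : ∀ H' : V → V → ℂ, IsHermitian H' →
        ((∀ a ∈ roots Γ, 0 ≤ (H' a a).re) ↔ ∀ g, 0 ≤ (H' (X g) (Y g)).im))
    {d a b : ι → ℤ} {t : ℝ} (ht0 : 0 < t) {β : ι → ℝ} {q : Fin n → ℝ}
    (hβ0 : ∀ i, 0 ≤ β i) (hβ : ∀ i, β i = ((d i : ℝ) - t * a i) + ∑ k, q k * u i k)
    (hn : IsNefForm fun v w => (H v w - t * HA v w) - ∑ i, (β i : ℂ) * Hc i v w)
    {ε : ℕ} (hε1 : ∀ i, t * |(b i : ℝ)| + ∑ l, |(u i l : ℝ)| ≤ ε)
    (hε2 : ∀ g, t * |(tM g : ℝ)| +
      ∑ i, (t * |(b i : ℝ)| + ∑ l, |(u i l : ℝ)|) * |(tc i g : ℝ)| ≤ ε)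
    {k : ℕ} {G : V → MvPolynomial ι ℂ}
    (hG : IsSection u c (fun i => k * a i + b i) (tensor (A.pow k) M).e G) {v : V} {α : ι →₀ ℕ}
    (hα : coeff α (G v) ≠ 0) :
    ∃ (x : ℤ × (Fin n → ℤ)) (e : Fin n → ℝ), x.1 = k ∧ (∀ l, |e l| ≤ 1) ∧
      (∀ i, t * α i + k * β i = al u d x i + (t * b i + ∑ l, e l * u i l)) ∧
      ∀ j, -(ε : ℤ) ≤ tst u d tL tc x j := by
  obtain ⟨m, hm⟩ := hG.deg v α (mem_support_iff.2 hα)
  have hm' : ∀ i, (α i : ℝ) = k * a i + b i + ∑ l, (m l : ℝ) * u i l :=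
    fun i => by exact_mod_cast hm i
  set y : Fin n → ℝ := fun l => t * m l + k * q l with hy
  set x : ℤ × (Fin n → ℤ) := ((k : ℤ), fun l => ⌊y l⌋) with hx
  have he : ∀ l, |Int.fract (y l)| ≤ 1 := fun l => by
    rw [abs_of_nonneg (Int.fract_nonneg _)]
    exact (Int.fract_lt_one _).le
  have hal : ∀ i, t * (α i : ℝ) + k * β i
      = al u d x i + (t * b i + ∑ l, Int.fract (y l) * u i l) := by
    intro i
    have h1 : (al u d x i : ℝ) = k * d i + ∑ l, (⌊y l⌋ : ℝ) * u i l := by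
      rw [al, hx]
      push_cast
      rfl
    have h2 : ∑ l, (⌊y l⌋ : ℝ) * u i l + ∑ l, Int.fract (y l) * u i l
        = t * ∑ l, (m l : ℝ) * u i l + k * ∑ l, q l * u i l := by
      rw [← Finset.sum_add_distrib, Finset.mul_sum, Finset.mul_sum, ← Finset.sum_add_distrib]
      refine Finset.sum_congr rfl fun l _ => ?_
      rw [← add_mul, Int.floor_add_fract, hy]
      ring
    rw [h1, hm' i, hβ i]
    linarith
  have hU : ∀ i, |∑ l, Int.fract (y l) * (u i l : ℝ)| ≤ ∑ l, |(u i l : ℝ)| := by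
    intro i
    refine (Finset.abs_sum_le_sum_abs _ _).trans (Finset.sum_le_sum fun l _ => ?_)
    rw [abs_mul]
    exact mul_le_of_le_one_left (abs_nonneg _) (he l)
  have hbU : ∀ i, |t * (b i : ℝ) + ∑ l, Int.fract (y l) * (u i l : ℝ)|
      ≤ t * |(b i : ℝ)| + ∑ l, |(u i l : ℝ)| := by
    intro i
    refine (abs_add_le _ _).trans (add_le_add ?_ (hU i))
    rw [abs_mul, abs_of_pos ht0]
  refine ⟨x, fun l => Int.fract (y l), rfl, he, hal, ?_⟩
  rintro (i | g)
  · rw [tst_inl]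
    have h1 := (abs_le.1 ((hbU i).trans (hε1 i))).2
    have h2 : (0 : ℝ) ≤ t * α i + k * β i :=
      add_nonneg (mul_nonneg ht0.le (Nat.cast_nonneg _)) (mul_nonneg (Nat.cast_nonneg _) (hβ0 i))
    have h3 : -(ε : ℝ) ≤ al u d x i := by
      have := hal i
      linarith
    exact_mod_cast h3
  · rw [tst_inr]
    have hch := chern_tw (Q47.KN.chern_tensor hA hM k) hc 1 fun i => α i
    have hnG := nef_of_section hΓ hch (coeff_section hG α) ⟨v, hα⟩
    have h2 := (ht _ hch.1).1 (fun a _ => hnG a) g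
    have h2' := (ht _ (herm_real (herm_sub_smul hH hA.1 t) (fun i => (hc i).1) β)).1
      (fun a _ => hn a) g
    have e1 : ∀ (j : ℕ) (z : ℂ), ((j : ℂ) * z).im = j * z.im := fun j z => by
      have : ((j : ℕ) : ℂ) = ((j : ℝ) : ℂ) := by push_cast; rfl
      rw [this, Complex.im_ofReal_mul]
    have h4 : (((1 : ℕ) : ℂ) * ((k : ℂ) * HA (X g) (Y g) + HM (X g) (Y g)
        - ∑ i, (α i : ℂ) * Hc i (X g) (Y g))).im
        = k * (HA (X g) (Y g)).im + tM g - ∑ i, (α i : ℝ) * tc i g := by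
      rw [Nat.cast_one, one_mul, Complex.sub_im, Complex.add_im, Complex.im_sum, e1, htM]
      simp only [e1, htc]
    have h4' : ((H (X g) (Y g) - t * HA (X g) (Y g)) - ∑ i, (β i : ℂ) * Hc i (X g) (Y g)).im
        = tL g - t * (HA (X g) (Y g)).im - ∑ i, β i * tc i g := by
      rw [Complex.sub_im, Complex.sub_im, Complex.im_sum, htL, Complex.im_ofReal_mul]
      simp only [Complex.im_ofReal_mul, htc]
    have h5 : 0 ≤ k * (HA (X g) (Y g)).im + tM g - ∑ i, (α i : ℝ) * tc i g := by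
      rw [← h4]
      exact h2
    have h5' : 0 ≤ tL g - t * (HA (X g) (Y g)).im - ∑ i, β i * tc i g := by
      rw [← h4']
      exact h2'
    have h6 : 0 ≤ t * tM g + k * tL g - ∑ i, (t * α i + k * β i) * tc i g := by
      have h7 := mul_nonneg ht0.le h5
      have h8 := mul_nonneg (Nat.cast_nonneg (α := ℝ) k) h5'
      have h9 : ∑ i, (t * α i + k * β i) * (tc i g : ℝ)
          = t * ∑ i, (α i : ℝ) * tc i g + k * ∑ i, β i * tc i g := by
        rw [Finset.mul_sum, Finset.mul_sum, ← Finset.sum_add_distrib]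
        exact Finset.sum_congr rfl fun i _ => by ring
      rw [h9]
      linarith
    have h7 : ∑ i, (t * α i + k * β i) * (tc i g : ℝ)
        = ∑ i, (al u d x i : ℝ) * tc i g
          + ∑ i, (t * b i + ∑ l, Int.fract (y l) * u i l) * (tc i g : ℝ) := by
      rw [← Finset.sum_add_distrib]
      exact Finset.sum_congr rfl fun i _ => by rw [hal i, add_mul]
    have h8 : |∑ i, (t * b i + ∑ l, Int.fract (y l) * u i l) * (tc i g : ℝ)|
        ≤ ∑ i, (t * |(b i : ℝ)| + ∑ l, |(u i l : ℝ)|) * |(tc i g : ℝ)| := by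
      refine (Finset.abs_sum_le_sum_abs _ _).trans (Finset.sum_le_sum fun i _ => ?_)
      rw [abs_mul]
      exact mul_le_mul_of_nonneg_right (hbU i) (abs_nonneg _)
    have h9 := (abs_le.1 h8).1
    have h10 := mul_le_mul_of_nonneg_left (le_abs_self (tM g : ℝ)) ht0.le
    have h11 := hε2 g
    have h12 : -(ε : ℝ) ≤ k * tL g - ∑ i, (al u d x i : ℝ) * tc i g := by linarith
    change -(ε : ℤ) ≤ (k : ℤ) * tL g - _
    exact_mod_cast h12

/-- The bound of the forms near the cone. -/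
theorem form_bound [FiniteDimensional ℂ V] {u : ι → Fin n → ℤ} {d : ι → ℤ} {H : V → V → ℂ}
    {Hc : ι → V → V → ℂ} (hH : IsHermitian H) (hc : ∀ i, IsHermitian (Hc i))
    {B W : Finset (ℤ × (Fin n → ℤ))}
    (hB : ∀ b ∈ B, 0 ≤ b.1) (hB0 : ∀ b ∈ B, b.1 = 0 → b = 0)
    (hnB : ∀ b ∈ B, IsNefForm (form u d H Hc b))
    (hW : ∀ w ∈ W, 0 ≤ w.1) {r : ℕ} (π : V →ₗ[ℂ] (Fin r → ℂ)) (σ : (Fin r → ℂ) →ₗ[ℂ] V)
    (hσ' : ∀ y, π (σ y) = y)
    (hker : ∀ v, π v = 0 → ∀ w, form u d H Hc (∑ b ∈ B, b) v w = 0) :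
    ∃ P P' : ℝ, 0 < P ∧ 0 < P' ∧ ∀ (k : ℕ) (x w : ℤ × (Fin n → ℤ))
      (μ : ℤ × (Fin n → ℤ) → ℕ), x.1 = k → w ∈ W → x = ∑ b ∈ B, μ b • b + w →
      ∀ v, |(form u d H Hc x v v).re| ≤ k * (P * ‖σ (π v)‖ ^ 2) + P' * ‖v‖ ^ 2 := by
  have hf : ∀ x, IsHermitian (form u d H Hc x) := form_herm hH hc
  choose p hp hpb using fun x => herm_bound (hf x)
  refine ⟨∑ b ∈ B, p b + 1, ∑ w ∈ W, p w + 1, ?_, ?_, fun k x w μ hx3 hw hμ v => ?_⟩
  · have : 0 ≤ ∑ b ∈ B, p b := Finset.sum_nonneg fun b _ => (hp b).le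
    linarith
  · have : 0 ≤ ∑ w ∈ W, p w := Finset.sum_nonneg fun b _ => (hp b).le
    linarith
  have e1 : form u d H Hc x v v
      = ∑ b ∈ B, (μ b : ℂ) * form u d H Hc b v v + form u d H Hc w v v := by
    conv_lhs => rw [hμ]
    rw [form_add]
    congr 1
    exact form_comb u d H Hc B μ id v v
  rw [e1, Complex.add_re, Complex.re_sum]
  refine (abs_add_le _ _).trans (add_le_add ?_ ?_)
  · refine (Finset.abs_sum_le_sum_abs _ _).trans ?_
    have h2 : ∀ b ∈ B, |((μ b : ℂ) * form u d H Hc b v v).re|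
        ≤ k * (p b * ‖σ (π v)‖ ^ 2) := by
      intro b hb
      rw [re_nat_mul, abs_mul, Nat.abs_cast]
      by_cases hb0 : b = 0
      · rw [hb0, form_zero, Complex.zero_re, abs_zero, mul_zero]
        have := (hp 0).le
        positivity
      have h3 : (μ b : ℤ) ≤ k := by
        have h4 : x.1 = ∑ b ∈ B, (μ b : ℤ) * b.1 + w.1 := by
          conv_lhs => rw [hμ]
          rw [Prod.fst_add, fst_comb]
        have h5 : (μ b : ℤ) * b.1 ≤ ∑ b ∈ B, (μ b : ℤ) * b.1 :=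
          Finset.single_le_sum (f := fun b => (μ b : ℤ) * b.1)
            (fun b hb => mul_nonneg (Int.natCast_nonneg _) (hB b hb)) hb
        have h6 : 1 ≤ b.1 := by
          have := hB b hb
          have : b.1 ≠ 0 := fun h => hb0 (hB0 b hb h)
          omega
        have h7 := hW w hw
        rw [hx3] at h4
        nlinarith [Int.natCast_nonneg (μ b)]
      have h3' : (μ b : ℝ) ≤ k := by exact_mod_cast h3
      refine mul_le_mul h3' ?_ (abs_nonneg _) (Nat.cast_nonneg _)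
      have hz : π (v - σ (π v)) = 0 := by rw [map_sub, hσ', sub_self]
      have hkz := fun w => ker_of_sum hH hc hnB (hker _ hz) hb w
      have h8 : (form u d H Hc b v v).re = (form u d H Hc b (σ (π v)) (σ (π v))).re := by
        have h9 : v = (v - σ (π v)) + σ (π v) := by abel
        conv_lhs => rw [h9]
        rw [h_diag_add (hf b), hkz, hkz, Complex.zero_re, zero_add, mul_zero, add_zero]
      rw [h8]
      exact hpb b _
    refine (Finset.sum_le_sum h2).trans ?_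
    rw [← Finset.mul_sum, ← Finset.sum_mul]
    have h3 : 0 ≤ ‖σ (π v)‖ ^ 2 := sq_nonneg _
    refine mul_le_mul_of_nonneg_left ?_ (Nat.cast_nonneg _)
    nlinarith
  · refine (hpb w v).trans ?_
    have h2 : p w ≤ ∑ w ∈ W, p w :=
      Finset.single_le_sum (f := fun w => p w) (fun w _ => (hp w).le) hw
    have h3 : 0 ≤ ‖v‖ ^ 2 := sq_nonneg _
    nlinarith

variable [FiniteDimensional ℂ V]

/-- The number of the sections of a dominated line bundle. -/
theorem upper_dom (hΓ : IsTorusQuotient Γ) {u : ι → Fin n → ℤ}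
    {A M : LineBundle Γ} {c : ι → LineBundle Γ} {H HA HM : V → V → ℂ} {Hc : ι → V → V → ℂ}
    (hH : IsHermitian H) (hc : ∀ i, IsChernForm (c i) (Hc i)) (hA : IsChernForm A HA)
    (hM : IsChernForm M HM) {X Y : Refls Γ → V}
    {tL tM : Refls Γ → ℤ} {tc : ι → Refls Γ → ℤ} (htL : ∀ g, (H (X g) (Y g)).im = tL g)
    (htc : ∀ i g, (Hc i (X g) (Y g)).im = tc i g) (htM : ∀ g, (HM (X g) (Y g)).im = tM g)
    (ht : ∀ H' : V → V → ℂ, IsHermitian H' →
        ((∀ a ∈ roots Γ, 0 ≤ (H' a a).re) ↔ ∀ g, 0 ≤ (H' (X g) (Y g)).im))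
    {d a b : ι → ℤ} {t : ℝ} (ht0 : 0 < t) {β : ι → ℝ} {q : Fin n → ℝ}
    (hβ0 : ∀ i, 0 ≤ β i) (hβ : ∀ i, β i = ((d i : ℝ) - t * a i) + ∑ k, q k * u i k)
    (hn : IsNefForm fun v w => (H v w - t * HA v w) - ∑ i, (β i : ℂ) * Hc i v w)
    {B : Finset (ℤ × (Fin n → ℤ))} (hB : ∀ b ∈ B, 0 ≤ b.1)
    (hB0 : ∀ b ∈ B, b.1 = 0 → b = 0) (hne : ∃ b ∈ B, b ≠ 0)
    (hnB : ∀ b ∈ B, IsNefForm (form u d H Hc b))
    (hgen : ∀ ε : ℕ, ∃ W : Finset (ℤ × (Fin n → ℤ)), (∀ w ∈ W, 0 ≤ w.1) ∧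
        ∀ x : ℤ × (Fin n → ℤ), 0 ≤ x.1 → (∀ j, -(ε : ℤ) ≤ tst u d tL tc x j) →
          ∃ w ∈ W, ∃ μ : ℤ × (Fin n → ℤ) → ℕ, x = ∑ b ∈ B, μ b • b + w) :
    ∃ D : ℕ, ∀ k : ℕ, 1 ≤ k →
      FiniteDimensional ℂ (secY u c (fun i => k * a i + b i) (tensor (A.pow k) M).e) ∧
      Module.finrank ℂ (secY u c (fun i => k * a i + b i) (tensor (A.pow k) M).e)
        ≤ D * k ^ (sdim B + rank (form_herm (u := u) (d := d) hH (fun i => (hc i).1)
          (∑ b ∈ B, b))) := by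
  classical
  have := finite_Lin hΓ
  have hRf : Fintype (Refls Γ) := Fintype.ofFinite _
  let bu : ι → ℝ := fun i => t * |(b i : ℝ)| + ∑ l, |(u i l : ℝ)|
  have hbu0 : ∀ i, 0 ≤ bu i := fun i =>
    add_nonneg (mul_nonneg ht0.le (abs_nonneg _)) (Finset.sum_nonneg fun l _ => abs_nonneg _)
  let gu : Refls Γ → ℝ := fun g => t * |(tM g : ℝ)| + ∑ i, bu i * |(tc i g : ℝ)|
  have hgu0 : ∀ g, 0 ≤ gu g := fun g =>
    add_nonneg (mul_nonneg ht0.le (abs_nonneg _))
      (Finset.sum_nonneg fun l _ => mul_nonneg (hbu0 l) (abs_nonneg _))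
  obtain ⟨ε, hε⟩ := exists_nat_ge (∑ i, bu i + ∑ g, gu g)
  have hε1 : ∀ i, t * |(b i : ℝ)| + ∑ l, |(u i l : ℝ)| ≤ ε := by
    intro i
    have h1 : bu i ≤ ∑ i, bu i :=
      Finset.single_le_sum (f := bu) (fun i _ => hbu0 i) (Finset.mem_univ i)
    have h2 : 0 ≤ ∑ g, gu g := Finset.sum_nonneg fun g _ => hgu0 g
    change bu i ≤ ε
    linarith
  have hε2 : ∀ g, t * |(tM g : ℝ)| +
      ∑ i, (t * |(b i : ℝ)| + ∑ l, |(u i l : ℝ)|) * |(tc i g : ℝ)| ≤ ε := by
    intro g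
    have h1 : gu g ≤ ∑ g, gu g :=
      Finset.single_le_sum (f := gu) (fun i _ => hgu0 i) (Finset.mem_univ g)
    have h2 : 0 ≤ ∑ i, bu i := Finset.sum_nonneg fun g _ => hbu0 g
    change gu g ≤ ε
    linarith
  obtain ⟨W, hW, hWg⟩ := hgen ε
  obtain ⟨D₁, hD₁⟩ := near_count hB hB0 hne hW hWg
  set hst := form_herm (u := u) (d := d) hH (fun i => (hc i).1) (∑ b ∈ B, b) with hhst
  obtain ⟨π, hsurj, hker⟩ := Q47.KN.exists_proj hst
  obtain ⟨σ, hσ⟩ := LinearMap.exists_rightInverse_of_surjective π (LinearMap.range_eq_top.2 hsurj)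
  have hσ' : ∀ y, π (σ y) = y := fun y => LinearMap.congr_fun hσ y
  obtain ⟨P, P', hP, hP', hfb⟩ := form_bound hH (fun i => (hc i).1) hB hB0 hnB hW π σ hσ' hker
  obtain ⟨pM, hpM, hpMb⟩ := herm_bound hM.1
  choose pc hpc hpcb using fun i => herm_bound (hc i).1
  set Q : ℝ := (P' + t * pM + ∑ i, bu i * pc i) / t with hQ
  have hQ0 : 0 < Q := by
    have h1 : 0 ≤ ∑ i, bu i * pc i := Finset.sum_nonneg fun i _ => mul_nonneg (hbu0 i) (hpc i).le
    have h2 : 0 < t * pM := mul_pos ht0 hpM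
    positivity
  obtain ⟨D₂, hD₂⟩ := upper_unif hΓ π σ hσ' (p := P / t) (by positivity) hQ0
  -- the exponents
  obtain ⟨N, hN⟩ := exists_nat_ge (2 * ∑ i, bu i / t)
  let lo : ℕ → ℤ × (Fin n → ℤ) → ι → ℤ := fun k x i =>
    ⌈(al u d x i + t * b i - k * β i - ∑ l, |(u i l : ℝ)|) / t⌉
  let ex : ℕ → (ℤ × (Fin n → ℤ)) × (ι → Fin (N + 1)) → (ι →₀ ℕ) := fun k y =>
    Finsupp.equivFunOnFinite.symm fun i => (lo k y.1 i + (y.2 i : ℕ)).toNat
  refine ⟨D₁ * (N + 1) ^ Fintype.card ι * D₂, fun k hk => ?_⟩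
  have hkR : (0 : ℝ) < k := by exact_mod_cast hk
  obtain ⟨Xk, hXk, hXc⟩ := hD₁ k hk
  let Ek : Finset (ι →₀ ℕ) := ((Xk ×ˢ Finset.univ).image (ex k)).filter
    fun α => ∃ G, IsSection u c (fun i => k * a i + b i) (tensor (A.pow k) M).e G ∧
      ∃ v, coeff α (G v) ≠ 0
  have hcardE : Ek.card ≤ D₁ * k ^ sdim B * (N + 1) ^ Fintype.card ι := by
    refine (Finset.card_filter_le _ _).trans (Finset.card_image_le.trans ?_)
    rw [Finset.card_product, Finset.card_univ, Fintype.card_fun, Fintype.card_fin]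
    exact Nat.mul_le_mul hXc le_rfl
  have hUe : ∀ (e : Fin n → ℝ), (∀ l, |e l| ≤ 1) → ∀ i,
      |∑ l, e l * (u i l : ℝ)| ≤ ∑ l, |(u i l : ℝ)| := by
    intro e he i
    refine (Finset.abs_sum_le_sum_abs _ _).trans (Finset.sum_le_sum fun l _ => ?_)
    rw [abs_mul]
    exact mul_le_of_le_one_left (abs_nonneg _) (he l)
  have hres := finrank_secY_le (u := u) (c := c) (d := fun i => k * a i + b i)
    (M := tensor (A.pow k) M) Ek (fun G hG v α hα => ?_)
    (N := D₂ * k ^ rank hst) (fun α hα => ?_)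
  · refine ⟨hres.1, hres.2.trans ?_⟩
    calc _ ≤ (D₁ * k ^ sdim B * (N + 1) ^ Fintype.card ι) * (D₂ * k ^ rank hst) :=
          Nat.mul_le_mul hcardE le_rfl
      _ = D₁ * (N + 1) ^ Fintype.card ι * D₂ * k ^ (sdim B + rank hst) := by
          rw [pow_add]; ring
  · obtain ⟨x, e, hx1, he, hx2, hx3⟩ := near_real hΓ hH hc hA hM htL htc htM ht ht0 hβ0 hβ hn
      hε1 hε2 hG hα
    refine Finset.mem_filter.2 ⟨?_, G, hG, v, hα⟩
    have hlo : ∀ i, lo k x i ≤ α i ∧ (α i : ℤ) ≤ lo k x i + N := by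
      intro i
      have h1 := hx2 i
      have h2 := abs_le.1 (hUe e he i)
      have h3 : (al u d x i + t * b i - k * β i - ∑ l, |(u i l : ℝ)|) / t ≤ α i := by
        rw [div_le_iff₀ ht0]
        linarith [h2.1]
      refine ⟨Int.ceil_le.2 (by exact_mod_cast h3), ?_⟩
      have h4 := Int.le_ceil ((al u d x i + t * b i - k * β i - ∑ l, |(u i l : ℝ)|) / t)
      have h5 : (α i : ℝ) ≤ (al u d x i + t * b i - k * β i - ∑ l, |(u i l : ℝ)|) / t
          + 2 * (∑ l, |(u i l : ℝ)|) / t := by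
        rw [← add_div, le_div_iff₀ ht0]
        linarith [h2.2]
      have h6 : 2 * (∑ l, |(u i l : ℝ)|) / t ≤ N := by
        refine le_trans ?_ hN
        rw [mul_div_assoc]
        refine mul_le_mul_of_nonneg_left ?_ (by norm_num)
        refine le_trans ?_ (Finset.single_le_sum (f := fun i => bu i / t)
          (fun i _ => div_nonneg (hbu0 i) ht0.le) (Finset.mem_univ i))
        refine div_le_div_of_nonneg_right ?_ ht0.le
        exact le_add_of_nonneg_left (mul_nonneg ht0.le (abs_nonneg _))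
      have h7 : (α i : ℝ) ≤ lo k x i + N := by
        change (α i : ℝ) ≤ (⌈(al u d x i + t * b i - k * β i - ∑ l, |(u i l : ℝ)|) / t⌉ : ℤ) + N
        linarith
      exact_mod_cast h7
    refine Finset.mem_image.2 ⟨(x, fun i => ⟨((α i : ℤ) - lo k x i).toNat, ?_⟩),
      Finset.mem_product.2 ⟨(hXk x).2 ⟨hx1, hx3⟩, Finset.mem_univ _⟩, ?_⟩
    · have := hlo i
      omega
    · ext i
      have := hlo i
      simp only [ex, Finsupp.equivFunOnFinite_symm_apply_apply]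
      omega
  · obtain ⟨-, G, hG, v, h1⟩ := Finset.mem_filter.1 hα
    obtain ⟨x, e, hx1, he, hx2, hx3⟩ := near_real hΓ hH hc hA hM htL htc htM ht ht0 hβ0 hβ hn
      hε1 hε2 hG h1
    have hch := chern_tw (Q47.KN.chern_tensor hA hM k) hc 1 fun i => α i
    have hnG := nef_of_section hΓ hch (coeff_section hG α) ⟨v, h1⟩
    refine hD₂ k hk _ _ hch fun y => ?_
    obtain ⟨w, hw, μ, hμ⟩ := hWg x (by rw [hx1]; exact Int.natCast_nonneg _) hx3
    have hfy := hfb k x w μ hx1 hw hμ y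
    set g : ℝ := (((1 : ℕ) : ℂ) * ((k : ℂ) * HA y y + HM y y - ∑ i, (α i : ℂ) * Hc i y y)).re
      with hg
    have hg0 : 0 ≤ g := hnG y
    have e1 : g = k * (HA y y).re + (HM y y).re - ∑ i, (α i : ℝ) * (Hc i y y).re := by
      rw [hg, Nat.cast_one, one_mul, Complex.sub_re, Complex.add_re, Complex.re_sum, re_nat_mul]
      simp only [re_nat_mul]
    have e2 : (form u d H Hc x y y).re
        = k * (H y y).re - ∑ i, (al u d x i : ℝ) * (Hc i y y).re := by
      rw [form, Complex.sub_re, Complex.re_sum, re_int_mul, hx1]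
      simp only [re_int_mul]
      push_cast
      rfl
    have e3 : ((H y y - t * HA y y) - ∑ i, (β i : ℂ) * Hc i y y).re
        = (H y y).re - t * (HA y y).re - ∑ i, β i * (Hc i y y).re := by
      rw [Complex.sub_re, Complex.sub_re, Complex.re_sum, Complex.re_ofReal_mul]
      simp only [Complex.re_ofReal_mul]
    have h3 : 0 ≤ (H y y).re - t * (HA y y).re - ∑ i, β i * (Hc i y y).re := by
      rw [← e3]
      exact hn y
    have e4 : ∑ i, (t * α i + k * β i) * (Hc i y y).re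
        = ∑ i, (al u d x i : ℝ) * (Hc i y y).re
          + ∑ i, (t * b i + ∑ l, e l * u i l) * (Hc i y y).re := by
      rw [← Finset.sum_add_distrib]
      exact Finset.sum_congr rfl fun i _ => by rw [hx2 i, add_mul]
    have e5 : ∑ i, (t * α i + k * β i) * (Hc i y y).re
        = t * ∑ i, (α i : ℝ) * (Hc i y y).re + k * ∑ i, β i * (Hc i y y).re := by
      rw [Finset.mul_sum, Finset.mul_sum, ← Finset.sum_add_distrib]
      exact Finset.sum_congr rfl fun i _ => by ring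
    have h6 : t * g ≤ (form u d H Hc x y y).re + t * (HM y y).re
        - ∑ i, (t * b i + ∑ l, e l * u i l) * (Hc i y y).re := by
      rw [e1, e2]
      have h7 := mul_nonneg hkR.le h3
      linarith
    have h8 : |∑ i, (t * b i + ∑ l, e l * u i l) * (Hc i y y).re|
        ≤ (∑ i, bu i * pc i) * ‖y‖ ^ 2 := by
      rw [Finset.sum_mul]
      refine (Finset.abs_sum_le_sum_abs _ _).trans (Finset.sum_le_sum fun i _ => ?_)
      rw [abs_mul, mul_assoc]
      refine mul_le_mul ?_ (hpcb i y) (abs_nonneg _) (hbu0 i)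
      refine (abs_add_le _ _).trans (add_le_add ?_ (hUe e he i))
      rw [abs_mul, abs_of_pos ht0]
    have h9 := (abs_le.1 h8).1
    have h10 := mul_le_mul_of_nonneg_left (abs_le.1 (hpMb y)).2 ht0.le
    have h11 := (abs_le.1 hfy).2
    have h12 : t * g ≤ k * (P * ‖σ (π y)‖ ^ 2) + (P' + t * pM + ∑ i, bu i * pc i) * ‖y‖ ^ 2 := by
      linarith
    rw [abs_of_nonneg hg0]
    have h13 : g = t * g / t := by
      field_simp
    rw [h13]
    refine (div_le_div_of_nonneg_right h12 ht0.le).trans (le_of_eq ?_)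
    rw [hQ]
    ring

end Q47.TK
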