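import Pool.Agent.Q47.TK.Dom2

/-!
# The growth of the sections of line bundles dominated by a log pluricanonical bundle
-/

set_option autoImplicit false

namespace Q47.TK

open Pool.Agent.W594.SYZ2 Pool.Agent.W594.SYZ2.TQ Pool.Agent.TH735.AQ MvPolynomial Q47.EB Q47.KN
open Q47.TB Filter
open Q47.MM (nef_of_section Inv inv_of_chern roots exists_tests Refls nef_of_roots cone_decomp)

variable {V : Type*} [NormedAddCommGroup V] [NormedSpace ℂ V] {Γ : Subgroup (V ≃ᵃ[ℂ] V)}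
  {ι : Type*} [Fintype ι] {n : ℕ} [FiniteDimensional ℂ V]

/-- The points of the polytope given by the coefficients of sections of a dominated line
bundle. -/
theorem mem_pol_of_coeff (hΓ : IsTorusQuotient Γ)
    {u : ι → Fin n → ℤ} {c : ι → LineBundle Γ} {Hc : ι → V → V → ℂ}
    (hc : ∀ i, IsChernForm (c i) (Hc i)) {d a : ι → ℤ} {H : V → V → ℂ} {A : LineBundle Γ}
    {HA : V → V → ℂ} (hA : IsChernForm A HA) {t : ℝ} (ht : 0 < t) {β : ι → ℝ} {q : Fin n → ℝ}
    (hβ0 : ∀ i, 0 ≤ β i) (hβ : ∀ i, β i = ((d i : ℝ) - t * a i) + ∑ k, q k * u i k)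
    (hn : IsNefForm fun v w => (H v w - t * HA v w) - ∑ i, (β i : ℂ) * Hc i v w)
    {k : ℕ} (hk : 1 ≤ k) {G : V → MvPolynomial ι ℂ}
    (hG : IsSection u c (fun i => k * a i) (A.pow k).e G) {v : V} {α : ι →₀ ℕ}
    (hα : coeff α (G v) ≠ 0) :
    (fun i => t / k * α i + β i) ∈ pol u d H Hc ∧
      (IsNefForm fun x y => (k : ℂ) * HA x y - ∑ i, (α i : ℂ) * Hc i x y) ∧
      ∀ x, ((k : ℂ) * HA x x - ∑ i, (α i : ℂ) * Hc i x x).re ≤
        k / t * (H x x - ∑ i, ((t / k * α i + β i : ℝ) : ℂ) * Hc i x x).re := by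
  have hkR : (0 : ℝ) < k := by exact_mod_cast hk
  have hkC : (k : ℂ) ≠ 0 := by exact_mod_cast (by omega : k ≠ 0)
  have hnG : IsNefForm fun x y => (k : ℂ) * HA x y - ∑ i, (α i : ℂ) * Hc i x y := by
    have h1 := nef_of_section hΓ (chern_tw (chern_pow hA k) hc 1 fun i => α i)
      (coeff_section hG α) ⟨v, hα⟩
    intro w
    have h2 := h1 w
    simpa using h2
  have hform : ∀ x, H x x - ∑ i, ((t / k * α i + β i : ℝ) : ℂ) * Hc i x x
      = ((H x x - t * HA x x) - ∑ i, (β i : ℂ) * Hc i x x)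
        + ((t / k : ℝ) : ℂ) * ((k : ℂ) * HA x x - ∑ i, (α i : ℂ) * Hc i x x) := by
    intro x
    have h1 : ∑ i, ((t / k * α i + β i : ℝ) : ℂ) * Hc i x x
        = ((t / k : ℝ) : ℂ) * ∑ i, (α i : ℂ) * Hc i x x + ∑ i, (β i : ℂ) * Hc i x x := by
      rw [Finset.mul_sum, ← Finset.sum_add_distrib]
      refine Finset.sum_congr rfl fun i _ => ?_
      push_cast
      ring
    rw [h1]
    push_cast
    field_simp
    ring
  have hre : ∀ x, (H x x - ∑ i, ((t / k * α i + β i : ℝ) : ℂ) * Hc i x x).re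
      = ((H x x - t * HA x x) - ∑ i, (β i : ℂ) * Hc i x x).re
        + t / k * ((k : ℂ) * HA x x - ∑ i, (α i : ℂ) * Hc i x x).re := by
    intro x
    rw [hform, Complex.add_re, Complex.re_ofReal_mul]
  refine ⟨⟨fun i => ?_, ?_, fun x => ?_⟩, hnG, fun x => ?_⟩
  · have := hβ0 i
    positivity
  · obtain ⟨l, hl⟩ := hG.deg v α (mem_support_iff.2 hα)
    refine ⟨fun j => t / k * l j + q j, fun i => ?_⟩
    have h1 : (α i : ℝ) = k * a i + ∑ j, (l j : ℝ) * u i j := by exact_mod_cast hl i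
    change t / k * (α i : ℝ) + β i = _
    rw [h1, hβ i]
    simp only [add_mul, Finset.sum_add_distrib, mul_assoc, ← Finset.mul_sum]
    field_simp
    ring
  · change 0 ≤ (H x x - ∑ i, ((t / k * α i + β i : ℝ) : ℂ) * Hc i x x).re
    rw [hre]
    have h1 := hn x
    have h2 := hnG x
    have h3 : 0 ≤ t / k := by positivity
    exact add_nonneg h1 (mul_nonneg h3 h2)
  · rw [hre, mul_add]
    have h1 := mul_nonneg (by positivity : (0 : ℝ) ≤ k / t) (hn x)
    have h2 : k / t * (t / k * ((k : ℂ) * HA x x - ∑ i, (α i : ℂ) * Hc i x x).re)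
        = ((k : ℂ) * HA x x - ∑ i, (α i : ℂ) * Hc i x x).re := by
      field_simp
    rw [h2]
    linarith


/-- The growth of the number of the sections of a line bundle dominated by a log pluricanonical
bundle. -/
theorem growth_dom (hΓ : IsTorusQuotient Γ) {ρ : V → ℂ} (hρ : IsRamification Γ ρ)
    {u : ι → Fin n → ℤ} {S : Set (Set ι)} (hS : IsSmoothFan u S)
    {c : ι → LineBundle Γ} {Hc : ι → V → V → ℂ} (hc : ∀ i, IsChernForm (c i) (Hc i))
    {m : ℕ} {d : ι → ℤ} {F : V → MvPolynomial ι ℂ} {L : LineBundle Γ}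
    {H : V → V → ℂ} (hL : IsChernForm L H) (hF : TB.IsLogPluricanonical u c m ρ d F L)
    (T : Finset (ι →₀ ℕ)) (hT : ∀ α ∈ T, ∃ v, coeff α (F v) ≠ 0)
    (hw : ∀ a : ι → ℕ, {i | a i ≠ 0} ∈ S → ∃ α ∈ T, ∑ i, a i * α i ≤ m * ∑ i, a i)
    {a : ι → ℤ} {A : LineBundle Γ} {HA : V → V → ℂ} (hA : IsChernForm A HA) {t : ℝ} (ht0 : 0 < t)
    {β : ι → ℝ} {q : Fin n → ℝ} (hβ0 : ∀ i, 0 ≤ β i)
    (hβ : ∀ i, β i = (((d i - m : ℤ) : ℝ) - t * a i) + ∑ k, q k * u i k)
    (hn : IsNefForm fun v w => (H v w - t * HA v w) - ∑ i, (β i : ℂ) * Hc i v w) :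
    (pol u (fun i => d i - m) H Hc = ∅ →
      ∀ (M : LineBundle Γ) (HM : V → V → ℂ), IsChernForm M HM → ∀ b : ι → ℤ,
        ∃ k₀ : ℕ, ∀ k : ℕ, k₀ ≤ k →
          secY u c (fun i => k * a i + b i) (tensor (A.pow k) M).e = ⊥) ∧
    ∀ β₀ ∈ pol u (fun i => d i - m) H Hc,
      (∀ β ∈ pol u (fun i => d i - m) H Hc, KD.rk (fun v w => H v w - ∑ i, (β i : ℂ) * Hc i v w)
        ≤ KD.rk (fun v w => H v w - ∑ i, (β₀ i : ℂ) * Hc i v w)) →
      ∀ (M : LineBundle Γ) (HM : V → V → ℂ), IsChernForm M HM → ∀ b : ι → ℤ,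
        ∃ D : ℕ, ∀ k : ℕ, 1 ≤ k →
          FiniteDimensional ℂ (secY u c (fun i => k * a i + b i) (tensor (A.pow k) M).e) ∧
          Module.finrank ℂ (secY u c (fun i => k * a i + b i) (tensor (A.pow k) M).e)
            ≤ D * k ^ (Module.finrank ℝ (vectorSpan ℝ (pol u (fun i => d i - m) H Hc)) +
              KD.rk (fun v w => H v w - ∑ i, (β₀ i : ℂ) * Hc i v w)) := by
  classical
  have := finite_Lin hΓ
  have hRf : Fintype (Refls Γ) := Fintype.ofFinite _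
  obtain ⟨X, Y, tL, tc, htL, htc, htA, ht⟩ := exists_tst hΓ hL hc
  obtain ⟨B, hB, hBg, hBW⟩ := gens (tst u (fun i => d i - m) tL tc)
    (tst_inj hS (d := fun i => d i - m) tL tc)
  have hsemi := semi_of_pair hΓ hρ hS hc hL hF T hT hw htL htc ht
  have hB0 : ∀ b ∈ B, b.1 = 0 → b = 0 := fun b hb h =>
    eq_zero_of_nonneg hS h fun i => (hB b hb).2 (Sum.inl i)
  have hpol : ∀ β ∈ pol u (fun i => d i - m) H Hc, _ := fun β hβ =>
    of_mem_pol hΓ hL hc htL htc ht hBg hβ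
  by_cases hne : ∃ b ∈ B, b ≠ 0
  · have hBpos : ∀ b ∈ B, b ≠ 0 → 0 < b.1 := fun b hb h =>
      lt_of_le_of_ne (hB b hb).1 fun h' => h (hB0 b hb h'.symm)
    have hnB : ∀ b ∈ B, IsNefForm (form u (fun i => d i - m) H Hc b) := by
      intro b hb
      by_cases hb1 : b = 0
      · intro v
        rw [hb1, form_zero, Complex.zero_re]
      · exact (hsemi b (hBpos b hb hb1) (hB b hb).2).1
    set y₀ : ℤ × (Fin n → ℤ) := ∑ b ∈ B, b with hy₀
    have hy₀1 : 0 < y₀.1 := by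
      obtain ⟨b, hb, hb0⟩ := hne
      rw [hy₀, Prod.fst_sum]
      exact Finset.sum_pos' (fun b hb => (hB b hb).1) ⟨b, hb, hBpos b hb hb0⟩
    have hy₀t : ∀ j, 0 ≤ tst u (fun i => d i - m) tL tc y₀ j := by
      intro j
      rw [hy₀, map_sum, Finset.sum_apply]
      exact Finset.sum_nonneg fun b hb => (hB b hb).2 j
    have hst := form_herm (u := u) (d := fun i => d i - m) hL.1 (fun i => (hc i).1) y₀
    have hβ₀ := mem_pol_of_cone hy₀1 (fun i => hy₀t (Sum.inl i)) (hsemi y₀ hy₀1 hy₀t).1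
    have hrk₀ : KD.rk (fun v w => H v w - ∑ i, ((((y₀.1 : ℝ)⁻¹ • alR u (fun i => d i - m)
        (vec y₀)) i : ℝ) : ℂ) * Hc i v w) = rank hst := by
      have hh := herm_real hL.1 (fun i => (hc i).1)
        ((y₀.1 : ℝ)⁻¹ • alR u (fun i => d i - m) (vec y₀))
      rw [rk_eq hh]
      have hx' : ((y₀.1 : ℂ))⁻¹ ≠ 0 := inv_ne_zero (by exact_mod_cast hy₀1.ne')
      exact rank_eq_of_smul hst hh hx' fun v w => form_real H Hc hy₀1.ne' v w
    have hdim : Module.finrank ℝ (vectorSpan ℝ (pol u (fun i => d i - m) H Hc)) = sdim B :=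
      finrank_vectorSpan hS hB0 hne (fun β hβ => (hpol β hβ).1) fun b hb hb0 =>
        mem_pol_of_cone (hBpos b hb hb0) (fun i => (hB b hb).2 (Sum.inl i)) (hnB b hb)
    refine ⟨fun h => ?_, fun β₁ hβ₁ hmax M HM hM b => ?_⟩
    · rw [h] at hβ₀
      exact absurd hβ₀ (Set.notMem_empty _)
    · obtain ⟨tM, htM⟩ := htA M HM hM
      obtain ⟨D, hD⟩ := upper_dom (b := b) hΓ hL.1 hc hA hM htL htc htM ht ht0 hβ0 hβ hn
        (fun b hb => (hB b hb).1) hB0 hne hnB hBW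
      refine ⟨D, fun k hk => ⟨(hD k hk).1, (hD k hk).2.trans (Nat.mul_le_mul le_rfl ?_)⟩⟩
      refine Nat.pow_le_pow_right hk ?_
      rw [hdim]
      have h1 := hmax _ hβ₀
      rw [hrk₀] at h1
      exact Nat.add_le_add_left h1 _
  · push Not at hne
    refine ⟨fun _ M HM hM b => ?_, fun β₁ hβ₁ => ?_⟩
    · obtain ⟨tM, htM⟩ := htA M HM hM
      let bu : ι → ℝ := fun i => t * |(b i : ℝ)| + ∑ l, |(u i l : ℝ)|
      have hbu0 : ∀ i, 0 ≤ bu i := fun i =>
        add_nonneg (mul_nonneg ht0.le (abs_nonneg _)) (Finset.sum_nonneg fun l _ => abs_nonneg _)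
      let gu : Refls Γ → ℝ := fun g => t * |(tM g : ℝ)| + ∑ i, bu i * |(tc i g : ℝ)|
      have hgu0 : ∀ g, 0 ≤ gu g := fun g =>
        add_nonneg (mul_nonneg ht0.le (abs_nonneg _))
          (Finset.sum_nonneg fun l _ => mul_nonneg (hbu0 l) (abs_nonneg _))
      obtain ⟨ε, hε⟩ := exists_nat_ge (∑ i, bu i + ∑ g, gu g)
      have hε1 : ∀ i, t * |(b i : ℝ)| + ∑ l, |(u i l : ℝ)| ≤ ε := by
        intro i
        have h1 : bu i ≤ ∑ i, bu i :=
          Finset.single_le_sum (f := bu) (fun i _ => hbu0 i) (Finset.mem_univ i)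
        have h2 : 0 ≤ ∑ g, gu g := Finset.sum_nonneg fun g _ => hgu0 g
        change bu i ≤ ε
        linarith
      have hε2 : ∀ g, t * |(tM g : ℝ)| +
          ∑ i, (t * |(b i : ℝ)| + ∑ l, |(u i l : ℝ)|) * |(tc i g : ℝ)| ≤ ε := by
        intro g
        have h1 : gu g ≤ ∑ g, gu g :=
          Finset.single_le_sum (f := gu) (fun i _ => hgu0 i) (Finset.mem_univ g)
        have h2 : 0 ≤ ∑ i, bu i := Finset.sum_nonneg fun g _ => hbu0 g
        change gu g ≤ ε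
        linarith
      obtain ⟨W, hW, hWg⟩ := hBW ε
      obtain ⟨k₀, hk₀⟩ := near_empty (by push Not; exact hne) hWg
      refine ⟨k₀, fun k hk => ?_⟩
      rw [Submodule.eq_bot_iff]
      intro G hG
      by_contra h0
      obtain ⟨v, hv⟩ : ∃ v, G v ≠ 0 := by
        by_contra h
        push Not at h
        exact h0 (funext h)
      obtain ⟨α, hα⟩ := MvPolynomial.support_nonempty.2 hv
      obtain ⟨x, e, hx1, -, -, hx3⟩ := near_real hΓ hL.1 hc hA hM htL htc htM ht ht0 hβ0 hβ hn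
        hε1 hε2 hG (mem_support_iff.1 hα)
      exact hk₀ k hk x hx1 hx3
    · exfalso
      obtain ⟨⟨y, hy, hy1, -⟩, -⟩ := hpol β₁ hβ₁
      have h1 : spn B = ⊥ := by
        rw [spn, Submodule.span_eq_bot]
        rintro _ ⟨b, hb, rfl⟩
        rw [hne b hb, vec_zero]
      rw [h1, Submodule.mem_bot] at hy
      rw [hy] at hy1
      exact zero_ne_one hy1

end Q47.TK
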