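import Pool.Agent.Q47.TK.Dim

/-!
# Kodaira dimension and numerical dimension: the final form
-/

set_option autoImplicit false

namespace Q47.TK

open Pool.Agent.W594.SYZ2 Pool.Agent.W594.SYZ2.TQ Pool.Agent.TH735.AQ MvPolynomial Q47.EB Q47.KN
open Q47.TB Filter
open Q47.MM (nef_of_section Inv inv_of_chern roots exists_tests Refls nef_of_roots cone_decomp)

variable {V : Type*} [NormedAddCommGroup V] [NormedSpace ℂ V] {Γ : Subgroup (V ≃ᵃ[ℂ] V)}
  {ι : Type*} [Fintype ι] {n : ℕ}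

theorem herm_real {H : V → V → ℂ} {Hc : ι → V → V → ℂ}
    (hH : IsHermitian H) (hc : ∀ i, IsHermitian (Hc i)) (β : ι → ℝ) :
    IsHermitian fun v w => H v w - ∑ i, (β i : ℂ) * Hc i v w := by
  refine ⟨fun a v w => ?_, fun a v w => ?_, fun v w => ?_⟩
  · simp only [hH.add_left, (hc _).add_left, mul_add, Finset.sum_add_distrib]
    ring
  · simp only [hH.smul_left, (hc _).smul_left, mul_sub, Finset.mul_sum]
    congr 1
    exact Finset.sum_congr rfl fun i _ => by ring
  · simp only [map_sub, map_mul, map_sum, Complex.conj_ofReal, ← hH.symm, ← (hc _).symm]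

variable [FiniteDimensional ℂ V]

theorem rank_mono {H H' : V → V → ℂ} (hH : IsHermitian H) (hH' : IsHermitian H')
    (h : ∀ v, (∀ w, H v w = 0) → ∀ w, H' v w = 0) : rank hH' ≤ rank hH := by
  have h1 : ker hH ≤ ker hH' := fun v hv => h v hv
  have h2 := Submodule.finrank_mono h1
  have h3 := Submodule.finrank_quotient_add_finrank (ker hH)
  have h4 := Submodule.finrank_quotient_add_finrank (ker hH')
  rw [rank, rank]
  omega

omit [NormedAddCommGroup V] [NormedSpace ℂ V] [FiniteDimensional ℂ V] in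
/-- The form of the real class of a lattice point. -/
theorem form_real {u : ι → Fin n → ℤ} {d : ι → ℤ} (H : V → V → ℂ) (Hc : ι → V → V → ℂ)
    {x : ℤ × (Fin n → ℤ)} (hx : x.1 ≠ 0) (v w : V) :
    H v w - ∑ i, (((x.1 : ℝ)⁻¹ • alR u d (vec x)) i : ℂ) * Hc i v w
      = ((x.1 : ℂ))⁻¹ * form u d H Hc x v w := by
  have hx' : (x.1 : ℂ) ≠ 0 := by exact_mod_cast hx
  rw [form, mul_sub, ← mul_assoc, inv_mul_cancel₀ hx', one_mul, Finset.mul_sum]
  congr 1
  refine Finset.sum_congr rfl fun i _ => ?_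
  rw [Pi.smul_apply, alR_vec, smul_eq_mul]
  push_cast
  ring

theorem mem_pol_of_cone {u : ι → Fin n → ℤ} {d : ι → ℤ} {H : V → V → ℂ} {Hc : ι → V → V → ℂ}
    {x : ℤ × (Fin n → ℤ)} (hx : 0 < x.1) (hal : ∀ i, 0 ≤ al u d x i)
    (hn : IsNefForm (form u d H Hc x)) : (x.1 : ℝ)⁻¹ • alR u d (vec x) ∈ pol u d H Hc := by
  have hxR : (0 : ℝ) < x.1 := by exact_mod_cast hx
  refine ⟨fun i => ?_, ⟨fun l => (x.1 : ℝ)⁻¹ * x.2 l, fun i => ?_⟩, fun v => ?_⟩
  · rw [Pi.smul_apply, alR_vec, smul_eq_mul]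
    have : (0 : ℝ) ≤ al u d x i := by exact_mod_cast hal i
    positivity
  · rw [Pi.smul_apply, alR_vec, smul_eq_mul, al]
    push_cast
    rw [mul_add, ← mul_assoc, inv_mul_cancel₀ hxR.ne', one_mul, Finset.mul_sum]
    congr 1
    exact Finset.sum_congr rfl fun l _ => by ring
  · change 0 ≤ (H v v - ∑ i, (((x.1 : ℝ)⁻¹ • alR u d (vec x)) i : ℂ) * Hc i v v).re
    rw [form_real (u := u) (d := d) H Hc hx.ne' v v]
    have h1 : ((x.1 : ℂ)⁻¹ * form u d H Hc x v v).re
        = (x.1 : ℝ)⁻¹ * (form u d H Hc x v v).re := by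
      have : ((x.1 : ℂ))⁻¹ = (((x.1 : ℝ)⁻¹ : ℝ) : ℂ) := by push_cast; rfl
      rw [this, Complex.re_ofReal_mul]
    rw [h1]
    exact mul_nonneg (inv_nonneg.2 hxR.le) (hn v)

omit [FiniteDimensional ℂ V] in
/-- Real points of the polytope. -/
theorem of_mem_pol {u : ι → Fin n → ℤ} {L : LineBundle Γ}
    {c : ι → LineBundle Γ} {d : ι → ℤ} {H : V → V → ℂ} {Hc : ι → V → V → ℂ}
    (hΓ : IsTorusQuotient Γ) (hL : IsChernForm L H)
    (hc : ∀ i, IsChernForm (c i) (Hc i)) {X Y : Refls Γ → V}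
    {tL : Refls Γ → ℤ} {tc : ι → Refls Γ → ℤ} (htL : ∀ g, (H (X g) (Y g)).im = tL g)
    (htc : ∀ i g, (Hc i (X g) (Y g)).im = tc i g)
    (ht : ∀ H' : V → V → ℂ, IsHermitian H' →
        ((∀ a ∈ roots Γ, 0 ≤ (H' a a).re) ↔ ∀ g, 0 ≤ (H' (X g) (Y g)).im))
    {B : Finset (ℤ × (Fin n → ℤ))}
    (hBg : ∀ x : ℤ × (Fin n → ℤ), 0 ≤ x.1 → (∀ j, 0 ≤ tst u d tL tc x j) →
      ∃ μ : ℤ × (Fin n → ℤ) → ℕ, x = ∑ b ∈ B, μ b • b) {β : ι → ℝ} (hβ : β ∈ pol u d H Hc) :
    (∃ y ∈ spn B, y none = 1 ∧ alR u d y = β) ∧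
      ∀ v w, (∀ b ∈ B, form u d H Hc b v w = 0) →
        H v w - ∑ i, (β i : ℂ) * Hc i v w = 0 := by
  have := finite_Lin hΓ
  obtain ⟨hβ0, ⟨q, hq⟩, hn⟩ := hβ
  have hh := herm_real hL.1 (fun i => (hc i).1) β
  have him : ∀ g, 0 ≤ (tL g : ℝ) - ∑ i, (d i + ∑ k, q k * u i k) * tc i g := by
    intro g
    have h1 := (ht _ hh).1 (fun a _ => hn a) g
    have h2 : (H (X g) (Y g) - ∑ i, (β i : ℂ) * Hc i (X g) (Y g)).im
        = tL g - ∑ i, β i * tc i g := by
      rw [Complex.sub_im, Complex.im_sum, htL]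
      simp only [Complex.im_ofReal_mul, htc]
    rw [h2] at h1
    simp only [hq] at h1
    exact h1
  obtain ⟨κ, _, r, x, hr, hx1, hxt, hs1, hs2⟩ := real_decomp u d tL tc q
    (fun i => by rw [← hq]; exact hβ0 i) him
  choose μ hμ using fun k => hBg (x k) (hx1 k) (hxt k)
  let y : Option (Fin n) → ℝ := fun j => match j with
    | none => 1
    | some l => q l
  have hy : y = ∑ k, r k • vec (x k) := by
    funext j
    rw [Finset.sum_apply]
    rcases j with _ | l
    · exact hs1.symm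
    · exact (hs2 l).symm
  refine ⟨⟨y, ?_, rfl, ?_⟩, fun v w h => ?_⟩
  · rw [hy]
    refine Submodule.sum_mem _ fun k _ => Submodule.smul_mem _ _ ?_
    rw [hμ k]
    exact comb_mem (μ k)
  · funext i
    rw [alR_apply, hq i]
    change 1 * (d i : ℝ) + ∑ k, q k * u i k = _
    rw [one_mul]
  · have h1 : ∀ k, form u d H Hc (x k) v w = 0 := by
      intro k
      have h2 := form_comb u d H Hc B (μ k) id v w
      rw [hμ k]
      simp only [id] at h2
      rw [h2]
      exact Finset.sum_eq_zero fun b hb => by rw [h b hb, mul_zero]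
    have h2 : H v w - ∑ i, (β i : ℂ) * Hc i v w = ∑ k, (r k : ℂ) * form u d H Hc (x k) v w := by
      have hβi : ∀ i, β i = ∑ k, r k * (al u d (x k) i : ℝ) := by
        intro i
        have h3 : alR u d y i = β i := by
          rw [alR_apply, hq i]
          change 1 * (d i : ℝ) + ∑ k, q k * u i k = _
          rw [one_mul]
        rw [← h3, hy, map_sum, Finset.sum_apply]
        exact Finset.sum_congr rfl fun k _ => by
          rw [map_smul, Pi.smul_apply, alR_vec, smul_eq_mul]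
      have hs1' : (∑ k, (r k : ℂ) * ((x k).1 : ℂ)) = 1 := by exact_mod_cast hs1
      simp only [form, mul_sub, Finset.sum_sub_distrib, ← mul_assoc, ← Finset.sum_mul, hs1',
        one_mul, hβi, Finset.mul_sum]
      congr 1
      rw [Finset.sum_comm]
      refine Finset.sum_congr rfl fun i _ => ?_
      push_cast
      rw [Finset.sum_mul]
    rw [h2]
    exact Finset.sum_eq_zero fun k _ => by rw [h1 k, mul_zero]

/-- The growth of the number of sections: the dimension of the polytope plus the maximal rank. -/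
theorem growth_final (hΓ : IsTorusQuotient Γ) {ρ : V → ℂ} (hρ : IsRamification Γ ρ)
    {u : ι → Fin n → ℤ} {S : Set (Set ι)} (hS : IsSmoothFan u S)
    {c : ι → LineBundle Γ} {Hc : ι → V → V → ℂ} (hc : ∀ i, IsChernForm (c i) (Hc i))
    {m : ℕ} {d : ι → ℤ} {F : V → MvPolynomial ι ℂ} {L : LineBundle Γ}
    {H : V → V → ℂ} (hL : IsChernForm L H) (hF : TB.IsLogPluricanonical u c m ρ d F L)
    (T : Finset (ι →₀ ℕ)) (hT : ∀ α ∈ T, ∃ v, coeff α (F v) ≠ 0)
    (hw : ∀ a : ι → ℕ, {i | a i ≠ 0} ∈ S → ∃ α ∈ T, ∑ i, a i * α i ≤ m * ∑ i, a i) :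
    (pol u (fun i => d i - m) H Hc = ∅ ∧
      (∀ k : ℕ, 1 ≤ k → secY u c (fun i => k * (d i - m)) (L.pow k).e = ⊥) ∧
      ∀ (A : LineBundle Γ) (HA : V → V → ℂ), IsChernForm A HA → ∀ b : ι → ℤ,
        ∃ k₀ : ℕ, ∀ k : ℕ, k₀ ≤ k →
          secY u c (fun i => k * (d i - m) + b i) (tensor (L.pow k) A).e = ⊥) ∨
    ∃ β₀ ∈ pol u (fun i => d i - m) H Hc,
      (∀ β ∈ pol u (fun i => d i - m) H Hc, KD.rk (fun v w => H v w - ∑ i, (β i : ℂ) * Hc i v w)
        ≤ KD.rk (fun v w => H v w - ∑ i, (β₀ i : ℂ) * Hc i v w)) ∧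
      (∃ C : ℝ, 0 < C ∧ ∃ᶠ k : ℕ in atTop,
        C * (k : ℝ) ^ (Module.finrank ℝ (vectorSpan ℝ (pol u (fun i => d i - m) H Hc)) +
          KD.rk (fun v w => H v w - ∑ i, (β₀ i : ℂ) * Hc i v w))
            ≤ Module.finrank ℂ (secY u c (fun i => k * (d i - m)) (L.pow k).e)) ∧
      ∀ (A : LineBundle Γ) (HA : V → V → ℂ), IsChernForm A HA → ∀ b : ι → ℤ,
        ∃ D : ℕ, ∀ k : ℕ, 1 ≤ k →
          FiniteDimensional ℂ (secY u c (fun i => k * (d i - m) + b i) (tensor (L.pow k) A).e) ∧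
          Module.finrank ℂ (secY u c (fun i => k * (d i - m) + b i) (tensor (L.pow k) A).e)
            ≤ D * k ^ (Module.finrank ℝ (vectorSpan ℝ (pol u (fun i => d i - m) H Hc)) +
              KD.rk (fun v w => H v w - ∑ i, (β₀ i : ℂ) * Hc i v w)) := by
  classical
  have := finite_Lin hΓ
  have hRf : Fintype (Refls Γ) := Fintype.ofFinite _
  obtain ⟨X, Y, tL, tc, htL, htc, htA, ht⟩ := exists_tst hΓ hL hc
  obtain ⟨B, hB, hBg, hBW⟩ := gens (tst u (fun i => d i - m) tL tc)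
    (tst_inj hS (d := fun i => d i - m) tL tc)
  have hsemi := semi_of_pair hΓ hρ hS hc hL hF T hT hw htL htc ht
  have hB0 : ∀ b ∈ B, b.1 = 0 → b = 0 := fun b hb h =>
    eq_zero_of_nonneg hS h fun i => (hB b hb).2 (Sum.inl i)
  have hpol : ∀ β ∈ pol u (fun i => d i - m) H Hc, _ := fun β hβ =>
    of_mem_pol hΓ hL hc htL htc ht hBg hβ
  by_cases hne : ∃ b ∈ B, b ≠ 0
  · right
    have hBpos : ∀ b ∈ B, b ≠ 0 → 0 < b.1 := fun b hb h =>
      lt_of_le_of_ne (hB b hb).1 fun h' => h (hB0 b hb h'.symm)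
    have hnB : ∀ b ∈ B, IsNefForm (form u (fun i => d i - m) H Hc b) := by
      intro b hb
      by_cases hb1 : b = 0
      · intro v
        rw [hb1, form_zero, Complex.zero_re]
      · exact (hsemi b (hBpos b hb hb1) (hB b hb).2).1
    set y₀ : ℤ × (Fin n → ℤ) := ∑ b ∈ B, b with hy₀
    have hy₀1 : 0 < y₀.1 := by
      obtain ⟨b, hb, hb0⟩ := hne
      rw [hy₀, Prod.fst_sum]
      exact Finset.sum_pos' (fun b hb => (hB b hb).1) ⟨b, hb, hBpos b hb hb0⟩
    have hy₀t : ∀ j, 0 ≤ tst u (fun i => d i - m) tL tc y₀ j := by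
      intro j
      rw [hy₀, map_sum, Finset.sum_apply]
      exact Finset.sum_nonneg fun b hb => (hB b hb).2 j
    have hst := form_herm (u := u) (d := fun i => d i - m) hL.1 (fun i => (hc i).1) y₀
    have hβ₀ := mem_pol_of_cone hy₀1 (fun i => hy₀t (Sum.inl i)) (hsemi y₀ hy₀1 hy₀t).1
    have hrk₀ : KD.rk (fun v w => H v w - ∑ i, ((((y₀.1 : ℝ)⁻¹ • alR u (fun i => d i - m)
        (vec y₀)) i : ℝ) : ℂ) * Hc i v w) = rank hst := by
      have hh := herm_real hL.1 (fun i => (hc i).1)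
        ((y₀.1 : ℝ)⁻¹ • alR u (fun i => d i - m) (vec y₀))
      rw [rk_eq hh]
      have hx' : ((y₀.1 : ℂ))⁻¹ ≠ 0 := inv_ne_zero (by exact_mod_cast hy₀1.ne')
      exact rank_eq_of_smul hst hh hx' fun v w => form_real H Hc hy₀1.ne' v w
    have hdim : Module.finrank ℝ (vectorSpan ℝ (pol u (fun i => d i - m) H Hc)) = sdim B :=
      finrank_vectorSpan hS hB0 hne (fun β hβ => (hpol β hβ).1) fun b hb hb0 =>
        mem_pol_of_cone (hBpos b hb hb0) (fun i => (hB b hb).2 (Sum.inl i)) (hnB b hb)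
    refine ⟨_, hβ₀, fun β hβ => ?_, ?_, ?_⟩
    · rw [hrk₀, rk_eq (herm_real hL.1 (fun i => (hc i).1) β)]
      refine rank_mono _ _ fun v hv w => (hpol β hβ).2 v w fun b hb => ?_
      exact ker_of_sum hL.1 (fun i => (hc i).1) hnB hv hb w
    · rw [hrk₀, hdim]
      refine lower_freq hΓ hS hL hc (fun b hb => (hB b hb).1) (fun b hb => (hB b hb).2) hB0 hne
        hsemi fun k hk => ?_
      obtain ⟨D, hD⟩ := upperY (b := fun _ => 0) hΓ hL hc (chern_one (Γ := Γ)) htL htc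
        (htA _ _ chern_one) ht (fun b hb => (hB b hb).1) hB0 hne hnB hBW
      have h1 := (hD k hk).1
      rwa [secY_zero] at h1
    · intro A HA hA b
      rw [hrk₀, hdim]
      exact upperY hΓ hL hc hA htL htc (htA A HA hA) ht (fun b hb => (hB b hb).1) hB0 hne hnB hBW
  · left
    have hempty : pol u (fun i => d i - m) H Hc = ∅ := by
      rw [Set.eq_empty_iff_forall_notMem]
      intro β hβ
      obtain ⟨⟨y, hy, hy1, -⟩, -⟩ := hpol β hβ
      push Not at hne
      have h1 : spn B = ⊥ := by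
        rw [spn, Submodule.span_eq_bot]
        rintro _ ⟨b, hb, rfl⟩
        rw [hne b hb, vec_zero]
      rw [h1, Submodule.mem_bot] at hy
      rw [hy] at hy1
      exact zero_ne_one hy1
    have key : ∀ (A : LineBundle Γ) (HA : V → V → ℂ), IsChernForm A HA → ∀ b : ι → ℤ,
        ∃ k₀ : ℕ, ∀ k : ℕ, k₀ ≤ k →
          secY u c (fun i => k * (d i - m) + b i) (tensor (L.pow k) A).e = ⊥ := by
      intro A HA hA b
      obtain ⟨tA, htA'⟩ := htA A HA hA
      let ε : ℕ := ∑ i, (b i).natAbs + ∑ g, (tA g - ∑ i, b i * tc i g).natAbs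
      have hε1 : ∀ i, |b i| ≤ ε := by
        intro i
        have h1 : (b i).natAbs ≤ ∑ i, (b i).natAbs :=
          Finset.single_le_sum (f := fun i => (b i).natAbs) (fun _ _ => Nat.zero_le _)
            (Finset.mem_univ i)
        rw [Int.abs_eq_natAbs]
        exact_mod_cast h1.trans (Nat.le_add_right _ _)
      have hε2 : ∀ g, |tA g - ∑ i, b i * tc i g| ≤ ε := by
        intro g
        have h1 : (tA g - ∑ i, b i * tc i g).natAbs ≤ ∑ g, (tA g - ∑ i, b i * tc i g).natAbs :=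
          Finset.single_le_sum (f := fun g => (tA g - ∑ i, b i * tc i g).natAbs)
            (fun _ _ => Nat.zero_le _) (Finset.mem_univ g)
        rw [Int.abs_eq_natAbs]
        exact_mod_cast h1.trans (Nat.le_add_left _ _)
      obtain ⟨W, hW, hWg⟩ := hBW ε
      obtain ⟨k₀, hk₀⟩ := near_empty hne hWg
      refine ⟨k₀, fun k hk => ?_⟩
      rw [Submodule.eq_bot_iff]
      intro G hG
      by_contra h0
      obtain ⟨v, hv⟩ : ∃ v, G v ≠ 0 := by
        by_contra h
        push Not at h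
        exact h0 (funext h)
      obtain ⟨α, hα⟩ := MvPolynomial.support_nonempty.2 hv
      obtain ⟨x, hx1, -, hx3⟩ := mem_near hΓ hL hc hA htL htc htA' ht hε1 hε2 hG
        (mem_support_iff.1 hα)
      exact hk₀ k hk x hx1 hx3
    refine ⟨hempty, fun k hk => ?_, key⟩
    rw [Submodule.eq_bot_iff]
    intro G hG
    by_contra h0
    obtain ⟨v, hv⟩ : ∃ v, G v ≠ 0 := by
      by_contra h
      push Not at h
      exact h0 (funext h)
    obtain ⟨α, hα⟩ := MvPolynomial.support_nonempty.2 hv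
    obtain ⟨tA, htA'⟩ := htA (one Γ) _ chern_one
    have htA0 : ∀ g, tA g = 0 := fun g => by
      have := htA' g
      simp only [Complex.zero_im] at this
      exact_mod_cast this.symm
    have hG' : IsSection u c (fun i => k * (d i - m) + 0) (tensor (L.pow k) (one Γ)).e G := by
      have h1 : G ∈ secY u c (fun i => k * (d i - m) + 0) (tensor (L.pow k) (one Γ)).e := by
        rw [secY_zero u c (fun i => d i - m) L k]
        exact hG
      exact h1
    obtain ⟨x, hx1, -, hx3⟩ := mem_near (b := fun _ => 0) (ε := 0) (d := fun i => d i - m) hΓ hL hc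
      chern_one htL htc htA' ht (fun i => by simp) (fun g => by simp [htA0]) hG'
      (mem_support_iff.1 hα)
    push Not at hne
    obtain ⟨μ, hμ⟩ := hBg x (by rw [hx1]; exact Int.natCast_nonneg _) (by simpa using hx3)
    have h1 : x = 0 := by
      rw [hμ]
      exact Finset.sum_eq_zero fun b hb => by rw [hne b hb, smul_zero]
    rw [h1] at hx1
    have : (0 : ℤ) = k := hx1
    omega

end Q47.TK
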