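import Mathlib

/-!
# Finite generation of semigroups of lattice points and perturbations
-/

set_option autoImplicit false

namespace Q47.TK

open Finset

/-- Gordan's lemma. -/
theorem fin_gen {G J : Type*} [AddCommGroup G] [Finite J] (f : G →+ (J → ℤ))
    (hf : Function.Injective f) :
    ∃ B : Finset G, (∀ b ∈ B, ∀ j, 0 ≤ f b j) ∧
      ∀ x, (∀ j, 0 ≤ f x j) → ∃ μ : G → ℕ, x = ∑ b ∈ B, μ b • b := by
  classical
  have := Fintype.ofFinite J
  let P : AddSubmonoid (J → ℕ) :=
    { carrier := {y | ∃ x, ∀ j, (y j : ℤ) = f x j}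
      zero_mem' := ⟨0, fun j => by simp⟩
      add_mem' := fun {y z} ⟨x, hx⟩ ⟨x', hx'⟩ => ⟨x + x', fun j => by
        rw [Pi.add_apply, Nat.cast_add, hx, hx', map_add, Pi.add_apply]⟩ }
  have hP : P.FG := AddSubmonoid.fg_of_subtractive (P := P) (by
    rintro y ⟨x, hx⟩ z ⟨x', hx'⟩
    refine ⟨x' - x, fun j => ?_⟩
    have h1 := hx j
    have h2 := hx' j
    rw [Pi.add_apply, Nat.cast_add] at h2
    rw [map_sub, Pi.sub_apply, ← h1, ← h2]
    ring)
  obtain ⟨S, hS⟩ := hP
  have hmem : ∀ y ∈ S, ∃ x, ∀ j, (y j : ℤ) = f x j := by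
    intro y hy
    have h1 : y ∈ AddSubmonoid.closure (S : Set (J → ℕ)) := AddSubmonoid.subset_closure hy
    rw [hS] at h1
    exact h1
  choose! g hg using hmem
  have hginj : ∀ y ∈ S, ∀ z ∈ S, g y = g z → y = z := by
    intro y hy z hz h
    funext j
    have h1 := hg y hy j
    have h2 := hg z hz j
    rw [h] at h1
    exact_mod_cast h1.trans h2.symm
  refine ⟨S.image g, ?_, ?_⟩
  · intro b hb j
    obtain ⟨y, hy, rfl⟩ := Finset.mem_image.1 hb
    rw [← hg y hy j]
    exact Int.natCast_nonneg _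
  · intro x hx
    have h1 : (fun j => (f x j).toNat) ∈ P := ⟨x, fun j => Int.toNat_of_nonneg (hx j)⟩
    rw [← hS, AddSubmonoid.mem_closure_finset] at h1
    obtain ⟨μ, -, hμ⟩ := h1
    refine ⟨fun b => ∑ y ∈ S.filter fun y => g y = b, μ y, ?_⟩
    apply hf
    have h2 : ∑ b ∈ S.image g, (∑ y ∈ S.filter fun y => g y = b, μ y) • b
        = ∑ y ∈ S, μ y • g y := by
      rw [Finset.sum_image hginj]
      refine Finset.sum_congr rfl fun y hy => ?_
      congr 1
      refine Finset.sum_eq_single_of_mem y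
        (show y ∈ S.filter (fun z => g z = g y) from Finset.mem_filter.2 ⟨hy, rfl⟩) ?_
      intro z hz hzy
      exact absurd (hginj z (Finset.mem_filter.1 hz).1 y hy (Finset.mem_filter.1 hz).2) hzy
    rw [h2, map_sum]
    funext j
    rw [Finset.sum_apply]
    have h3 := congrFun hμ j
    simp only [Finset.sum_apply, Pi.smul_apply, smul_eq_mul] at h3
    have h4 : ((f x j).toNat : ℤ) = f x j := Int.toNat_of_nonneg (hx j)
    rw [← h4, ← h3]
    push_cast
    refine Finset.sum_congr rfl fun y hy => ?_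
    rw [map_nsmul, Pi.smul_apply, hg y hy j, nsmul_eq_mul]

/-- Lattice points near the cone. -/
theorem gens {M J : Type*} [AddCommGroup M] [Finite J] (f : ℤ × M →+ (J → ℤ))
    (hinj : ∀ x : ℤ × M, x.1 = 0 → f x = 0 → x = 0) :
    ∃ B : Finset (ℤ × M), (∀ b ∈ B, 0 ≤ b.1 ∧ ∀ j, 0 ≤ f b j) ∧
      (∀ x : ℤ × M, 0 ≤ x.1 → (∀ j, 0 ≤ f x j) → ∃ μ : ℤ × M → ℕ, x = ∑ b ∈ B, μ b • b) ∧
      ∀ ε : ℕ, ∃ W : Finset (ℤ × M), (∀ w ∈ W, 0 ≤ w.1) ∧
        ∀ x : ℤ × M, 0 ≤ x.1 → (∀ j, -(ε : ℤ) ≤ f x j) →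
          ∃ w ∈ W, ∃ μ : ℤ × M → ℕ, x = ∑ b ∈ B, μ b • b + w := by
  classical
  let F : ℤ × (ℤ × M) →+ (Option (Option J) → ℤ) :=
    { toFun := fun x j => match j with
        | none => x.1
        | some none => x.2.1
        | some (some j) => f x.2 j + x.1
      map_zero' := by
        funext j
        rcases j with _ | _ | j <;> simp
      map_add' := fun x y => by
        funext j
        rcases j with _ | _ | j
        · simp
        · simp
        · simp only [Prod.snd_add, Prod.fst_add, map_add, Pi.add_apply]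
          ring }
  have hF : Function.Injective F := by
    rw [injective_iff_map_eq_zero]
    intro x hx
    have h1 : x.1 = 0 := congrFun hx none
    have h2 : x.2.1 = 0 := congrFun hx (some none)
    have h3 : f x.2 = 0 := by
      funext j
      have h3 : f x.2 j + x.1 = 0 := congrFun hx (some (some j))
      rw [h1, add_zero] at h3
      exact h3
    exact Prod.ext h1 (hinj _ h2 h3)
  obtain ⟨B, hB, hgen⟩ := fin_gen F hF
  have hB1 : ∀ b ∈ B, 0 ≤ b.1 := fun b hb => hB b hb none
  have hB2 : ∀ b ∈ B, 0 ≤ b.2.1 := fun b hb => hB b hb (some none)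
  have hB3 : ∀ b ∈ B, ∀ j, 0 ≤ f b.2 j + b.1 := fun b hb j => hB b hb (some (some j))
  refine ⟨(B.filter fun b => b.1 = 0).image Prod.snd, fun b hb => ?_, fun x hx0 hx => ?_,
    fun ε => ?_⟩
  · obtain ⟨b', hb', rfl⟩ := Finset.mem_image.1 hb
    obtain ⟨hb1, hb2⟩ := Finset.mem_filter.1 hb'
    refine ⟨hB2 _ hb1, fun j => ?_⟩
    have := hB3 _ hb1 j
    rwa [hb2, add_zero] at this
  · obtain ⟨μ, hμ⟩ := hgen (0, x) (by
      rintro (_ | _ | j)
      · exact le_rfl
      · exact hx0
      · have := hx j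
        change 0 ≤ f x j + 0
        linarith)
    have hμ1 : (0 : ℤ) = ∑ b ∈ B, (μ b : ℤ) * b.1 := by
      have := congrArg Prod.fst hμ
      rw [Prod.fst_sum] at this
      simp only [Prod.smul_fst, nsmul_eq_mul] at this
      exact this
    have hμ2 : x = ∑ b ∈ B, μ b • b.2 := by
      have := congrArg Prod.snd hμ
      rw [Prod.snd_sum] at this
      simp only [Prod.smul_snd] at this
      exact this
    have hz : ∀ b ∈ B, b.1 ≠ 0 → μ b = 0 := by
      intro b hb hb0
      have h1 := (Finset.sum_eq_zero_iff_of_nonneg fun b hb =>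
        mul_nonneg (Int.natCast_nonneg (μ b)) (hB1 b hb)).1 hμ1.symm b hb
      have h2 := (mul_eq_zero.1 h1).resolve_right hb0
      exact_mod_cast h2
    refine ⟨fun b => μ (0, b), ?_⟩
    rw [Finset.sum_image (fun b hb c hc h => by
      obtain ⟨-, hb2⟩ := Finset.mem_filter.1 hb
      obtain ⟨-, hc2⟩ := Finset.mem_filter.1 hc
      exact Prod.ext (hb2.trans hc2.symm) h)]
    have h1 : ∑ b ∈ B with b.1 = 0, μ (0, b.2) • b.2 = ∑ b ∈ B with b.1 = 0, μ b • b.2 := by
      refine Finset.sum_congr rfl fun b hb => ?_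
      obtain ⟨-, hb2⟩ := Finset.mem_filter.1 hb
      have : ((0 : ℤ), b.2) = b := Prod.ext hb2.symm rfl
      rw [this]
    rw [h1, Finset.sum_filter]
    conv_lhs => rw [hμ2]
    refine Finset.sum_congr rfl fun b hb => ?_
    split_ifs with h
    · rfl
    · rw [hz b hb h, zero_smul]
  · refine ⟨Finset.univ.image fun μ : {b // b ∈ B} → Fin (ε + 1) =>
      ∑ b, (μ b : ℕ) • b.1.2, fun w hw => ?_, fun x hx0 hx => ?_⟩
    · obtain ⟨μ, -, rfl⟩ := Finset.mem_image.1 hw
      rw [Prod.fst_sum]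
      refine Finset.sum_nonneg fun b _ => ?_
      rw [Prod.smul_fst]
      exact nsmul_nonneg (hB2 _ b.2) _
    · obtain ⟨μ, hμ⟩ := hgen ((ε : ℤ), x) (by
        rintro (_ | _ | j)
        · exact Int.natCast_nonneg ε
        · exact hx0
        · have := hx j
          change 0 ≤ f x j + (ε : ℤ)
          linarith)
      have hμ1 : (ε : ℤ) = ∑ b ∈ B, (μ b : ℤ) * b.1 := by
        have := congrArg Prod.fst hμ
        rw [Prod.fst_sum] at this
        simp only [Prod.smul_fst, nsmul_eq_mul] at this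
        exact this
      have hμ2 : x = ∑ b ∈ B, μ b • b.2 := by
        have := congrArg Prod.snd hμ
        rw [Prod.snd_sum] at this
        simp only [Prod.smul_snd] at this
        exact this
      have hle : ∀ b ∈ B, b.1 ≠ 0 → μ b < ε + 1 := by
        intro b hb hb0
        have h1 : (μ b : ℤ) * b.1 ≤ ε := by
          rw [hμ1]
          exact Finset.single_le_sum (f := fun b => (μ b : ℤ) * b.1)
            (fun b hb => mul_nonneg (Int.natCast_nonneg _) (hB1 b hb)) hb
        have h2 : 1 ≤ b.1 := by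
          have := hB1 b hb
          omega
        have h3 : (μ b : ℤ) ≤ ε := by nlinarith [Int.natCast_nonneg (μ b)]
        omega
      refine ⟨∑ b : {b // b ∈ B}, (if b.1.1 = 0 then 0 else μ b.1) • b.1.2,
        Finset.mem_image.2 ⟨fun b => if h : b.1.1 = 0 then 0 else ⟨μ b.1, hle _ b.2 h⟩,
          Finset.mem_univ _, ?_⟩, fun b => μ (0, b), ?_⟩
      · refine Finset.sum_congr rfl fun b _ => ?_
        by_cases h : b.1.1 = 0
        · simp [h]
        · simp [h]
      · rw [Finset.sum_image (fun b hb c hc h => by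
          obtain ⟨-, hb2⟩ := Finset.mem_filter.1 hb
          obtain ⟨-, hc2⟩ := Finset.mem_filter.1 hc
          exact Prod.ext (hb2.trans hc2.symm) h)]
        have h1 : ∑ b ∈ B with b.1 = 0, μ (0, b.2) • b.2 = ∑ b ∈ B with b.1 = 0, μ b • b.2 := by
          refine Finset.sum_congr rfl fun b hb => ?_
          obtain ⟨-, hb2⟩ := Finset.mem_filter.1 hb
          have : ((0 : ℤ), b.2) = b := Prod.ext hb2.symm rfl
          rw [this]
        have h2 : ∑ b : {b // b ∈ B}, (if b.1.1 = 0 then 0 else μ b.1) • b.1.2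
            = ∑ b ∈ B with ¬ b.1 = 0, μ b • b.2 := by
          rw [Finset.sum_filter, ← Finset.sum_coe_sort B fun b =>
            if ¬ b.1 = 0 then μ b • b.2 else 0]
          refine Finset.sum_congr rfl fun b _ => ?_
          by_cases h : b.1.1 = 0
          · simp [h]
          · simp [h]
        rw [h1, h2, Finset.sum_filter_add_sum_filter_not]
        exact hμ2

end Q47.TK
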