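import Pool.Agent.Q47.TK.Dom2

/-!
# Comparison of orders of growth
-/

set_option autoImplicit false

namespace Q47.TK

open Filter Q47.KN

theorem grow_le_growth (f : ℕ → ℕ) : grow f ≤ growth f := by
  refine iSup₂_le fun k hk => ?_
  obtain ⟨c, hc0, hc⟩ := exists_between (show
    0 < limsup (fun m : ℕ => (f m : ENNReal) / (m : ENNReal) ^ k) atTop from hk)
  have hct : c ≠ ⊤ := ne_top_of_lt hc
  have h1 := frequently_lt_of_lt_limsup (f := atTop) (by isBoundedDefault) hc
  refine le_growth (c := c.toReal) (ENNReal.toReal_pos hc0.ne' hct) ?_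
  refine (h1.and_eventually (eventually_ge_atTop 1)).mono fun m hm => ?_
  have hm0 : (m : ENNReal) ≠ 0 := by exact_mod_cast (by omega : m ≠ 0)
  have hmt : (m : ENNReal) ≠ ⊤ := ENNReal.natCast_ne_top m
  have h2 : c * (m : ENNReal) ^ k ≤ f m :=
    (ENNReal.le_div_iff_mul_le (Or.inl (pow_ne_zero _ hm0))
      (Or.inl (ENNReal.pow_ne_top hmt))).1 hm.1.le
  have h3 := ENNReal.toReal_mono (ENNReal.natCast_ne_top _) h2
  rwa [ENNReal.toReal_mul, ENNReal.toReal_pow, ENNReal.toReal_natCast, ENNReal.toReal_natCast]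
    at h3

end Q47.TK
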