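import Pool.Agent.Q47.TK.Lower

/-!
# The growth of the number of sections on a toric bundle
-/

set_option autoImplicit false

namespace Q47.TK

open Pool.Agent.W594.SYZ2 Pool.Agent.W594.SYZ2.TQ Pool.Agent.TH735.AQ MvPolynomial Q47.EB Q47.KN
open Q47.TB Filter
open Q47.MM (nef_of_section Inv inv_of_chern roots exists_tests Refls nef_of_roots)

variable {V : Type*} [NormedAddCommGroup V] [NormedSpace ℂ V] {Γ : Subgroup (V ≃ᵃ[ℂ] V)}
  {ι : Type*} [Fintype ι] {n : ℕ}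

theorem rank_eq_of_smul {H H' : V → V → ℂ} (hH : IsHermitian H) (hH' : IsHermitian H') {t : ℂ}
    (ht : t ≠ 0) (h : ∀ v w, H' v w = t * H v w) : rank hH' = rank hH := by
  have h1 : ker hH' = ker hH := by
    ext v
    refine forall_congr' fun w => ?_
    rw [h, mul_eq_zero, or_iff_right ht]
  rw [rank, rank, h1]

omit [Fintype ι] in
theorem toNat_al_smul {u : ι → Fin n → ℤ} {d : ι → ℤ} {x : ℤ × (Fin n → ℤ)} {q : ℕ} {i : ι}
    (h : 0 ≤ al u d x i) : ((q * (al u d x i).toNat : ℕ) : ℤ) = al u d (q • x) i := by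
  have h1 : al u d (q • x) i = q * al u d x i := by
    rw [← alHom_apply, map_nsmul, alHom_apply, nsmul_eq_mul]
  rw [h1, Nat.cast_mul, Int.toNat_of_nonneg h]

/-- The lower bound. -/
theorem lower_freq [FiniteDimensional ℂ V] (hΓ : IsTorusQuotient Γ) {u : ι → Fin n → ℤ}
    {S : Set (Set ι)} (hS : IsSmoothFan u S) {L : LineBundle Γ}
    {c : ι → LineBundle Γ} {H : V → V → ℂ} {Hc : ι → V → V → ℂ} (hL : IsChernForm L H)
    (hc : ∀ i, IsChernForm (c i) (Hc i)) {R : Type*} {tL : R → ℤ} {tc : ι → R → ℤ}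
    {d : ι → ℤ} {B : Finset (ℤ × (Fin n → ℤ))} (hB : ∀ b ∈ B, 0 ≤ b.1)
    (hBt : ∀ b ∈ B, ∀ j, 0 ≤ tst u d tL tc b j)
    (hB0 : ∀ b ∈ B, b.1 = 0 → b = 0) (hne : ∃ b ∈ B, b ≠ 0)
    (hsemi : ∀ x : ℤ × (Fin n → ℤ), 0 < x.1 → (∀ j, 0 ≤ tst u d tL tc x j) →
      IsNefForm (form u d H Hc x) ∧ ∃ E : ℕ, 1 ≤ E ∧
        GG ((lb L c x.1.toNat fun i => (al u d x i).toNat).pow E))
    (hfin : ∀ k : ℕ, 1 ≤ k → FiniteDimensional ℂ (secY u c (fun i => k * d i) (L.pow k).e)) :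
    ∃ C : ℝ, 0 < C ∧ ∃ᶠ m : ℕ in atTop,
      C * (m : ℝ) ^ (sdim B + rank (form_herm (u := u) (d := d) hL.1 (fun i => (hc i).1)
          (∑ b ∈ B, b))) ≤ Module.finrank ℂ (secY u c (fun i => m * d i) (L.pow m).e) := by
  classical
  set y₀ : ℤ × (Fin n → ℤ) := ∑ b ∈ B, b with hy₀
  set hst := form_herm (u := u) (d := d) hL.1 (fun i => (hc i).1) y₀ with hhst
  have hBpos : ∀ b ∈ B, b ≠ 0 → 0 < b.1 := fun b hb h =>
    lt_of_le_of_ne (hB b hb) fun h' => h (hB0 b hb h'.symm)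
  have hy₀1 : 0 < y₀.1 := by
    obtain ⟨b, hb, hb0⟩ := hne
    rw [hy₀, Prod.fst_sum]
    exact Finset.sum_pos' (fun b hb => hB b hb) ⟨b, hb, hBpos b hb hb0⟩
  have hy₀t : ∀ j, 0 ≤ tst u d tL tc y₀ j := by
    intro j
    rw [hy₀, map_sum, Finset.sum_apply]
    exact Finset.sum_nonneg fun b hb => hBt b hb j
  obtain ⟨a, ha, hli⟩ := exists_basis hne
  have ha0 : ∀ l, 0 < (a l).1 := fun l => hBpos _ (ha l) fun h => by
    have := hli.ne_zero l
    rw [h] at this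
    exact this vec_zero
  obtain ⟨hn₀, E₀, hE₀, hg₀⟩ := hsemi y₀ hy₀1 hy₀t
  choose hnl El hEl hgl using fun l => hsemi (a l) (ha0 l) (hBt _ (ha l))
  -- the numbers
  set Ks := y₀.1.toNat with hKs
  have hKs1 : (Ks : ℤ) = y₀.1 := Int.toNat_of_nonneg hy₀1.le
  have hKl1 : ∀ l, (((a l).1.toNat : ℕ) : ℤ) = (a l).1 := fun l => Int.toNat_of_nonneg (ha0 l).le
  set Pr := ∏ l, (a l).1.toNat with hPr
  let cl : Fin (sdim B + 1) → ℕ := fun l => Ks * ∏ l' ∈ Finset.univ.erase l, (a l').1.toNat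
  have hcl : ∀ l, cl l * (a l).1.toNat = Ks * Pr := by
    intro l
    simp only [cl]
    rw [mul_assoc, Finset.prod_erase_mul _ _ (Finset.mem_univ l)]
  have hKs0 : 1 ≤ Ks := by omega
  have hKl0 : ∀ l, 1 ≤ (a l).1.toNat := fun l => by
    have := ha0 l
    omega
  have hPr0 : 1 ≤ Pr := by
    have h1 : 0 < ∏ l, (a l).1.toNat := Finset.prod_pos fun l _ => hKl0 l
    exact h1
  have hcl0 : ∀ l, 1 ≤ cl l := fun l => Nat.mul_pos hKs0 (Finset.prod_pos fun l _ => hKl0 l)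
  set E := E₀ * ∏ l, El l with hE
  have hE1 : 1 ≤ E := Nat.mul_pos hE₀ (Finset.prod_pos fun l _ => hEl l)
  set N := E * (Ks * Pr) with hN
  have hN1 : 1 ≤ N := Nat.mul_pos hE1 (Nat.mul_pos hKs0 hPr0)
  have hal : ∀ {x : ℤ × (Fin n → ℤ)}, (∀ j, 0 ≤ tst u d tL tc x j) → ∀ i, 0 ≤ al u d x i :=
    fun hx i => hx (Sum.inl i)
  let α : ι → ℕ := fun i => (E * Pr) * (al u d y₀ i).toNat
  let β : Fin (sdim B + 1) → ι → ℕ := fun l i => (E * cl l) * (al u d (a l) i).toNat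
  have hgα : GG (lb L c N α) := by
    have h1 := hg₀.mul (Dvd.intro (Pr * ∏ l, El l) rfl : E₀ ∣ E₀ * (Pr * ∏ l, El l))
    rw [lb_pow] at h1
    have e1 : E₀ * (Pr * ∏ l, El l) = E * Pr := by rw [hE]; ring
    have e2 : E * Pr * Ks = N := by rw [hN]; ring
    rw [e1, e2] at h1
    exact h1
  have hgβ : ∀ l, GG (lb L c N (β l)) := by
    intro l
    have hd : El l ∣ E * cl l :=
      ((Finset.dvd_prod_of_mem El (Finset.mem_univ l)).mul_left E₀).mul_right (cl l)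
    have h1 := (hgl l).mul hd
    rw [lb_pow] at h1
    have e2 : E * cl l * (a l).1.toNat = N := by rw [hN, ← hcl l]; ring
    rw [e2] at h1
    exact h1
  have hsec : ∀ l, ∃ σ, (lb L c N (β l)).IsSection σ ∧ ∃ v, σ v ≠ 0 := by
    intro l
    obtain ⟨σ, h1, h2⟩ := hgβ l 0
    exact ⟨σ, h1, 0, h2⟩
  have hαx : ∀ i, (α i : ℤ) = al u d ((E * Pr) • y₀) i := fun i => toNat_al_smul (hal hy₀t i)
  have hx1 : ((E * Pr) • y₀).1 = N := by
    rw [Prod.smul_fst, nsmul_eq_mul, ← hKs1, hN]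
    push_cast
    ring
  -- the rank
  have hch := chern_lb hL hc N α
  have hform : ∀ v w, (N : ℂ) * H v w - ∑ i, (α i : ℂ) * Hc i v w
      = ((E * Pr : ℕ) : ℂ) * form u d H Hc y₀ v w := by
    intro v w
    have h1 := form_comb u d H Hc {y₀} (fun _ => E * Pr) id v w
    rw [Finset.sum_singleton, Finset.sum_singleton] at h1
    simp only [id] at h1
    rw [← h1, form, hx1]
    congr 1
    refine Finset.sum_congr rfl fun i _ => ?_
    rw [← hαx]
    push_cast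
    rfl
  have hEPr : ((E * Pr : ℕ) : ℂ) ≠ 0 := by
    have : E * Pr ≠ 0 := (Nat.mul_pos hE1 hPr0).ne'
    exact_mod_cast this
  have hrk : rank hch.1 = rank hst := rank_eq_of_smul hst hch.1 hEPr hform
  have hnα : IsNefForm fun v w => (N : ℂ) * H v w - ∑ i, (α i : ℂ) * Hc i v w := by
    intro v
    change 0 ≤ ((N : ℂ) * H v v - ∑ i, (α i : ℂ) * Hc i v v).re
    rw [hform, re_nat_mul]
    exact mul_nonneg (Nat.cast_nonneg _) (hn₀ v)
  have hkey : ∀ T : ℕ, 1 ≤ T → (T / sdim B + 1) ^ sdim B * (T / rank hst + 1) ^ rank hst ≤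
      Module.finrank ℂ (secY u c (fun i => (2 * T * N : ℕ) * d i) (L.pow (2 * T * N)).e) := by
    intro T hT
    have := finite_sec hΓ (chern_pow hch T)
    have := hfin (2 * T * N) (Nat.mul_pos (Nat.mul_pos two_pos hT) hN1)
    refine le_trans (Nat.mul_le_mul le_rfl ?_) (lowerY hS (L := L) (c := c) (d := d) (N := N) (s := sdim B)
      α β ((E * Pr) • y₀) (fun l => (E * cl l) • a l) hx1 hαx (fun l => ?_)
      (fun l i => toNat_al_smul (hal (hBt _ (ha l)) i)) ?_ hsec T)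
    · have h1 := lower hΓ hch hnα (N := 1) le_rfl (by
        have : (lb L c N α).pow 1 = lb L c N α := lb_ext fun γ v => pow_one _
        rw [this]
        exact hgα) T
      rw [one_mul, hrk] at h1
      exact h1
    · rw [Prod.smul_fst, nsmul_eq_mul, ← hKl1 l, hN, ← hcl l]
      push_cast
      ring
    · rw [Fintype.linearIndependent_iff]
      intro g hg l
      simp only [vec_nsmul, smul_smul] at hg
      have h1 := Fintype.linearIndependent_iff.1 hli _ hg l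
      have h2 : ((E * cl l : ℕ) : ℝ) ≠ 0 := by
        have : E * cl l ≠ 0 := (Nat.mul_pos hE1 (hcl0 l)).ne'
        exact_mod_cast this
      exact (mul_eq_zero.1 h1).resolve_right h2
  obtain ⟨C₁, hC₁, h1⟩ := div_pow_ge (sdim B) (2 * N) 1 (Nat.mul_pos two_pos hN1) le_rfl
  obtain ⟨C₂, hC₂, h2⟩ := div_pow_ge (rank hst) (2 * N) 1 (Nat.mul_pos two_pos hN1) le_rfl
  refine ⟨C₁ * C₂, mul_pos hC₁ hC₂, ?_⟩
  rw [frequently_atTop]
  intro m₀
  refine ⟨2 * (m₀ + 1) * N, ?_, ?_⟩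
  · nlinarith
  · have h3 := h1 (m₀ + 1)
    have h4 := h2 (m₀ + 1)
    have h5 := hkey (m₀ + 1) (Nat.succ_pos _)
    have e1 : 2 * N * (m₀ + 1) = 2 * (m₀ + 1) * N := by ring
    rw [e1, one_mul] at h3 h4
    have h6 : ((((m₀ + 1) / sdim B + 1) ^ sdim B * ((m₀ + 1) / rank hst + 1) ^ rank hst : ℕ) : ℝ)
        ≤ (Module.finrank ℂ (secY u c (fun i => (2 * (m₀ + 1) * N : ℕ) * d i)
          (L.pow (2 * (m₀ + 1) * N)).e) : ℝ) := by exact_mod_cast h5
    refine le_trans ?_ h6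
    rw [pow_add]
    push_cast at h3 h4 ⊢
    calc _ = (C₁ * (2 * ((m₀ : ℝ) + 1) * N) ^ sdim B) * (C₂ * (2 * ((m₀ : ℝ) + 1) * N) ^ rank hst) := by
          ring
      _ ≤ _ := mul_le_mul h3 h4 (by positivity) (by positivity)

end Q47.TK
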