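import Pool.Agent.Q47.TK.Upper

/-!
# The lower bound for the number of sections on a toric bundle
-/

set_option autoImplicit false

namespace Q47.TK

open Pool.Agent.W594.SYZ2 Pool.Agent.W594.SYZ2.TQ Pool.Agent.TH735.AQ MvPolynomial Q47.EB Q47.KN
open Q47.TB
open Q47.MM (nef_of_section Inv inv_of_chern roots exists_tests Refls nef_of_roots)

variable {V : Type*} [NormedAddCommGroup V] [NormedSpace ℂ V] {Γ : Subgroup (V ≃ᵃ[ℂ] V)}
  {ι : Type*} [Fintype ι] {n : ℕ}

/-- Monomials as sections. -/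
theorem isSection_mono {u : ι → Fin n → ℤ} {c : ι → LineBundle Γ} {d : ι → ℤ}
    {L : LineBundle Γ} {k : ℕ} {α : ι → ℕ}
    (hα : LinEquiv u (fun i => (α i : ℤ)) fun i => k * d i) {s : V → ℂ}
    (hs : (lb L c k α).IsSection s) :
    IsSection u c (fun i => k * d i) (L.pow k).e
      (fun v => monomial (Finsupp.equivFunOnFinite.symm α) (s v)) := by
  have h1 : ((TB.tw (L.pow k) c 1 α).pow 1).IsSection s := by
    have h2 : (TB.tw (L.pow k) c 1 α).pow 1 = lb L c k α := lb_ext fun γ v => pow_one _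
    rw [h2]
    exact hs
  have h3 := isSection_monomial hα h1
  simp only [Nat.cast_one, one_mul, pow_one] at h3
  exact h3

/-- The numbers `a_l`. -/
def cf (T : ℕ) {s : ℕ} (θ : Fin s → Fin (T / s + 1)) : Fin (s + 1) → ℕ :=
  Fin.cons (T - ∑ i, (θ i : ℕ)) fun i => (θ i : ℕ)

theorem cf_inj {T s : ℕ} {θ θ' : Fin s → Fin (T / s + 1)} (h : cf T θ = cf T θ') : θ = θ' := by
  funext i
  have h1 := congrFun h (Fin.succ i)
  simp only [cf, Fin.cons_succ] at h1
  exact Fin.ext h1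

theorem sum_cf {T s : ℕ} (θ : Fin s → Fin (T / s + 1)) : ∑ l, cf T θ l = T := by
  rw [Fin.sum_univ_succ]
  simp only [cf, Fin.cons_zero, Fin.cons_succ]
  have h1 : ∑ i, (θ i : ℕ) ≤ T := by
    calc ∑ i, (θ i : ℕ) ≤ ∑ _i : Fin s, T / s :=
          Finset.sum_le_sum fun i _ => Nat.lt_succ_iff.1 (θ i).2
      _ = s * (T / s) := by rw [Finset.sum_const, Finset.card_univ, Fintype.card_fin, smul_eq_mul]
      _ ≤ T := Nat.mul_div_le T s
  omega

/-- Products of sections. -/
theorem prod_section {L : LineBundle Γ} {c : ι → LineBundle Γ} {N : ℕ} {α : ι → ℕ} {s : ℕ}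
    {β : Fin (s + 1) → ι → ℕ} {σ : Fin (s + 1) → V → ℂ}
    (hσ : ∀ l, (lb L c N (β l)).IsSection (σ l)) {T : ℕ} {t : V → ℂ}
    (ht : ((lb L c N α).pow T).IsSection t) (a : Fin (s + 1) → ℕ) (ha : ∑ l, a l = T) :
    (lb L c (2 * T * N) fun i => T * α i + ∑ l, a l * β l i).IsSection
      fun v => t v * ∏ l, σ l v ^ a l := by
  refine ⟨ht.holo.mul (prod_diff Finset.univ (fun l v => σ l v ^ a l)
    fun l => (hσ l).holo.pow _), fun γ v => ?_⟩
  have h1 : ∏ l, σ l ((γ : V ≃ᵃ[ℂ] V) v) ^ a l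
      = (∏ l, ((lb L c N (β l)).e γ v) ^ a l) * ∏ l, σ l v ^ a l := by
    rw [← Finset.prod_mul_distrib]
    exact Finset.prod_congr rfl fun l _ => by rw [(hσ l).eq, mul_pow]
  have h2 : ((lb L c N α).pow T).e γ v = L.e γ v ^ (T * N) * (∏ i, (c i).e γ v ^ (T * α i))⁻¹ := by
    rw [lb_pow, lb_e]
  have h3 : ∏ l, ((lb L c N (β l)).e γ v) ^ a l
      = L.e γ v ^ (T * N) * (∏ i, (c i).e γ v ^ (∑ l, a l * β l i))⁻¹ := by
    simp only [lb_e, mul_pow, inv_pow, Finset.prod_mul_distrib, Finset.prod_inv_distrib]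
    congr 1
    · rw [Finset.prod_pow_eq_pow_sum, ha, ← pow_mul, mul_comm]
    · congr 1
      simp only [← Finset.prod_pow]
      rw [Finset.prod_comm]
      refine Finset.prod_congr rfl fun i _ => ?_
      rw [← Finset.prod_pow_eq_pow_sum]
      exact Finset.prod_congr rfl fun l _ => by rw [← pow_mul, mul_comm]
  change t ((γ : V ≃ᵃ[ℂ] V) v) * ∏ l, σ l ((γ : V ≃ᵃ[ℂ] V) v) ^ a l = _
  rw [ht.eq, h1, h2, h3, lb_e]
  simp only [pow_add, Finset.prod_mul_distrib, mul_inv]
  have e1 : 2 * T * N = T * N + T * N := by ring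
  rw [e1, pow_add]
  ring

/-- The construction of sections. -/
theorem lowerY [FiniteDimensional ℂ V] {u : ι → Fin n → ℤ} {S : Set (Set ι)}
    (hS : IsSmoothFan u S) {L : LineBundle Γ} {c : ι → LineBundle Γ} {d : ι → ℤ} {N s : ℕ}
    (α : ι → ℕ) (β : Fin (s + 1) → ι → ℕ) (x : ℤ × (Fin n → ℤ)) (y : Fin (s + 1) → ℤ × (Fin n → ℤ))
    (hx : x.1 = N) (hxα : ∀ i, (α i : ℤ) = al u d x i)
    (hy : ∀ l, (y l).1 = N) (hyβ : ∀ l i, (β l i : ℤ) = al u d (y l) i)
    (hli : LinearIndependent ℝ fun l => vec (y l))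
    (hσ : ∀ l, ∃ σ, (lb L c N (β l)).IsSection σ ∧ ∃ v, σ v ≠ 0) (T : ℕ)
    [FiniteDimensional ℂ (sec ((lb L c N α).pow T))]
    [FiniteDimensional ℂ (secY u c (fun i => (2 * T * N : ℕ) * d i) (L.pow (2 * T * N)).e)] :
    (T / s + 1) ^ s * h0 ((lb L c N α).pow T) ≤
      Module.finrank ℂ (secY u c (fun i => (2 * T * N : ℕ) * d i) (L.pow (2 * T * N)).e) := by
  classical
  choose σ hσ hσ0 using hσ
  let ex : (Fin s → Fin (T / s + 1)) → (ι → ℕ) := fun θ i => T * α i + ∑ l, cf T θ l * β l i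
  let pt : (Fin s → Fin (T / s + 1)) → ℤ × (Fin n → ℤ) := fun θ => T • x + ∑ l, cf T θ l • y l
  have hpt : ∀ θ i, (ex θ i : ℤ) = al u d (pt θ) i := by
    intro θ i
    simp only [ex, pt]
    rw [al_add, al_comb]
    have h1 : al u d (T • x) i = T * al u d x i := by
      rw [← alHom_apply, map_nsmul, alHom_apply, nsmul_eq_mul]
    rw [h1, ← hxα]
    push_cast
    simp only [hyβ]
  have hpt1 : ∀ θ, (pt θ).1 = (2 * T * N : ℕ) := by
    intro θ
    simp only [pt, Prod.fst_add, Prod.fst_sum, Prod.smul_fst, hx, hy]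
    simp only [nsmul_eq_mul]
    rw [← Finset.sum_mul]
    have h1 : (∑ l, (cf T θ l : ℤ)) = T := by exact_mod_cast sum_cf θ
    rw [h1]
    push_cast
    ring
  have hexinj : Function.Injective ex := by
    intro θ θ' h
    have h1 : pt θ = pt θ' := al_inj hS (d := d) (by rw [hpt1, hpt1]) fun i => by
      rw [← hpt, ← hpt, h]
    have h2 : ∑ l, cf T θ l • y l = ∑ l, cf T θ' l • y l := add_left_cancel h1
    have h3 := congrArg vec h2
    rw [vec_sum, vec_sum] at h3
    simp only [vec_nsmul] at h3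
    have h4 := Fintype.linearIndependent_iff.1 hli (fun l => (cf T θ l : ℝ) - cf T θ' l) (by
      simp only [sub_smul, Finset.sum_sub_distrib, h3, sub_self])
    apply cf_inj
    funext l
    have := h4 l
    exact_mod_cast sub_eq_zero.1 this
  have hcls : ∀ θ, LinEquiv u (fun i => (ex θ i : ℤ)) fun i => ((2 * T * N : ℕ) : ℤ) * d i := by
    intro θ
    refine ⟨(pt θ).2, fun i => ?_⟩
    have h1 := hpt θ i
    rw [al, hpt1] at h1
    exact h1
  let Ψ : ((Fin s → Fin (T / s + 1)) → sec ((lb L c N α).pow T)) → V → MvPolynomial ι ℂ :=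
    fun t v => ∑ θ, monomial (Finsupp.equivFunOnFinite.symm (ex θ))
      ((t θ).1 v * ∏ l, σ l v ^ cf T θ l)
  have hΨ : ∀ t, Ψ t ∈ secY u c (fun i => (2 * T * N : ℕ) * d i) (L.pow (2 * T * N)).e := by
    intro t
    have h1 : Ψ t = ∑ θ, fun v => monomial (Finsupp.equivFunOnFinite.symm (ex θ))
        ((t θ).1 v * ∏ l, σ l v ^ cf T θ l) := by
      funext v
      rw [Finset.sum_apply]
    rw [h1]
    refine Submodule.sum_mem _ fun θ _ => ?_
    exact isSection_mono (hcls θ) (prod_section hσ (t θ).2 (cf T θ) (sum_cf θ))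
  have hΨa : ∀ t t', Ψ (t + t') = Ψ t + Ψ t' := by
    intro t t'
    funext v
    simp only [Ψ, Pi.add_apply, Submodule.coe_add, add_mul, map_add, Finset.sum_add_distrib]
  have hΨs : ∀ (z : ℂ) t, Ψ (z • t) = z • Ψ t := by
    intro z t
    funext v
    simp only [Ψ, Pi.smul_apply, Submodule.coe_smul, Finset.smul_sum, smul_monomial, smul_eq_mul,
      mul_assoc]
  let Φ : ((Fin s → Fin (T / s + 1)) → sec ((lb L c N α).pow T)) →ₗ[ℂ]
      secY u c (fun i => (2 * T * N : ℕ) * d i) (L.pow (2 * T * N)).e :=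
    { toFun := fun t => ⟨Ψ t, hΨ t⟩
      map_add' := fun t t' => Subtype.ext (hΨa t t')
      map_smul' := fun z t => Subtype.ext (hΨs z t) }
  have hΦ : Function.Injective Φ := by
    rw [injective_iff_map_eq_zero]
    intro t ht
    funext θ
    by_contra hne
    have h1 : ∃ v, (t θ).1 v ≠ 0 := by
      by_contra h
      push Not at h
      exact hne (Subtype.ext (funext h))
    obtain ⟨v₁, hv₁⟩ := exists_common_prod Finset.univ (fun l v => σ l v ^ cf T θ l)
      (fun l _ => (hσ l).holo.pow _) (fun l _ => by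
        obtain ⟨v, hv⟩ := hσ0 l
        exact ⟨v, pow_ne_zero _ hv⟩)
    obtain ⟨v, hv, hv'⟩ := exists_common (t θ).2.holo (prod_diff Finset.univ
      (fun l v => σ l v ^ cf T θ l) fun l => (hσ l).holo.pow _) h1 ⟨v₁, hv₁⟩
    have h2 : (∑ θ, monomial (Finsupp.equivFunOnFinite.symm (ex θ))
          ((t θ).1 v * ∏ l, σ l v ^ cf T θ l) : MvPolynomial ι ℂ) = 0 :=
      congrFun (congrArg Subtype.val ht) v
    have h3 := congrArg (coeff (Finsupp.equivFunOnFinite.symm (ex θ))) h2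
    rw [coeff_sum, coeff_zero] at h3
    simp only [coeff_monomial] at h3
    rw [Finset.sum_eq_single θ] at h3
    · rw [if_pos rfl] at h3
      exact mul_ne_zero hv hv' h3
    · intro θ' _ hθ'
      rw [if_neg]
      intro h
      exact hθ' (hexinj (Finsupp.equivFunOnFinite.symm.injective h))
    · intro h
      exact absurd (Finset.mem_univ θ) h
  have h1 := LinearMap.finrank_le_finrank_of_injective hΦ
  rw [Module.finrank_pi_fintype] at h1
  simp only [Finset.sum_const, Finset.card_univ, smul_eq_mul] at h1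
  rw [Fintype.card_fun, Fintype.card_fin, Fintype.card_fin] at h1
  exact h1

end Q47.TK
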