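import Pool.Agent.Q47.TK.Kappa

/-!
# Kodaira dimension and numerical dimension of pairs on toric bundles
-/

set_option autoImplicit false

namespace Q47.TK

open Pool.Agent.W594.SYZ2 Pool.Agent.W594.SYZ2.TQ Pool.Agent.TH735.AQ MvPolynomial Q47.EB Q47.KN
open Q47.TB Filter
open Q47.MM (nef_of_section Inv inv_of_chern roots exists_tests Refls nef_of_roots)

variable {V : Type*} [NormedAddCommGroup V] [NormedSpace ℂ V] {Γ : Subgroup (V ≃ᵃ[ℂ] V)}
  {ι : Type*} [Fintype ι] {n : ℕ} [FiniteDimensional ℂ V]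

/-- The classes of the cone are semiample. -/
theorem semi_of_pair (hΓ : IsTorusQuotient Γ) {ρ : V → ℂ} (hρ : IsRamification Γ ρ)
    {u : ι → Fin n → ℤ} {S : Set (Set ι)} (hS : IsSmoothFan u S)
    {c : ι → LineBundle Γ} {Hc : ι → V → V → ℂ} (hc : ∀ i, IsChernForm (c i) (Hc i))
    {m : ℕ} {d : ι → ℤ} {F : V → MvPolynomial ι ℂ} {L : LineBundle Γ}
    {H : V → V → ℂ} (hL : IsChernForm L H) (hF : TB.IsLogPluricanonical u c m ρ d F L)
    (T : Finset (ι →₀ ℕ)) (hT : ∀ α ∈ T, ∃ v, coeff α (F v) ≠ 0)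
    (hw : ∀ a : ι → ℕ, {i | a i ≠ 0} ∈ S → ∃ α ∈ T, ∑ i, a i * α i ≤ m * ∑ i, a i)
    {X Y : Refls Γ → V} {tL : Refls Γ → ℤ} {tc : ι → Refls Γ → ℤ}
    (htL : ∀ g, (H (X g) (Y g)).im = tL g) (htc : ∀ i g, (Hc i (X g) (Y g)).im = tc i g)
    (ht : ∀ H' : V → V → ℂ, IsHermitian H' →
        ((∀ a ∈ roots Γ, 0 ≤ (H' a a).re) ↔ ∀ g, 0 ≤ (H' (X g) (Y g)).im))
    (x : ℤ × (Fin n → ℤ)) (hx0 : 0 < x.1)
    (hx : ∀ j, 0 ≤ tst u (fun i => d i - m) tL tc x j) :
    IsNefForm (form u (fun i => d i - m) H Hc x) ∧ ∃ E : ℕ, 1 ≤ E ∧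
      GG ((lb L c x.1.toNat fun i => (al u (fun i => d i - m) x i).toNat).pow E) := by
  set d' : ι → ℤ := fun i => d i - m with hd'
  set K₀ := x.1.toNat with hK₀
  have hK₀1 : (K₀ : ℤ) = x.1 := Int.toNat_of_nonneg hx0.le
  have hK₀0 : 1 ≤ K₀ := by omega
  set b : ι → ℕ := fun i => (al u d' x i).toNat with hb
  have hb1 : ∀ i, (b i : ℤ) = al u d' x i := fun i => Int.toNat_of_nonneg (hx (Sum.inl i))
  have hcls : LinEquiv u (fun i => (b i : ℤ)) (fun i => K₀ * (d i - m)) := by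
    refine ⟨x.2, fun i => ?_⟩
    have h1 := hb1 i
    rw [al, ← hK₀1] at h1
    exact h1
  have hform : ∀ v w, form u d' H Hc x v w = (K₀ : ℂ) * H v w - ∑ i, (b i : ℂ) * Hc i v w := by
    intro v w
    rw [form]
    congr 1
    · rw [← hK₀1]
      push_cast
      rfl
    · refine Finset.sum_congr rfl fun i _ => ?_
      rw [← hb1]
      push_cast
      rfl
  have hroots : ∀ a ∈ roots Γ, 0 ≤ (form u d' H Hc x a a).re := by
    refine (ht _ (form_herm hL.1 (fun i => (hc i).1) x)).2 fun g => ?_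
    have h1 := hx (Sum.inr g)
    rw [tst_inr] at h1
    have h2 : (form u d' H Hc x (X g) (Y g)).im = x.1 * tL g - ∑ i, (al u d' x i : ℝ) * tc i g := by
      rw [form, Complex.sub_im, Complex.im_sum, im_int_mul, htL]
      simp only [im_int_mul, htc]
    rw [h2]
    exact_mod_cast h1
  obtain ⟨K, hK, P, hP, hP0, hPe⟩ := exists_base_pair_mul hS T (fun α v => coeff α (F v)) hF.holo hT
    (fun α hα => by
      obtain ⟨v, hv⟩ := hT α hα
      exact hF.deg v α (mem_support_iff.2 hv))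
    (fun α _ γ v => by
      refine coeff_of_eval (fun x => ?_) α
      rw [hF.eq γ v x]
      ring) hw hK₀0 (β := b) hcls
  have hch := chern_tw (chern_pow hL K₀) hc K b
  have hnef : IsNefForm fun v w => (K : ℂ) * ((K₀ : ℂ) * H v w - ∑ i, (b i : ℂ) * Hc i v w) := by
    refine nef_of_roots hΓ (inv_of_chern hch) (fun x hx => ?_) fun a ha => ?_
    · obtain ⟨hH, F', hF', hFe⟩ := hch
      exact pair_fixed hΓ hρ hP hP0 hPe hH ⟨hF', hFe⟩ hx
    · rw [re_nat_mul, ← hform]
      exact mul_nonneg (Nat.cast_nonneg K) (hroots a ha)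
  refine ⟨fun v => ?_, ?_⟩
  · have h1 := hnef v
    rw [re_nat_mul, ← hform] at h1
    have h2 : (0 : ℝ) < K := by exact_mod_cast hK
    exact nonneg_of_mul_nonneg_right h1 h2
  · obtain ⟨hH, F', hF', hFe⟩ := hch
    refine ⟨K * expo (Module.finrank ℂ V), Nat.mul_pos hK (expo_pos _), ?_⟩
    have h1 := gg_of_pair hΓ hH ⟨hF', hFe⟩ hρ hP hP0 hPe hnef
    have h2 : (TB.tw (L.pow K₀) c K b).pow (expo (Module.finrank ℂ V))
        = (lb L c K₀ b).pow (K * expo (Module.finrank ℂ V)) := by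
      rw [lb_pow]
      refine lb_ext fun γ v => ?_
      rw [lb_e]
      change ((L.e γ v ^ K₀) ^ K * (∏ i, (c i).e γ v ^ (K * b i))⁻¹) ^
        (expo (Module.finrank ℂ V)) = _
      rw [mul_pow, ← pow_mul, ← pow_mul, inv_pow, ← Finset.prod_pow]
      congr 2
      · ring
      · exact Finset.prod_congr rfl fun i _ => by
          rw [← pow_mul]
          congr 1
          ring
    rw [← h2]
    exact h1

omit [Fintype ι] [FiniteDimensional ℂ V] in
theorem secY_zero (u : ι → Fin n → ℤ) (c : ι → LineBundle Γ) (d : ι → ℤ) (L : LineBundle Γ)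
    (k : ℕ) : secY u c (fun i => k * d i + 0) (tensor (L.pow k) (one Γ)).e
      = secY u c (fun i => k * d i) (L.pow k).e := by
  rw [tensor_one]
  simp only [add_zero]

/-- The growth of the number of sections. -/
theorem growth_pair (hΓ : IsTorusQuotient Γ) {ρ : V → ℂ} (hρ : IsRamification Γ ρ)
    {u : ι → Fin n → ℤ} {S : Set (Set ι)} (hS : IsSmoothFan u S)
    {c : ι → LineBundle Γ} {Hc : ι → V → V → ℂ} (hc : ∀ i, IsChernForm (c i) (Hc i))
    {m : ℕ} {d : ι → ℤ} {F : V → MvPolynomial ι ℂ} {L : LineBundle Γ}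
    {H : V → V → ℂ} (hL : IsChernForm L H) (hF : TB.IsLogPluricanonical u c m ρ d F L)
    (T : Finset (ι →₀ ℕ)) (hT : ∀ α ∈ T, ∃ v, coeff α (F v) ≠ 0)
    (hw : ∀ a : ι → ℕ, {i | a i ≠ 0} ∈ S → ∃ α ∈ T, ∑ i, a i * α i ≤ m * ∑ i, a i) :
    ((∀ k : ℕ, 1 ≤ k → secY u c (fun i => k * (d i - m)) (L.pow k).e = ⊥) ∧
      ∀ (A : LineBundle Γ) (HA : V → V → ℂ), IsChernForm A HA → ∀ b : ι → ℤ,
        ∃ k₀ : ℕ, ∀ k : ℕ, k₀ ≤ k →
          secY u c (fun i => k * (d i - m) + b i) (tensor (L.pow k) A).e = ⊥) ∨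
    ∃ κ : ℕ, (∃ C : ℝ, 0 < C ∧ ∃ᶠ k : ℕ in atTop,
        C * (k : ℝ) ^ κ ≤ Module.finrank ℂ (secY u c (fun i => k * (d i - m)) (L.pow k).e)) ∧
      ∀ (A : LineBundle Γ) (HA : V → V → ℂ), IsChernForm A HA → ∀ b : ι → ℤ,
        ∃ D : ℕ, ∀ k : ℕ, 1 ≤ k →
          FiniteDimensional ℂ (secY u c (fun i => k * (d i - m) + b i) (tensor (L.pow k) A).e) ∧
          Module.finrank ℂ (secY u c (fun i => k * (d i - m) + b i) (tensor (L.pow k) A).e)
            ≤ D * k ^ κ := by
  classical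
  have := finite_Lin hΓ
  have hRf : Fintype (Refls Γ) := Fintype.ofFinite _
  obtain ⟨X, Y, tL, tc, htL, htc, htA, ht⟩ := exists_tst hΓ hL hc
  obtain ⟨B, hB, hBg, hBW⟩ := gens (tst u (fun i => d i - m) tL tc)
    (tst_inj hS (d := fun i => d i - m) tL tc)
  have hsemi := semi_of_pair hΓ hρ hS hc hL hF T hT hw htL htc ht
  have hB0 : ∀ b ∈ B, b.1 = 0 → b = 0 := fun b hb h =>
    eq_zero_of_nonneg hS h fun i => (hB b hb).2 (Sum.inl i)
  by_cases hne : ∃ b ∈ B, b ≠ 0
  · right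
    have hnB : ∀ b ∈ B, IsNefForm (form u (fun i => d i - m) H Hc b) := by
      intro b hb
      by_cases hb1 : b = 0
      · intro v
        rw [hb1, form_zero, Complex.zero_re]
      · exact (hsemi b (lt_of_le_of_ne (hB b hb).1 fun h => hb1 (hB0 b hb h.symm)) (hB b hb).2).1
    refine ⟨sdim B + rank (form_herm (u := u) (d := fun i => d i - m) hL.1 (fun i => (hc i).1)
          (∑ b ∈ B, b)), ?_, ?_⟩
    · refine lower_freq hΓ hS hL hc (fun b hb => (hB b hb).1) (fun b hb => (hB b hb).2) hB0 hne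
        hsemi fun k hk => ?_
      obtain ⟨D, hD⟩ := upperY (b := fun _ => 0) hΓ hL hc (chern_one (Γ := Γ)) htL htc
        (htA _ _ chern_one) ht (fun b hb => (hB b hb).1) hB0 hne hnB hBW
      have h1 := (hD k hk).1
      rwa [secY_zero] at h1
    · intro A HA hA b
      exact upperY hΓ hL hc hA htL htc (htA A HA hA) ht (fun b hb => (hB b hb).1) hB0 hne hnB hBW
  · left
    have key : ∀ (A : LineBundle Γ) (HA : V → V → ℂ), IsChernForm A HA → ∀ b : ι → ℤ,
        ∃ k₀ : ℕ, ∀ k : ℕ, k₀ ≤ k →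
          secY u c (fun i => k * (d i - m) + b i) (tensor (L.pow k) A).e = ⊥ := by
      intro A HA hA b
      obtain ⟨tA, htA'⟩ := htA A HA hA
      let ε : ℕ := ∑ i, (b i).natAbs + ∑ g, (tA g - ∑ i, b i * tc i g).natAbs
      have hε1 : ∀ i, |b i| ≤ ε := by
        intro i
        have h1 : (b i).natAbs ≤ ∑ i, (b i).natAbs :=
          Finset.single_le_sum (f := fun i => (b i).natAbs) (fun _ _ => Nat.zero_le _)
            (Finset.mem_univ i)
        rw [Int.abs_eq_natAbs]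
        exact_mod_cast h1.trans (Nat.le_add_right _ _)
      have hε2 : ∀ g, |tA g - ∑ i, b i * tc i g| ≤ ε := by
        intro g
        have h1 : (tA g - ∑ i, b i * tc i g).natAbs ≤ ∑ g, (tA g - ∑ i, b i * tc i g).natAbs :=
          Finset.single_le_sum (f := fun g => (tA g - ∑ i, b i * tc i g).natAbs)
            (fun _ _ => Nat.zero_le _) (Finset.mem_univ g)
        rw [Int.abs_eq_natAbs]
        exact_mod_cast h1.trans (Nat.le_add_left _ _)
      obtain ⟨W, hW, hWg⟩ := hBW ε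
      obtain ⟨k₀, hk₀⟩ := near_empty hne hWg
      refine ⟨k₀, fun k hk => ?_⟩
      rw [Submodule.eq_bot_iff]
      intro G hG
      by_contra h0
      obtain ⟨v, hv⟩ : ∃ v, G v ≠ 0 := by
        by_contra h
        push Not at h
        exact h0 (funext h)
      obtain ⟨α, hα⟩ := MvPolynomial.support_nonempty.2 hv
      obtain ⟨x, hx1, -, hx3⟩ := mem_near hΓ hL hc hA htL htc htA' ht hε1 hε2 hG
        (mem_support_iff.1 hα)
      exact hk₀ k hk x hx1 hx3
    refine ⟨fun k hk => ?_, key⟩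
    rw [Submodule.eq_bot_iff]
    intro G hG
    by_contra h0
    obtain ⟨v, hv⟩ : ∃ v, G v ≠ 0 := by
      by_contra h
      push Not at h
      exact h0 (funext h)
    obtain ⟨α, hα⟩ := MvPolynomial.support_nonempty.2 hv
    obtain ⟨tA, htA'⟩ := htA (one Γ) _ chern_one
    have htA0 : ∀ g, tA g = 0 := fun g => by
      have := htA' g
      simp only [Complex.zero_im] at this
      exact_mod_cast this.symm
    have hG' : IsSection u c (fun i => k * (d i - m) + 0) (tensor (L.pow k) (one Γ)).e G := by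
      have h1 : G ∈ secY u c (fun i => k * (d i - m) + 0) (tensor (L.pow k) (one Γ)).e := by
        rw [secY_zero u c (fun i => d i - m) L k]
        exact hG
      exact h1
    obtain ⟨x, hx1, -, hx3⟩ := mem_near (b := fun _ => 0) (ε := 0) (d := fun i => d i - m) hΓ hL hc
      chern_one htL htc htA' ht (fun i => by simp) (fun g => by simp [htA0]) hG'
      (mem_support_iff.1 hα)
    push Not at hne
    obtain ⟨μ, hμ⟩ := hBg x (by rw [hx1]; exact Int.natCast_nonneg _) (by simpa using hx3)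
    have h1 : x = 0 := by
      rw [hμ]
      exact Finset.sum_eq_zero fun b hb => by rw [hne b hb, smul_zero]
    rw [h1] at hx1
    have : (0 : ℤ) = k := hx1
    omega

end Q47.TK
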