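import Pool.Agent.Q47.TK.Count

/-!
# Counting lattice points near a cone
-/

set_option autoImplicit false

namespace Q47.TK

open Finset

variable {n : ℕ} {J : Type*}

/-- Sets all whose finite subsets are bounded. -/
theorem exists_finset {α : Type*} (X : Set α) (N : ℕ)
    (h : ∀ A : Finset α, (∀ x ∈ A, x ∈ X) → A.card ≤ N) :
    ∃ A : Finset α, (∀ x, x ∈ A ↔ x ∈ X) ∧ A.card ≤ N := by
  have hfin : X.Finite := by
    by_contra hinf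
    obtain ⟨t, ht, hc⟩ := Set.Infinite.exists_subset_card_eq hinf (N + 1)
    have := h t fun x hx => ht hx
    omega
  refine ⟨hfin.toFinset, fun x => hfin.mem_toFinset, h _ fun x hx => hfin.mem_toFinset.1 hx⟩

theorem near_count {f : ℤ × (Fin n → ℤ) →+ (J → ℤ)} {B W : Finset (ℤ × (Fin n → ℤ))}
    (hB : ∀ b ∈ B, 0 ≤ b.1) (hB0 : ∀ b ∈ B, b.1 = 0 → b = 0) (hne : ∃ b ∈ B, b ≠ 0)
    (hW : ∀ w ∈ W, 0 ≤ w.1) {ε : ℕ}
    (hgen : ∀ x : ℤ × (Fin n → ℤ), 0 ≤ x.1 → (∀ j, -(ε : ℤ) ≤ f x j) →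
      ∃ w ∈ W, ∃ μ : ℤ × (Fin n → ℤ) → ℕ, x = ∑ b ∈ B, μ b • b + w) :
    ∃ D : ℕ, ∀ k : ℕ, 1 ≤ k → ∃ X : Finset (ℤ × (Fin n → ℤ)),
      (∀ x, x ∈ X ↔ x.1 = k ∧ ∀ j, -(ε : ℤ) ≤ f x j) ∧ X.card ≤ D * k ^ sdim B := by
  classical
  obtain ⟨D, hD⟩ := count hB hB0 hne
  refine ⟨W.card * D, fun k hk => ?_⟩
  refine exists_finset {x : ℤ × (Fin n → ℤ) | x.1 = (k : ℤ) ∧ ∀ j, -(ε : ℤ) ≤ f x j} _
    fun A hA => ?_
  have h1 : A ⊆ W.biUnion fun w => A.filter fun x =>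
      ∃ μ : ℤ × (Fin n → ℤ) → ℕ, x = ∑ b ∈ B, μ b • b + w := by
    intro x hx
    obtain ⟨h1, h2⟩ := hA x hx
    obtain ⟨w, hw, μ, hμ⟩ := hgen x (by rw [h1]; exact Int.natCast_nonneg _) h2
    exact Finset.mem_biUnion.2 ⟨w, hw, Finset.mem_filter.2 ⟨hx, μ, hμ⟩⟩
  refine (Finset.card_le_card h1).trans (Finset.card_biUnion_le.trans ?_)
  have h2 : ∀ w ∈ W, (A.filter fun x =>
      ∃ μ : ℤ × (Fin n → ℤ) → ℕ, x = ∑ b ∈ B, μ b • b + w).card ≤ D * k ^ sdim B := by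
    intro w hw
    have h3 : Function.Injective fun x : ℤ × (Fin n → ℤ) => x - w := fun x y h => sub_left_injective h
    rw [← Finset.card_image_of_injective _ h3]
    refine hD k (k - w.1) hk (by linarith [hW w hw]) _ fun y hy => ?_
    obtain ⟨x, hx, rfl⟩ := Finset.mem_image.1 hy
    obtain ⟨hxA, μ, hμ⟩ := Finset.mem_filter.1 hx
    refine ⟨?_, μ, ?_⟩
    · change (x - w).1 = _
      rw [Prod.fst_sub, (hA x hxA).1]
    · change x - w = _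
      conv_lhs => rw [hμ]
      rw [add_sub_cancel_right]
  calc ∑ w ∈ W, _ ≤ ∑ w ∈ W, D * k ^ sdim B := Finset.sum_le_sum h2
    _ = W.card * D * k ^ sdim B := by rw [Finset.sum_const, smul_eq_mul, mul_assoc]

/-- If the cone is trivial, there are no points of large height near it. -/
theorem near_empty {f : ℤ × (Fin n → ℤ) →+ (J → ℤ)} {B W : Finset (ℤ × (Fin n → ℤ))}
    (hne : ¬ ∃ b ∈ B, b ≠ 0) {ε : ℕ}
    (hgen : ∀ x : ℤ × (Fin n → ℤ), 0 ≤ x.1 → (∀ j, -(ε : ℤ) ≤ f x j) →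
      ∃ w ∈ W, ∃ μ : ℤ × (Fin n → ℤ) → ℕ, x = ∑ b ∈ B, μ b • b + w) :
    ∃ k₀ : ℕ, ∀ k : ℕ, k₀ ≤ k → ∀ x : ℤ × (Fin n → ℤ), x.1 = k →
      ¬ ∀ j, -(ε : ℤ) ≤ f x j := by
  push Not at hne
  refine ⟨∑ w ∈ W, w.1.natAbs + 1, fun k hk x hx h => ?_⟩
  obtain ⟨w, hw, μ, hμ⟩ := hgen x (by rw [hx]; exact Int.natCast_nonneg _) h
  have h1 : ∑ b ∈ B, μ b • b = 0 := Finset.sum_eq_zero fun b hb => by rw [hne b hb, smul_zero]
  rw [h1, zero_add] at hμ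
  have h2 : w.1.natAbs ≤ ∑ w ∈ W, w.1.natAbs :=
    Finset.single_le_sum (f := fun w : ℤ × (Fin n → ℤ) => w.1.natAbs)
      (fun _ _ => Nat.zero_le _) hw
  rw [hμ] at hx
  omega

end Q47.TK
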