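import Pool.Agent.Q47.TK.Final

/-!
# Multiplication of sections on toric bundles
-/

set_option autoImplicit false

namespace Q47.TK

open Pool.Agent.W594.SYZ2 Pool.Agent.W594.SYZ2.TQ Pool.Agent.TH735.AQ MvPolynomial Q47.EB Q47.KN
open Q47.TB Filter

variable {V : Type*} [NormedAddCommGroup V] [NormedSpace ℂ V] {Γ : Subgroup (V ≃ᵃ[ℂ] V)}
  {ι : Type*} [Fintype ι] {n : ℕ}

/-- The product of sections. -/
theorem isSection_mul {u : ι → Fin n → ℤ} {c : ι → LineBundle Γ} {d d' : ι → ℤ}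
    {e e' : Γ → V → ℂ} {F G : V → MvPolynomial ι ℂ} (hF : IsSection u c d e F)
    (hG : IsSection u c d' e' G) :
    IsSection u c (fun i => d i + d' i) (fun γ v => e γ v * e' γ v) fun v => F v * G v := by
  classical
  refine ⟨fun α => ?_, fun v α hα => ?_, fun γ v x => ?_⟩
  · simp only [coeff_mul]
    exact Differentiable.fun_sum fun p _ => (hF.holo p.1).mul (hG.holo p.2)
  · obtain ⟨p, hp, q, hq, hpq⟩ := Finset.mem_add.1 (support_mul _ _ hα)
    obtain ⟨m, hm⟩ := hF.deg v p hp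
    obtain ⟨m', hm'⟩ := hG.deg v q hq
    refine ⟨m + m', fun i => ?_⟩
    have h1 : (p i : ℤ) = d i + ∑ k, m k * u i k := hm i
    have h2 : (q i : ℤ) = d' i + ∑ k, m' k * u i k := hm' i
    rw [← hpq]
    simp only [Finsupp.add_apply, Nat.cast_add, h1, h2, Pi.add_apply, add_mul,
      Finset.sum_add_distrib]
    ring
  · rw [map_mul, map_mul, hF.eq, hG.eq]
    ring

variable [FiniteDimensional ℂ V]

theorem exists_common_poly {u : ι → Fin n → ℤ} {c : ι → LineBundle Γ} {d d' : ι → ℤ}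
    {e e' : Γ → V → ℂ} {F G : V → MvPolynomial ι ℂ} (hF : IsSection u c d e F)
    (hG : IsSection u c d' e' G) (hF0 : ∃ v, F v ≠ 0) (hG0 : ∃ v, G v ≠ 0) :
    ∃ v, F v ≠ 0 ∧ G v ≠ 0 := by
  obtain ⟨v, hv⟩ := hF0
  obtain ⟨w, hw⟩ := hG0
  obtain ⟨α, hα⟩ := MvPolynomial.support_nonempty.2 hv
  obtain ⟨β, hβ⟩ := MvPolynomial.support_nonempty.2 hw
  obtain ⟨z, h1, h2⟩ := exists_common (hF.holo α) (hG.holo β) ⟨v, mem_support_iff.1 hα⟩
    ⟨w, mem_support_iff.1 hβ⟩
  exact ⟨z, fun h => h1 (by rw [h, coeff_zero]), fun h => h2 (by rw [h, coeff_zero])⟩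

/-- Multiplication by a nonzero section is injective. -/
theorem finrank_le_of_mul {u : ι → Fin n → ℤ} {c : ι → LineBundle Γ} {d d' : ι → ℤ}
    {e e' : Γ → V → ℂ} {G : V → MvPolynomial ι ℂ} (hG : IsSection u c d' e' G)
    (hG0 : ∃ v, G v ≠ 0)
    [FiniteDimensional ℂ (secY u c (fun i => d i + d' i) (fun γ v => e γ v * e' γ v))] :
    Module.finrank ℂ (secY u c d e) ≤
      Module.finrank ℂ (secY u c (fun i => d i + d' i) (fun γ v => e γ v * e' γ v)) := by
  let f : secY u c d e →ₗ[ℂ] secY u c (fun i => d i + d' i) (fun γ v => e γ v * e' γ v) :=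
    { toFun := fun F => ⟨fun v => F.1 v * G v, isSection_mul F.2 hG⟩
      map_add' := fun F F' => Subtype.ext (funext fun v => add_mul _ _ _)
      map_smul' := fun t F => Subtype.ext (funext fun v => smul_mul_assoc t (F.1 v) (G v)) }
  refine LinearMap.finrank_le_finrank_of_injective (f := f) ?_
  rw [injective_iff_map_eq_zero]
  intro F hF
  by_contra hne
  have h1 : ∃ v, F.1 v ≠ 0 := by
    by_contra h
    push Not at h
    exact hne (Subtype.ext (funext h))
  obtain ⟨v, h2, h3⟩ := exists_common_poly F.2 hG h1 hG0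
  have h4 : F.1 v * G v = 0 := congrFun (congrArg Subtype.val hF) v
  exact mul_ne_zero h2 h3 h4

end Q47.TK
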