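import Pool.Agent.Q47.TK.Cls
import Pool.Agent.Q47.TK.Near

/-!
# The space of the sections on a toric bundle: the upper bound
-/

set_option autoImplicit false

namespace Q47.TK

open Pool.Agent.W594.SYZ2 Pool.Agent.W594.SYZ2.TQ Pool.Agent.TH735.AQ MvPolynomial Q47.EB Q47.KN
open Q47.TB
open Q47.MM (nef_of_section Inv inv_of_chern roots exists_tests Refls nef_of_roots)

variable {V : Type*} [NormedAddCommGroup V] [NormedSpace ℂ V] {Γ : Subgroup (V ≃ᵃ[ℂ] V)}
  {ι : Type*} [Fintype ι] {n : ℕ}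

/-- The space of the sections of `O_Y(d; e)`. -/
def secY (u : ι → Fin n → ℤ) (c : ι → LineBundle Γ) (d : ι → ℤ) (e : Γ → V → ℂ) :
    Submodule ℂ (V → MvPolynomial ι ℂ) where
  carrier := {G | IsSection u c d e G}
  zero_mem' := ⟨fun α => by simp,
    fun v α hα => by simp at hα, fun γ v x => by simp⟩
  add_mem' := fun {F G} hF hG => by
    refine ⟨fun α => ?_, fun v α hα => ?_, fun γ v x => ?_⟩
    · simp only [Pi.add_apply, coeff_add]
      exact (hF.holo α).add (hG.holo α)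
    · by_cases h : coeff α (F v) = 0
      · refine hG.deg v α (mem_support_iff.2 fun h' => ?_)
        rw [mem_support_iff, Pi.add_apply, coeff_add, h, h', add_zero] at hα
        exact hα rfl
      · exact hF.deg v α (mem_support_iff.2 h)
    · rw [Pi.add_apply, Pi.add_apply, map_add, map_add, hF.eq, hG.eq, mul_add]
  smul_mem' := fun t F hF => by
    refine ⟨fun α => ?_, fun v α hα => ?_, fun γ v x => ?_⟩
    · simp only [Pi.smul_apply, coeff_smul]
      exact (hF.holo α).const_smul t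
    · refine hF.deg v α (mem_support_iff.2 fun h => ?_)
      rw [mem_support_iff, Pi.smul_apply, coeff_smul, h, smul_zero] at hα
      exact hα rfl
    · rw [Pi.smul_apply, Pi.smul_apply, smul_eval, smul_eval, hF.eq]
      ring

/-- The coefficients. -/
def coeffMap (u : ι → Fin n → ℤ) (c : ι → LineBundle Γ) (d : ι → ℤ) (M : LineBundle Γ)
    (A : Finset (ι →₀ ℕ)) :
    secY u c d M.e →ₗ[ℂ] ((α : A) → sec (TB.tw M c 1 fun i => α.1 i)) where
  toFun := fun G α => ⟨fun v => coeff α.1 (G.1 v), coeff_section G.2 α.1⟩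
  map_add' := fun F G => by
    funext α
    apply Subtype.ext
    funext v
    exact coeff_add _ _ _
  map_smul' := fun t G => by
    funext α
    apply Subtype.ext
    funext v
    exact coeff_smul _ _ _

/-- The bound by the coefficients. -/
theorem finrank_secY_le {u : ι → Fin n → ℤ} {c : ι → LineBundle Γ} {d : ι → ℤ}
    {M : LineBundle Γ} (A : Finset (ι →₀ ℕ))
    (hA : ∀ G, IsSection u c d M.e G → ∀ v α, coeff α (G v) ≠ 0 → α ∈ A) {N : ℕ}
    (hN : ∀ α ∈ A, FiniteDimensional ℂ (sec (TB.tw M c 1 fun i => α i)) ∧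
      h0 (TB.tw M c 1 fun i => α i) ≤ N) :
    FiniteDimensional ℂ (secY u c d M.e) ∧ Module.finrank ℂ (secY u c d M.e) ≤ A.card * N := by
  have hfin : ∀ α : A, FiniteDimensional ℂ (sec (TB.tw M c 1 fun i => α.1 i)) :=
    fun α => (hN α.1 α.2).1
  have hinj : Function.Injective (coeffMap u c d M A) := by
    rw [injective_iff_map_eq_zero]
    intro G hG
    apply Subtype.ext
    funext v
    ext α
    change coeff α (G.1 v) = 0
    by_contra h
    have h1 := hA G.1 G.2 v α h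
    have h2 : coeff α (G.1 v) = 0 := congrFun (congrArg Subtype.val (congrFun hG ⟨α, h1⟩)) v
    exact h h2
  refine ⟨FiniteDimensional.of_injective _ hinj, ?_⟩
  refine (LinearMap.finrank_le_finrank_of_injective hinj).trans ?_
  rw [Module.finrank_pi_fintype]
  calc ∑ α : A, Module.finrank ℂ (sec (TB.tw M c 1 fun i => α.1 i)) ≤ ∑ _α : A, N :=
        Finset.sum_le_sum fun α _ => (hN α.1 α.2).2
    _ = A.card * N := by
        rw [Finset.sum_const, Finset.card_univ, Fintype.card_coe, smul_eq_mul]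

omit [Fintype ι] in
/-- The integral tests. -/
theorem exists_tst [FiniteDimensional ℂ V] (hΓ : IsTorusQuotient Γ) {L : LineBundle Γ}
    {c : ι → LineBundle Γ} {H : V → V → ℂ} {Hc : ι → V → V → ℂ} (hL : IsChernForm L H)
    (hc : ∀ i, IsChernForm (c i) (Hc i)) :
    ∃ (X Y : Refls Γ → V) (tL : Refls Γ → ℤ) (tc : ι → Refls Γ → ℤ),
      (∀ g, (H (X g) (Y g)).im = tL g) ∧ (∀ i g, (Hc i (X g) (Y g)).im = tc i g) ∧
      (∀ (A : LineBundle Γ) (HA : V → V → ℂ), IsChernForm A HA →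
        ∃ tA : Refls Γ → ℤ, ∀ g, (HA (X g) (Y g)).im = tA g) ∧
      ∀ H' : V → V → ℂ, IsHermitian H' →
        ((∀ a ∈ roots Γ, 0 ≤ (H' a a).re) ↔ ∀ g, 0 ≤ (H' (X g) (Y g)).im) := by
  obtain ⟨X, Y, hX, hY, ht⟩ := exists_tests hΓ
  have hint : ∀ {L : LineBundle Γ} {H : V → V → ℂ}, IsChernForm L H → ∀ g : Refls Γ,
      ∃ t : ℤ, (H (X g) (Y g)).im = t := by
    intro L H hc g
    obtain ⟨hH, F, hF, hFe⟩ := hc
    exact im_int hH ⟨hF, hFe⟩ (hX g) (hY g)
  choose tL htL using hint hL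
  choose tc htc using fun i => hint (hc i)
  refine ⟨X, Y, tL, tc, htL, htc, fun A HA hA => ?_, ht⟩
  choose tA htA using hint hA
  exact ⟨tA, htA⟩

omit [Fintype ι] [NormedAddCommGroup V] [NormedSpace ℂ V] in
theorem im_int_mul (k : ℤ) (z : ℂ) : ((k : ℂ) * z).im = k * z.im := by
  have : ((k : ℤ) : ℂ) = ((k : ℝ) : ℂ) := by push_cast; rfl
  rw [this, Complex.im_ofReal_mul]

theorem re_int_mul (k : ℤ) (z : ℂ) : ((k : ℂ) * z).re = k * z.re := by
  have : ((k : ℤ) : ℂ) = ((k : ℝ) : ℂ) := by push_cast; rfl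
  rw [this, Complex.re_ofReal_mul]

theorem re_nat_mul (k : ℕ) (z : ℂ) : ((k : ℂ) * z).re = k * z.re := by
  have : ((k : ℕ) : ℂ) = ((k : ℝ) : ℂ) := by push_cast; rfl
  rw [this, Complex.re_ofReal_mul]

/-- The classes of the coefficients are near the cone. -/
theorem mem_near [FiniteDimensional ℂ V] (hΓ : IsTorusQuotient Γ) {u : ι → Fin n → ℤ}
    {L A : LineBundle Γ}
    {c : ι → LineBundle Γ} {H HA : V → V → ℂ} {Hc : ι → V → V → ℂ} (hL : IsChernForm L H)
    (hc : ∀ i, IsChernForm (c i) (Hc i)) (hA : IsChernForm A HA) {X Y : Refls Γ → V}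
    {tL tA : Refls Γ → ℤ} {tc : ι → Refls Γ → ℤ} (htL : ∀ g, (H (X g) (Y g)).im = tL g)
    (htc : ∀ i g, (Hc i (X g) (Y g)).im = tc i g) (htA : ∀ g, (HA (X g) (Y g)).im = tA g)
    (ht : ∀ H' : V → V → ℂ, IsHermitian H' →
        ((∀ a ∈ roots Γ, 0 ≤ (H' a a).re) ↔ ∀ g, 0 ≤ (H' (X g) (Y g)).im))
    {d b : ι → ℤ} {ε : ℕ} (hε1 : ∀ i, |b i| ≤ ε) (hε2 : ∀ g, |tA g - ∑ i, b i * tc i g| ≤ ε)
    {k : ℕ} {G : V → MvPolynomial ι ℂ}
    (hG : IsSection u c (fun i => k * d i + b i) (tensor (L.pow k) A).e G) {v : V} {α : ι →₀ ℕ}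
    (hα : coeff α (G v) ≠ 0) :
    ∃ x : ℤ × (Fin n → ℤ), x.1 = k ∧ (∀ i, (α i : ℤ) = al u d x i + b i) ∧
      ∀ j, -(ε : ℤ) ≤ tst u d tL tc x j := by
  obtain ⟨m, hm⟩ := hG.deg v α (mem_support_iff.2 hα)
  have hx : ∀ i, (α i : ℤ) = al u d ((k : ℤ), m) i + b i := by
    intro i
    have h1 : (α i : ℤ) = k * d i + b i + ∑ l, m l * u i l := hm i
    rw [h1, al]
    ring
  refine ⟨((k : ℤ), m), rfl, hx, ?_⟩
  have hch := chern_tw (Q47.KN.chern_tensor hL hA k) hc 1 fun i => α i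
  have hn := nef_of_section hΓ hch (coeff_section hG α) ⟨v, hα⟩
  have h2 := (ht _ hch.1).1 fun a _ => hn a
  rintro (i | g)
  · rw [tst_inl]
    have h3 := abs_le.1 (hε1 i)
    have h4 := hx i
    have h5 : (0 : ℤ) ≤ α i := Int.natCast_nonneg _
    linarith [h3.2]
  · rw [tst_inr]
    have h3 := h2 g
    have h4 : (((1 : ℕ) : ℂ) * ((k : ℂ) * H (X g) (Y g) + HA (X g) (Y g)
        - ∑ i, (α i : ℂ) * Hc i (X g) (Y g))).im
        = k * tL g + tA g - ∑ i, (α i : ℝ) * tc i g := by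
      have e1 : ∀ (j : ℕ) (z : ℂ), ((j : ℂ) * z).im = j * z.im := fun j z => by
        have : ((j : ℕ) : ℂ) = ((j : ℝ) : ℂ) := by push_cast; rfl
        rw [this, Complex.im_ofReal_mul]
      rw [Nat.cast_one, one_mul, Complex.sub_im, Complex.add_im, Complex.im_sum, e1, htL, htA]
      simp only [e1, htc]
    have h5 : (0 : ℝ) ≤ k * tL g + tA g - ∑ i, (α i : ℝ) * tc i g := by
      rw [← h4]
      exact h3
    have h6 : (0 : ℤ) ≤ k * tL g + tA g - ∑ i, (α i : ℤ) * tc i g := by exact_mod_cast h5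
    simp only [hx, add_mul, Finset.sum_add_distrib] at h6
    have h7 := abs_le.1 (hε2 g)
    change -(ε : ℤ) ≤ (k : ℤ) * tL g - _
    linarith [h7.2]

end Q47.TK
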