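import Pool.Agent.Q47.KN.Main

/-!
# A uniform upper bound for the number of sections
-/

set_option autoImplicit false

namespace Q47.TK

open Pool.Agent.W594.SYZ2 Pool.Agent.W594.SYZ2.TQ Pool.Agent.TH735.AQ Q47.EB Q47.MM Q47.KN
open Pool.Agent.Helper857 Filter Topology

variable {V : Type*} [NormedAddCommGroup V] [NormedSpace ℂ V]
variable {Γ : Subgroup (V ≃ᵃ[ℂ] V)}

/-- Nets with `O (j ^ k)` points. -/
theorem net [FiniteDimensional ℂ V] {k : ℕ} (π : V →ₗ[ℂ] (Fin k → ℂ))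
    (σ : (Fin k → ℂ) →ₗ[ℂ] V) (hσ' : ∀ y, π (σ y) = y) {p p' : ℝ} (hp : 0 < p) (hp' : 0 < p')
    (C : ℝ) :
    ∃ D : ℕ, ∀ j : ℕ, 1 ≤ j → ∃ S : Finset V, S.card ≤ D * j ^ k ∧ ∀ v, ‖v‖ ≤ C →
      ∃ c ∈ S, j * (p * ‖σ (π (v - c))‖ ^ 2) ≤ 1 / 2 ∧ p' * ‖v - c‖ ^ 2 ≤ 1 / 2 := by
  classical
  have : ProperSpace V := FiniteDimensional.proper ℂ V
  set nσ := ‖LinearMap.toContinuousLinearMap σ‖ with hnσ
  have hnσ0 : 0 ≤ nσ := norm_nonneg _
  have hσn : ∀ y, ‖σ y‖ ≤ nσ * ‖y‖ := fun y =>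
    (LinearMap.toContinuousLinearMap σ).le_opNorm y
  set nπ := ‖LinearMap.toContinuousLinearMap π‖ with hnπ
  have hnπ0 : 0 ≤ nπ := norm_nonneg _
  have hπn : ∀ v, ‖π v‖ ≤ nπ * ‖v‖ := fun v =>
    (LinearMap.toContinuousLinearMap π).le_opNorm v
  let C' := |C|
  have hC' : 0 ≤ C' := abs_nonneg C
  obtain ⟨D, hD⟩ := exists_grid k (nπ * C')
  set δ : ℝ := 1 / (8 * p' + 1) with hδ
  have hδ0 : 0 < δ := by positivity
  have hδ1 : δ ≤ 1 := by
    rw [hδ, div_le_one (by positivity)]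
    linarith
  have hδ2 : p' * (2 * δ) ^ 2 ≤ 1 / 2 := by
    have h1 : δ ^ 2 ≤ δ := by nlinarith
    have h2 : p' * δ ≤ 1 / 8 := by
      rw [hδ, mul_one_div, div_le_div_iff₀ (by positivity) (by norm_num)]
      linarith
    nlinarith
  -- the kernel part
  let K0 : Set V := {z | π z = 0 ∧ ‖z‖ ≤ C' + nσ * (nπ * C')}
  have hK0 : IsCompact K0 := by
    have h1 : K0 = Metric.closedBall 0 (C' + nσ * (nπ * C')) ∩ {z | π z = 0} := by
      ext z
      simp only [K0, Set.mem_setOf_eq, Set.mem_inter_iff, mem_closedBall_zero_iff]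
      exact and_comm
    rw [h1]
    refine (isCompact_closedBall _ _).inter_right (isClosed_eq ?_ continuous_const)
    exact (LinearMap.toContinuousLinearMap π).continuous
  obtain ⟨T, hTs, hTf, hT⟩ := hK0.finite_cover_balls hδ0
  obtain ⟨s0, hs0⟩ := exists_nat_ge (nσ / δ + 2 * p * nσ ^ 2 + 1)
  have hnσδ : 0 ≤ nσ / δ := by positivity
  have hpσ : 0 ≤ 2 * p * nσ ^ 2 := by positivity
  have hs1 : (1 : ℝ) ≤ s0 := by linarith
  have hs1' : 1 ≤ s0 := by exact_mod_cast hs1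
  have hs2 : nσ / δ ≤ s0 := by linarith
  have hs3 : 2 * p * nσ ^ 2 ≤ s0 := by linarith
  refine ⟨hTf.toFinset.card * (D * s0 ^ (2 * k) * 4 ^ k), fun j hj => ?_⟩
  set r := Nat.sqrt j + 1 with hr
  have hr1 : 1 ≤ r := Nat.succ_pos _
  have hrj : j ≤ r ^ 2 := by
    have := Nat.lt_succ_sqrt j
    rw [Nat.succ_eq_add_one, ← hr] at this
    rw [pow_two]
    exact this.le
  have hrj' : r ^ 2 ≤ 4 * j := by
    have h1 := Nat.sqrt_le j
    have h2 : 1 ≤ Nat.sqrt j := Nat.le_sqrt.2 (by simpa using hj)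
    rw [hr, pow_two]
    nlinarith
  have hq : 1 ≤ s0 * r := Nat.mul_pos hs1' hr1
  obtain ⟨G, hG, hGn⟩ := hD (s0 * r) hq
  have hq0 : (0 : ℝ) < ((s0 * r : ℕ) : ℝ) := by exact_mod_cast hq
  refine ⟨(hTf.toFinset ×ˢ G).image fun a => a.1 + σ a.2, ?_, ?_⟩
  · refine Finset.card_image_le.trans ?_
    rw [Finset.card_product, mul_assoc]
    refine Nat.mul_le_mul le_rfl (hG.trans ?_)
    rw [mul_pow, mul_assoc D, mul_assoc D, mul_assoc, ← mul_pow 4 j]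
    refine Nat.mul_le_mul le_rfl (Nat.mul_le_mul le_rfl ?_)
    rw [pow_mul]
    exact Nat.pow_le_pow_left hrj' k
  · intro v hv
    have hvC : ‖v‖ ≤ C' := hv.trans (le_abs_self C)
    have hπv : ‖π v‖ ≤ nπ * C' := (hπn v).trans (mul_le_mul_of_nonneg_left hvC hnπ0)
    obtain ⟨g, hg, hgn⟩ := hGn (π v) hπv
    have hz : v - σ (π v) ∈ K0 := by
      refine ⟨by rw [map_sub, hσ', sub_self], ?_⟩
      refine (norm_sub_le _ _).trans (add_le_add hvC ?_)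
      exact (hσn _).trans (mul_le_mul_of_nonneg_left hπv hnσ0)
    have h1 := hT hz
    simp only [Set.mem_iUnion, Metric.mem_ball] at h1
    obtain ⟨t, ht, htd⟩ := h1
    rw [dist_eq_norm] at htd
    refine ⟨t + σ g, Finset.mem_image.2 ⟨(t, g), Finset.mem_product.2
      ⟨hTf.mem_toFinset.2 ht, hg⟩, rfl⟩, ?_⟩
    set z := v - σ (π v) - t with hz'
    set y := π v - g with hy
    have hx : v - (t + σ g) = z + σ y := by
      rw [hz', hy, map_sub]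
      abel
    have hzk : π z = 0 := by
      rw [hz', map_sub, map_sub, hσ', sub_self, (hTs ht).1, sub_self]
    have hπx : π (v - (t + σ g)) = y := by
      rw [hx, map_add, hzk, hσ', zero_add]
    have hyn : ‖σ y‖ ≤ nσ / ((s0 * r : ℕ) : ℝ) := by
      refine (hσn y).trans ?_
      rw [div_eq_mul_one_div]
      exact mul_le_mul_of_nonneg_left hgn hnσ0
    have hr1' : (1 : ℝ) ≤ r := by exact_mod_cast hr1
    have hyn1 : ‖σ y‖ ≤ δ := by
      refine hyn.trans ?_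
      rw [div_le_iff₀ hq0]
      rw [div_le_iff₀ hδ0] at hs2
      push_cast
      nlinarith
    constructor
    · rw [hπx]
      have h3 : ‖σ y‖ ^ 2 ≤ nσ ^ 2 / ((s0 * r : ℕ) : ℝ) ^ 2 := by
        rw [← div_pow]
        exact pow_le_pow_left₀ (norm_nonneg _) hyn 2
      have h4 : (j : ℝ) ≤ (r : ℝ) ^ 2 := by exact_mod_cast hrj
      have h5 : (j : ℝ) * (p * ‖σ y‖ ^ 2)
          ≤ (r : ℝ) ^ 2 * (p * (nσ ^ 2 / ((s0 * r : ℕ) : ℝ) ^ 2)) :=
        mul_le_mul h4 (mul_le_mul_of_nonneg_left h3 hp.le) (by positivity) (by positivity)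
      refine h5.trans ?_
      have h6 : (r : ℝ) ^ 2 * (p * (nσ ^ 2 / ((s0 * r : ℕ) : ℝ) ^ 2)) = p * nσ ^ 2 / s0 ^ 2 := by
        push_cast
        have : (r : ℝ) ≠ 0 := by positivity
        have : (s0 : ℝ) ≠ 0 := by positivity
        field_simp
      rw [h6, div_le_div_iff₀ (by positivity) (by norm_num)]
      nlinarith
    · rw [hx]
      refine (mul_le_mul_of_nonneg_left ?_ hp'.le).trans hδ2
      refine pow_le_pow_left₀ (norm_nonneg _) ((norm_add_le _ _).trans ?_) 2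
      linarith

/-- The uniform upper bound. -/
theorem upper_unif [FiniteDimensional ℂ V] (hΓ : IsTorusQuotient Γ) {k : ℕ}
    (π : V →ₗ[ℂ] (Fin k → ℂ)) (σ : (Fin k → ℂ) →ₗ[ℂ] V) (hσ' : ∀ y, π (σ y) = y) {p p' : ℝ}
    (hp : 0 < p) (hp' : 0 < p') :
    ∃ D : ℕ, ∀ j : ℕ, 1 ≤ j → ∀ (M : LineBundle Γ) (H : V → V → ℂ), IsChernForm M H →
      (∀ x, |(H x x).re| ≤ j * (p * ‖σ (π x)‖ ^ 2) + p' * ‖x‖ ^ 2) →
        FiniteDimensional ℂ (sec M) ∧ h0 M ≤ D * j ^ k := by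
  obtain ⟨C, hC⟩ := cobounded (latt Γ) hΓ.span_top
  obtain ⟨D, hD⟩ := net π σ hσ' hp hp' C
  refine ⟨D * jd 16 (Module.finrank ℂ V), fun j hj M H hM hb => ?_⟩
  obtain ⟨hH, F, hF, hFe⟩ := hM
  obtain ⟨S, hS, hSn⟩ := hD j hj
  have h1 := finrank_sec_le (M := M) S 16 fun s hs hv =>
    zero_of_jets hH ⟨hF, hFe⟩ hC (S := (S : Set V))
      (fun v hv => by
        obtain ⟨c, hc, h1, h2⟩ := hSn v hv
        exact ⟨c, hc, (hb _).trans (by linarith)⟩) hs (fun c hc => hv c hc)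
  refine ⟨h1.1, h1.2.trans ?_⟩
  calc S.card * jd 16 (Module.finrank ℂ V) ≤ D * j ^ k * jd 16 (Module.finrank ℂ V) :=
        Nat.mul_le_mul hS le_rfl
    _ = D * jd 16 (Module.finrank ℂ V) * j ^ k := by ring

end Q47.TK
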