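import Pool.Agent.Q47.TK.SecY

/-!
# The upper bound for the number of sections on a toric bundle
-/

set_option autoImplicit false

namespace Q47.TK

open Pool.Agent.W594.SYZ2 Pool.Agent.W594.SYZ2.TQ Pool.Agent.TH735.AQ MvPolynomial Q47.EB Q47.KN
open Q47.TB
open Q47.MM (nef_of_section Inv inv_of_chern roots exists_tests Refls nef_of_roots)

variable {V : Type*} [NormedAddCommGroup V] [NormedSpace ℂ V] {Γ : Subgroup (V ≃ᵃ[ℂ] V)}
  {ι : Type*} [Fintype ι] {n : ℕ}

omit [NormedAddCommGroup V] [NormedSpace ℂ V] in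
theorem form_sum (u : ι → Fin n → ℤ) (d : ι → ℤ) (H : V → V → ℂ) (Hc : ι → V → V → ℂ)
    (B : Finset (ℤ × (Fin n → ℤ))) (v w : V) :
    form u d H Hc (∑ b ∈ B, b) v w = ∑ b ∈ B, form u d H Hc b v w := by
  have h1 := form_comb u d H Hc B (fun _ => 1) id v w
  simpa using h1

omit [NormedAddCommGroup V] [NormedSpace ℂ V] in
theorem form_zero (u : ι → Fin n → ℤ) (d : ι → ℤ) (H : V → V → ℂ) (Hc : ι → V → V → ℂ)
    (v w : V) : form u d H Hc 0 v w = 0 := by
  simp [form, al]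

/-- The common kernel. -/
theorem ker_of_sum {u : ι → Fin n → ℤ} {d : ι → ℤ} {H : V → V → ℂ} {Hc : ι → V → V → ℂ}
    (hH : IsHermitian H) (hc : ∀ i, IsHermitian (Hc i)) {B : Finset (ℤ × (Fin n → ℤ))}
    (hnB : ∀ b ∈ B, IsNefForm (form u d H Hc b)) {v : V}
    (hv : ∀ w, form u d H Hc (∑ b ∈ B, b) v w = 0) {b : ℤ × (Fin n → ℤ)} (hb : b ∈ B) (w : V) :
    form u d H Hc b v w = 0 := by
  have h1 : ∑ b ∈ B, (form u d H Hc b v v).re = 0 := by
    rw [← Complex.re_sum, ← form_sum, hv v, Complex.zero_re]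
  have h2 := (Finset.sum_eq_zero_iff_of_nonneg fun b hb => hnB b hb v).1 h1 b hb
  exact h_isotropic (form_herm hH hc b) (hnB b hb) v h2 w

variable [FiniteDimensional ℂ V]

omit [FiniteDimensional ℂ V] in
theorem herm_add' {H HA : V → V → ℂ} (hH : IsHermitian H) (hA : IsHermitian HA) :
    IsHermitian fun v w => H v w + HA v w := by
  have h1 := herm_comb hH hA 1
  simpa using h1

/-- The upper bound for the number of the sections. -/
theorem upperY (hΓ : IsTorusQuotient Γ) {u : ι → Fin n → ℤ}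
    {L A : LineBundle Γ}
    {c : ι → LineBundle Γ} {H HA : V → V → ℂ} {Hc : ι → V → V → ℂ} (hL : IsChernForm L H)
    (hc : ∀ i, IsChernForm (c i) (Hc i)) (hA : IsChernForm A HA) {X Y : Refls Γ → V}
    {tL : Refls Γ → ℤ} {tc : ι → Refls Γ → ℤ} (htL : ∀ g, (H (X g) (Y g)).im = tL g)
    (htc : ∀ i g, (Hc i (X g) (Y g)).im = tc i g)
    (htA : ∃ tA : Refls Γ → ℤ, ∀ g, (HA (X g) (Y g)).im = tA g)
    (ht : ∀ H' : V → V → ℂ, IsHermitian H' →
        ((∀ a ∈ roots Γ, 0 ≤ (H' a a).re) ↔ ∀ g, 0 ≤ (H' (X g) (Y g)).im))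
    {d b : ι → ℤ} {B : Finset (ℤ × (Fin n → ℤ))} (hB : ∀ b ∈ B, 0 ≤ b.1)
    (hB0 : ∀ b ∈ B, b.1 = 0 → b = 0) (hne : ∃ b ∈ B, b ≠ 0)
    (hnB : ∀ b ∈ B, IsNefForm (form u d H Hc b))
    (hgen : ∀ ε : ℕ, ∃ W : Finset (ℤ × (Fin n → ℤ)), (∀ w ∈ W, 0 ≤ w.1) ∧
        ∀ x : ℤ × (Fin n → ℤ), 0 ≤ x.1 → (∀ j, -(ε : ℤ) ≤ tst u d tL tc x j) →
          ∃ w ∈ W, ∃ μ : ℤ × (Fin n → ℤ) → ℕ, x = ∑ b ∈ B, μ b • b + w) :
    ∃ D : ℕ, ∀ k : ℕ, 1 ≤ k →
      FiniteDimensional ℂ (secY u c (fun i => k * d i + b i) (tensor (L.pow k) A).e) ∧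
      Module.finrank ℂ (secY u c (fun i => k * d i + b i) (tensor (L.pow k) A).e)
        ≤ D * k ^ (sdim B + rank (form_herm (u := u) (d := d) hL.1 (fun i => (hc i).1)
          (∑ b ∈ B, b))) := by
  classical
  have := finite_Lin hΓ
  obtain ⟨R, ⟨eR⟩⟩ := Finite.exists_equiv_fin (Refls Γ)
  have hRf : Fintype (Refls Γ) := Fintype.ofFinite _
  obtain ⟨tA, htA⟩ := htA
  -- the constant
  let ε : ℕ := ∑ i, (b i).natAbs + ∑ g, (tA g - ∑ i, b i * tc i g).natAbs
  have hε1 : ∀ i, |b i| ≤ ε := by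
    intro i
    have h1 : (b i).natAbs ≤ ∑ i, (b i).natAbs :=
      Finset.single_le_sum (f := fun i => (b i).natAbs) (fun _ _ => Nat.zero_le _)
        (Finset.mem_univ i)
    rw [Int.abs_eq_natAbs]
    exact_mod_cast h1.trans (Nat.le_add_right _ _)
  have hε2 : ∀ g, |tA g - ∑ i, b i * tc i g| ≤ ε := by
    intro g
    have h1 : (tA g - ∑ i, b i * tc i g).natAbs ≤ ∑ g, (tA g - ∑ i, b i * tc i g).natAbs :=
      Finset.single_le_sum (f := fun g => (tA g - ∑ i, b i * tc i g).natAbs)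
        (fun _ _ => Nat.zero_le _) (Finset.mem_univ g)
    rw [Int.abs_eq_natAbs]
    exact_mod_cast h1.trans (Nat.le_add_left _ _)
  obtain ⟨W, hW, hWg⟩ := hgen ε
  obtain ⟨D₁, hD₁⟩ := near_count hB hB0 hne hW hWg
  set hst := form_herm (u := u) (d := d) hL.1 (fun i => (hc i).1) (∑ b ∈ B, b) with hhst
  obtain ⟨π, hsurj, hker⟩ := Q47.KN.exists_proj hst
  obtain ⟨σ, hσ⟩ := LinearMap.exists_rightInverse_of_surjective π (LinearMap.range_eq_top.2 hsurj)
  have hσ' : ∀ y, π (σ y) = y := fun y => LinearMap.congr_fun hσ y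
  have hf : ∀ x, IsHermitian (form u d H Hc x) := form_herm hL.1 fun i => (hc i).1
  let κ : V → V → ℂ := fun v w => HA v w - ∑ i, (b i : ℂ) * Hc i v w
  have hκ : IsHermitian κ := by
    refine ⟨fun a v w => ?_, fun a v w => ?_, fun v w => ?_⟩
    · simp only [κ, hA.1.add_left, (hc _).1.add_left, mul_add, Finset.sum_add_distrib]
      ring
    · simp only [κ, hA.1.smul_left, (hc _).1.smul_left, mul_sub, Finset.mul_sum]
      congr 1
      exact Finset.sum_congr rfl fun i _ => by ring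
    · simp only [κ, map_sub, map_mul, map_sum, map_intCast, ← hA.1.symm, ← (hc _).1.symm]
  choose p hp hpb using fun x => herm_bound (hf x)
  choose p' hp' hpb' using fun x => herm_bound (herm_add' (hf x) hκ)
  have hP : 0 < ∑ b ∈ B, p b + 1 := by
    have : 0 ≤ ∑ b ∈ B, p b := Finset.sum_nonneg fun b _ => (hp b).le
    linarith
  have hP' : 0 < ∑ w ∈ W, p' w + 1 := by
    have : 0 ≤ ∑ w ∈ W, p' w := Finset.sum_nonneg fun b _ => (hp' b).le
    linarith
  obtain ⟨D₂, hD₂⟩ := upper_unif hΓ π σ hσ' hP hP'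
  refine ⟨D₁ * D₂, fun k hk => ?_⟩
  obtain ⟨Xk, hXk, hXc⟩ := hD₁ k hk
  -- the exponents
  let ex : ℤ × (Fin n → ℤ) → (ι →₀ ℕ) := fun x =>
    Finsupp.equivFunOnFinite.symm fun i => (al u d x i + b i).toNat
  have hres := finrank_secY_le (u := u) (c := c) (d := fun i => k * d i + b i)
    (M := tensor (L.pow k) A)
    ((Xk.filter fun x => ∀ i, 0 ≤ al u d x i + b i).image ex) (fun G hG v α hα => ?_)
    (N := D₂ * k ^ rank hst) (fun α hα => ?_)
  · refine ⟨hres.1, hres.2.trans ?_⟩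
    calc _ ≤ (D₁ * k ^ sdim B) * (D₂ * k ^ rank hst) :=
          Nat.mul_le_mul (Finset.card_image_le.trans ((Finset.card_filter_le _ _).trans hXc)) le_rfl
      _ = D₁ * D₂ * k ^ (sdim B + rank hst) := by rw [pow_add]; ring
  · obtain ⟨x, hx1, hx2, hx3⟩ := mem_near hΓ hL hc hA htL htc htA ht hε1 hε2 hG hα
    refine Finset.mem_image.2 ⟨x, Finset.mem_filter.2 ⟨(hXk x).2 ⟨hx1, hx3⟩, fun i => ?_⟩, ?_⟩
    · rw [← hx2 i]
      exact Int.natCast_nonneg _
    · ext i
      simp only [ex, Finsupp.equivFunOnFinite_symm_apply_apply]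
      rw [← hx2 i]
      rfl
  · obtain ⟨x, hx, rfl⟩ := Finset.mem_image.1 hα
    obtain ⟨hx1, hx2⟩ := Finset.mem_filter.1 hx
    obtain ⟨hx3, hx4⟩ := (hXk x).1 hx1
    have hch := chern_tw (Q47.KN.chern_tensor hL hA k) hc 1 fun i => ex x i
    refine hD₂ k hk _ _ hch fun v => ?_
    obtain ⟨w, hw, μ, hμ⟩ := hWg x (by rw [hx3]; exact Int.natCast_nonneg _) hx4
    have hex : ∀ i, ((ex x i : ℕ) : ℂ) = (al u d x i : ℂ) + (b i : ℂ) := by
      intro i
      simp only [ex, Finsupp.equivFunOnFinite_symm_apply_apply]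
      have h1 : (((al u d x i + b i).toNat : ℕ) : ℤ) = al u d x i + b i :=
        Int.toNat_of_nonneg (hx2 i)
      have h2 : (((al u d x i + b i).toNat : ℕ) : ℂ) = ((al u d x i + b i : ℤ) : ℂ) := by
        exact_mod_cast congrArg (fun z : ℤ => (z : ℂ)) h1
      rw [h2]
      push_cast
      ring
    have e1 : ((1 : ℕ) : ℂ) * ((k : ℂ) * H v v + HA v v - ∑ i, (ex x i : ℂ) * Hc i v v)
        = ∑ b ∈ B, (μ b : ℂ) * form u d H Hc b v v + (form u d H Hc w v v + κ v v) := by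
      have h1 : form u d H Hc x v v + κ v v
          = ((1 : ℕ) : ℂ) * ((k : ℂ) * H v v + HA v v - ∑ i, (ex x i : ℂ) * Hc i v v) := by
        simp only [hex, form, κ, hx3, add_mul, Finset.sum_add_distrib]
        push_cast
        ring
      rw [← h1, ← add_assoc]
      congr 1
      conv_lhs => rw [hμ]
      rw [form_add]
      congr 1
      exact form_comb u d H Hc B μ id v v
    rw [e1, Complex.add_re, Complex.re_sum]
    refine (abs_add_le _ _).trans (add_le_add ?_ ?_)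
    · refine (Finset.abs_sum_le_sum_abs _ _).trans ?_
      have h2 : ∀ b ∈ B, |((μ b : ℂ) * form u d H Hc b v v).re|
          ≤ k * (p b * ‖σ (π v)‖ ^ 2) := by
        intro b hb
        rw [re_nat_mul, abs_mul, Nat.abs_cast]
        by_cases hb0 : b = 0
        · rw [hb0, form_zero, Complex.zero_re, abs_zero, mul_zero]
          have := (hp 0).le
          positivity
        have h3 : (μ b : ℤ) ≤ k := by
          have h4 : x.1 = ∑ b ∈ B, (μ b : ℤ) * b.1 + w.1 := by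
            conv_lhs => rw [hμ]
            rw [Prod.fst_add, fst_comb]
          have h5 : (μ b : ℤ) * b.1 ≤ ∑ b ∈ B, (μ b : ℤ) * b.1 :=
            Finset.single_le_sum (f := fun b => (μ b : ℤ) * b.1)
              (fun b hb => mul_nonneg (Int.natCast_nonneg _) (hB b hb)) hb
          have h6 : 1 ≤ b.1 := by
            have := hB b hb
            have : b.1 ≠ 0 := fun h => hb0 (hB0 b hb h)
            omega
          have h7 := hW w hw
          rw [hx3] at h4
          nlinarith [Int.natCast_nonneg (μ b)]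
        have h3' : (μ b : ℝ) ≤ k := by exact_mod_cast h3
        refine mul_le_mul h3' ?_ (abs_nonneg _) (Nat.cast_nonneg _)
        have hz : π (v - σ (π v)) = 0 := by rw [map_sub, hσ', sub_self]
        have hkz := fun w => ker_of_sum hL.1 (fun i => (hc i).1) hnB (hker _ hz) hb w
        have h8 : (form u d H Hc b v v).re = (form u d H Hc b (σ (π v)) (σ (π v))).re := by
          have h9 : v = (v - σ (π v)) + σ (π v) := by abel
          conv_lhs => rw [h9]
          rw [h_diag_add (hf b), hkz, hkz, Complex.zero_re, zero_add, mul_zero, add_zero]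
        rw [h8]
        exact hpb b _
      refine (Finset.sum_le_sum h2).trans ?_
      rw [← Finset.mul_sum, ← Finset.sum_mul]
      have h3 : 0 ≤ ‖σ (π v)‖ ^ 2 := sq_nonneg _
      refine mul_le_mul_of_nonneg_left ?_ (Nat.cast_nonneg _)
      nlinarith
    · refine (hpb' w v).trans ?_
      have h2 : p' w ≤ ∑ w ∈ W, p' w :=
        Finset.single_le_sum (f := fun w => p' w) (fun w _ => (hp' w).le) hw
      have h3 : 0 ≤ ‖v‖ ^ 2 := sq_nonneg _
      nlinarith

end Q47.TK
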