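import Pool.Agent.Q47.TK.Final

/-!
# Zariski decompositions on toric bundles
-/

set_option autoImplicit false

namespace Q47.TK

open Pool.Agent.W594.SYZ2 Pool.Agent.W594.SYZ2.TQ Pool.Agent.TH735.AQ MvPolynomial Q47.EB Q47.KN
open Q47.TB Filter
open Q47.MM (nef_of_section Inv inv_of_chern roots exists_tests Refls nef_of_roots cone_decomp)

variable {V : Type*} [NormedAddCommGroup V] [NormedSpace ℂ V] {Γ : Subgroup (V ≃ᵃ[ℂ] V)}
  {ι : Type*} [Fintype ι] {n : ℕ}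

/-- Monomials with larger exponents. -/
theorem mono_le {p : ι → ℝ} {R : ℝ} (hp : ∀ i, 0 ≤ p i) (hR : ∀ i, p i ≤ R) (h1 : 1 ≤ R)
    {a b : ι → ℕ} (h : ∀ i, b i ≤ a i) {s : ℕ} (hs : ∑ i, a i ≤ s) :
    ∏ i, p i ^ a i ≤ R ^ s * ∏ i, p i ^ b i := by
  have h2 : ∀ i, p i ^ a i ≤ R ^ a i * p i ^ b i := by
    intro i
    have h3 : p i ^ a i = p i ^ (a i - b i) * p i ^ b i := by
      rw [← pow_add, Nat.sub_add_cancel (h i)]
    rw [h3]
    refine mul_le_mul_of_nonneg_right ?_ (pow_nonneg (hp i) _)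
    exact (pow_le_pow_left₀ (hp i) (hR i) _).trans (pow_le_pow_right₀ h1 (Nat.sub_le _ _))
  calc ∏ i, p i ^ a i ≤ ∏ i, R ^ a i * p i ^ b i :=
        Finset.prod_le_prod (fun i _ => pow_nonneg (hp i) _) fun i _ => h2 i
    _ = R ^ (∑ i, a i) * ∏ i, p i ^ b i := by
        rw [Finset.prod_mul_distrib, Finset.prod_pow_eq_pow_sum]
    _ ≤ _ := mul_le_mul_of_nonneg_right (pow_le_pow_right₀ h1 hs)
        (Finset.prod_nonneg fun i _ => pow_nonneg (hp i) _)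

/-- Monomials with exponents near the cone. -/
theorem near_bound {u : ι → Fin n → ℤ} {d : ι → ℤ} {B : Finset (ℤ × (Fin n → ℤ))}
    (hB : ∀ b ∈ B, 0 ≤ b.1) (hBal : ∀ b ∈ B, ∀ i, 0 ≤ al u d b i)
    {W : Finset (ℤ × (Fin n → ℤ))} (hW : ∀ w ∈ W, 0 ≤ w.1) (a₀ : ι → ℕ)
    (N : ℕ) (β : ι → ℤ) :
    ∃ C : ℕ, ∀ k : ℕ, ∀ R : ℝ, ∃ C' : ℝ, 0 ≤ C' ∧ ∀ (p : ι → ℝ) (T : ℝ), (∀ i, 0 ≤ p i) →
      (∀ i, p i ≤ R) → 0 ≤ T → ∏ i, p i ^ a₀ i ≤ T →
      (∀ b ∈ B, ∏ i, p i ^ (N * (al u d b i).toNat) ≤ T ^ b.1.toNat) →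
      ∀ x : ℤ × (Fin n → ℤ), x.1 = k →
        (∃ w ∈ W, ∃ μ : ℤ × (Fin n → ℤ) → ℕ, x = ∑ b ∈ B, μ b • b + w) →
        ∀ e : ι → ℕ, (∀ i, (e i : ℤ) = al u d x i + β i) →
          (∏ i, p i ^ e i) ^ N * ∏ i, p i ^ C ≤ C' * T ^ k := by
  classical
  obtain ⟨C₁, hC₁⟩ : ∃ C₁ : ℕ, ∀ w ∈ W, ∀ i, N * (al u d w i + β i).natAbs ≤ C₁ := by
    refine ⟨∑ w ∈ W, ∑ i, N * (al u d w i + β i).natAbs, fun w hw i => ?_⟩
    refine le_trans ?_ (Finset.single_le_sum (f := fun w => ∑ i, N * (al u d w i + β i).natAbs)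
      (fun _ _ => Nat.zero_le _) hw)
    exact Finset.single_le_sum (f := fun i => N * (al u d w i + β i).natAbs)
      (fun _ _ => Nat.zero_le _) (Finset.mem_univ i)
  obtain ⟨C₂, hC₂⟩ : ∃ C₂ : ℕ, ∀ w ∈ W, ∀ i, a₀ i * w.1.toNat ≤ C₂ := by
    refine ⟨∑ w ∈ W, ∑ i, a₀ i * w.1.toNat, fun w hw i => ?_⟩
    refine le_trans ?_ (Finset.single_le_sum
      (f := fun w : ℤ × (Fin n → ℤ) => ∑ i, a₀ i * w.1.toNat)
      (fun _ _ => Nat.zero_le _) hw)
    exact Finset.single_le_sum (f := fun i => a₀ i * w.1.toNat)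
      (fun _ _ => Nat.zero_le _) (Finset.mem_univ i)
  refine ⟨C₁ + C₂, fun k R => ?_⟩
  set R' := max R 1 with hR'
  have hR'1 : 1 ≤ R' := le_max_right _ _
  set s := Fintype.card ι * (2 * C₁ + C₂) with hs
  have hRs : (0 : ℝ) ≤ R' ^ s := by positivity
  refine ⟨R' ^ s * R' ^ s, mul_nonneg hRs hRs, fun p T hp0 hpR hT ha₀ hb x hx ⟨w, hw, μ, hμ⟩
    e he => ?_⟩
  have hpR' : ∀ i, p i ≤ R' := fun i => (hpR i).trans (le_max_left _ _)
  -- the remainder
  let r : ι → ℕ := fun i => ((N : ℤ) * (al u d w i + β i) + C₁).toNat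
  have hr : ∀ i, (r i : ℤ) = N * (al u d w i + β i) + C₁ := by
    intro i
    refine Int.toNat_of_nonneg ?_
    have h1 := hC₁ w hw i
    have h2 : -(((al u d w i + β i).natAbs : ℕ) : ℤ) ≤ al u d w i + β i := by
      rw [← Int.abs_eq_natAbs]
      exact neg_abs_le _
    have h3 : ((N * (al u d w i + β i).natAbs : ℕ) : ℤ) ≤ C₁ := by exact_mod_cast h1
    push_cast at h3
    have h4 : (0 : ℤ) ≤ N := Int.natCast_nonneg _
    have h5 := mul_le_mul_of_nonneg_left h2 h4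
    rw [Int.natCast_natAbs] at h5
    linarith
  have hrle : ∀ i, r i ≤ 2 * C₁ := by
    intro i
    have h1 := hC₁ w hw i
    have h2 : al u d w i + β i ≤ (((al u d w i + β i).natAbs : ℕ) : ℤ) := by
      rw [← Int.abs_eq_natAbs]
      exact le_abs_self _
    have h3 : ((N * (al u d w i + β i).natAbs : ℕ) : ℤ) ≤ C₁ := by exact_mod_cast h1
    push_cast at h3
    have h4 : (0 : ℤ) ≤ N := Int.natCast_nonneg _
    have h5 := mul_le_mul_of_nonneg_left h2 h4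
    rw [Int.natCast_natAbs] at h5
    have h6 := hr i
    have h7 : (r i : ℤ) ≤ 2 * C₁ := by linarith
    exact_mod_cast h7
  have hsum : ∀ i, N * e i + C₁ = ∑ b ∈ B, N * (al u d b i).toNat * μ b + r i := by
    intro i
    have h1 : al u d x i = ∑ b ∈ B, (μ b : ℤ) * al u d b i + al u d w i := by
      rw [hμ, al_add]
      congr 1
      exact al_comb u d B μ id i
    have h2 : ((N * e i + C₁ : ℕ) : ℤ)
        = ((∑ b ∈ B, N * (al u d b i).toNat * μ b + r i : ℕ) : ℤ) := by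
      rw [Nat.cast_add, Nat.cast_add, Nat.cast_mul, he i, hr i, h1, Nat.cast_sum]
      have h3 : ∑ b ∈ B, ((N * (al u d b i).toNat * μ b : ℕ) : ℤ)
          = N * ∑ b ∈ B, (μ b : ℤ) * al u d b i := by
        rw [Finset.mul_sum]
        refine Finset.sum_congr rfl fun b hb => ?_
        rw [Nat.cast_mul, Nat.cast_mul, Int.toNat_of_nonneg (hBal b hb i)]
        ring
      rw [h3]
      ring
    exact_mod_cast h2
  have hk : (k : ℤ) = ∑ b ∈ B, (μ b : ℤ) * b.1 + w.1 := by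
    rw [← hx, hμ, Prod.fst_add, fst_comb]
  have hkn : k = ∑ b ∈ B, b.1.toNat * μ b + w.1.toNat := by
    have h1 : ((∑ b ∈ B, b.1.toNat * μ b + w.1.toNat : ℕ) : ℤ)
        = ∑ b ∈ B, (μ b : ℤ) * b.1 + w.1 := by
      rw [Nat.cast_add, Int.toNat_of_nonneg (hW w hw), Nat.cast_sum]
      congr 1
      refine Finset.sum_congr rfl fun b hb => ?_
      rw [Nat.cast_mul, Int.toNat_of_nonneg (hB b hb)]
      ring
    rw [← hk] at h1
    exact_mod_cast h1.symm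
  -- the two factors
  have h1 : ∏ i, p i ^ (∑ b ∈ B, N * (al u d b i).toNat * μ b) ≤ T ^ (∑ b ∈ B, b.1.toNat * μ b) := by
    have h2 : ∏ i, p i ^ (∑ b ∈ B, N * (al u d b i).toNat * μ b)
        = ∏ b ∈ B, (∏ i, p i ^ (N * (al u d b i).toNat)) ^ μ b := by
      have h3 : ∀ i, p i ^ (∑ b ∈ B, N * (al u d b i).toNat * μ b)
          = ∏ b ∈ B, (p i ^ (N * (al u d b i).toNat)) ^ μ b := by
        intro i
        rw [← Finset.prod_pow_eq_pow_sum]
        exact Finset.prod_congr rfl fun b _ => pow_mul _ _ _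
      simp only [h3]
      rw [Finset.prod_comm]
      exact Finset.prod_congr rfl fun b _ => Finset.prod_pow _ _ _
    rw [h2, ← Finset.prod_pow_eq_pow_sum]
    refine Finset.prod_le_prod (fun b _ => pow_nonneg
      (Finset.prod_nonneg fun i _ => pow_nonneg (hp0 i) _) _) fun b hb' => ?_
    rw [pow_mul]
    exact pow_le_pow_left₀ (Finset.prod_nonneg fun i _ => pow_nonneg (hp0 i) _) (hb b hb') _
  have h2 : ∏ i, p i ^ C₂ ≤ R' ^ s * T ^ w.1.toNat := by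
    have h3 := mono_le hp0 hpR' hR'1 (a := fun _ => C₂)
      (b := fun i => a₀ i * w.1.toNat) (fun i => hC₂ w hw i) (s := s) (by
        rw [Finset.sum_const, Finset.card_univ, smul_eq_mul, hs]
        exact Nat.mul_le_mul le_rfl (by omega))
    refine h3.trans (mul_le_mul_of_nonneg_left ?_ hRs)
    have h4 : ∏ i, p i ^ (a₀ i * w.1.toNat) = (∏ i, p i ^ a₀ i) ^ w.1.toNat := by
      rw [← Finset.prod_pow]
      exact Finset.prod_congr rfl fun i _ => pow_mul _ _ _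
    rw [h4]
    exact pow_le_pow_left₀ (Finset.prod_nonneg fun i _ => pow_nonneg (hp0 i) _) ha₀ _
  have h3 : ∏ i, p i ^ r i ≤ R' ^ s := by
    have h4 := mono_le hp0 hpR' hR'1 (a := r) (b := fun _ => 0) (fun i => Nat.zero_le _) (s := s) (by
        refine (Finset.sum_le_sum fun i _ => hrle i).trans ?_
        rw [Finset.sum_const, Finset.card_univ, smul_eq_mul, hs]
        exact Nat.mul_le_mul le_rfl (by omega))
    simpa using h4
  have h4 : (∏ i, p i ^ e i) ^ N * ∏ i, p i ^ (C₁ + C₂)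
      = (∏ i, p i ^ (∑ b ∈ B, N * (al u d b i).toNat * μ b)) * (∏ i, p i ^ r i) *
        ∏ i, p i ^ C₂ := by
    rw [← Finset.prod_pow, ← Finset.prod_mul_distrib, ← Finset.prod_mul_distrib,
      ← Finset.prod_mul_distrib]
    refine Finset.prod_congr rfl fun i _ => ?_
    rw [← pow_mul, ← pow_add, ← pow_add, ← pow_add]
    congr 1
    have := hsum i
    rw [← this]
    ring
  rw [h4]
  have hP : ∀ a : ι → ℕ, 0 ≤ ∏ i, p i ^ a i := fun a =>
    Finset.prod_nonneg fun i _ => pow_nonneg (hp0 i) _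
  calc _ ≤ T ^ (∑ b ∈ B, b.1.toNat * μ b) * R' ^ s * (R' ^ s * T ^ w.1.toNat) :=
        mul_le_mul (mul_le_mul h1 h3 (hP _) (pow_nonneg hT _)) h2 (hP _)
          (mul_nonneg (pow_nonneg hT _) hRs)
    _ = R' ^ s * R' ^ s * T ^ (∑ b ∈ B, b.1.toNat * μ b + w.1.toNat) := by
        rw [pow_add]
        ring
    _ = _ := by rw [← hkn]

/-- Real monomials of the polytope. -/
theorem real_bound {u : ι → Fin n → ℤ} {d : ι → ℤ} {B : Finset (ℤ × (Fin n → ℤ))}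
    (hB : ∀ b ∈ B, 0 ≤ b.1) (hBal : ∀ b ∈ B, ∀ i, 0 ≤ al u d b i) (N : ℕ) {p : ι → ℝ} {T : ℝ}
    (hp : ∀ i, 0 ≤ p i) (hT : 0 ≤ T)
    (hb : ∀ b ∈ B, ∏ i, p i ^ (N * (al u d b i).toNat) ≤ T ^ b.1.toNat)
    {κ : Type*} [Fintype κ] {r : κ → ℝ} {x : κ → ℤ × (Fin n → ℤ)} (hr : ∀ k, 0 ≤ r k)
    (hx : ∀ k, ∃ μ : ℤ × (Fin n → ℤ) → ℕ, x k = ∑ b ∈ B, μ b • b)
    (hs : ∑ k, r k * (x k).1 = 1) {β : ι → ℝ} (hβ : ∀ i, β i = ∑ k, r k * (al u d (x k) i : ℝ)) :
    ∏ i, p i ^ (N * β i : ℝ) ≤ T := by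
  classical
  choose μ hμ using hx
  let c : ℤ × (Fin n → ℤ) → ℝ := fun b => ∑ k, r k * μ k b
  have hc : ∀ b, 0 ≤ c b := fun b => Finset.sum_nonneg fun k _ =>
    mul_nonneg (hr k) (Nat.cast_nonneg _)
  have h1 : ∑ b ∈ B, (b.1.toNat : ℝ) * c b = 1 := by
    rw [← hs]
    simp only [c, Finset.mul_sum]
    rw [Finset.sum_comm]
    refine Finset.sum_congr rfl fun k _ => ?_
    have h2 : ((x k).1 : ℝ) = ∑ b ∈ B, (μ k b : ℝ) * (b.1.toNat : ℝ) := by
      have h3 : (x k).1 = ∑ b ∈ B, (μ k b : ℤ) * b.1 := by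
        rw [hμ k, fst_comb]
      rw [h3]
      push_cast
      refine Finset.sum_congr rfl fun b hb => ?_
      congr 1
      have := Int.toNat_of_nonneg (hB b hb)
      exact_mod_cast this.symm
    rw [h2, Finset.mul_sum]
    exact Finset.sum_congr rfl fun b _ => by ring
  have h2 : ∀ i, (N * β i : ℝ) = ∑ b ∈ B, ((N * (al u d b i).toNat : ℕ) : ℝ) * c b := by
    intro i
    rw [hβ i]
    simp only [c, Finset.mul_sum]
    rw [Finset.sum_comm]
    refine Finset.sum_congr rfl fun k _ => ?_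
    have h3 : (al u d (x k) i : ℝ) = ∑ b ∈ B, (μ k b : ℝ) * ((al u d b i).toNat : ℝ) := by
      have h4 : al u d (x k) i = ∑ b ∈ B, (μ k b : ℤ) * al u d b i := by
        rw [hμ k]
        exact al_comb u d B (μ k) id i
      rw [h4]
      push_cast
      refine Finset.sum_congr rfl fun b hb => ?_
      congr 1
      have := Int.toNat_of_nonneg (hBal b hb i)
      exact_mod_cast this.symm
    rw [h3, Finset.mul_sum, Finset.mul_sum]
    refine Finset.sum_congr rfl fun b _ => ?_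
    push_cast
    ring
  have h3 : ∀ i, p i ^ (N * β i : ℝ)
      = ∏ b ∈ B, (p i ^ (N * (al u d b i).toNat)) ^ c b := by
    intro i
    rw [h2 i, Real.rpow_sum_of_nonneg (hp i) fun b _ => mul_nonneg (Nat.cast_nonneg _) (hc b)]
    refine Finset.prod_congr rfl fun b _ => ?_
    rw [Real.rpow_mul (hp i), Real.rpow_natCast]
  simp only [h3]
  rw [Finset.prod_comm]
  calc ∏ b ∈ B, ∏ i, (p i ^ (N * (al u d b i).toNat)) ^ c b
      ≤ ∏ b ∈ B, T ^ ((b.1.toNat : ℝ) * c b) := by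
        refine Finset.prod_le_prod (fun b _ => Finset.prod_nonneg fun i _ =>
          Real.rpow_nonneg (pow_nonneg (hp i) _) _) fun b hb' => ?_
        rw [Real.finsetProd_rpow _ _ fun i _ => pow_nonneg (hp i) _, Real.rpow_mul hT,
          Real.rpow_natCast]
        exact Real.rpow_le_rpow (Finset.prod_nonneg fun i _ => pow_nonneg (hp i) _) (hb b hb')
          (hc b)
    _ = T := by
        rw [← Real.rpow_sum_of_nonneg hT fun b _ => mul_nonneg (Nat.cast_nonneg _) (hc b), h1,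
          Real.rpow_one]

/-- The sections which generate the positive part. -/
theorem exists_secs [FiniteDimensional ℂ V] (hΓ : IsTorusQuotient Γ) {u : ι → Fin n → ℤ}
    {L : LineBundle Γ} {c : ι → LineBundle Γ} {d : ι → ℤ} {B : Finset (ℤ × (Fin n → ℤ))}
    (hB : ∀ b ∈ B, 0 ≤ b.1) (hBal : ∀ b ∈ B, ∀ i, 0 ≤ al u d b i)
    (hB0 : ∀ b ∈ B, b.1 = 0 → b = 0)
    (hsemi : ∀ b ∈ B, b ≠ 0 → ∃ E : ℕ, 1 ≤ E ∧
      GG ((lb L c b.1.toNat fun i => (al u d b i).toNat).pow E)) :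
    ∃ (N r : ℕ) (G : Fin r → V → MvPolynomial ι ℂ), 1 ≤ N ∧
      (∀ j, IsSection u c (fun i => N * d i) (L.pow N).e (G j)) ∧
      (∀ j, ∃ b ∈ B, b ≠ 0 ∧ ∃ (a : ι → ℕ) (s : V → ℂ),
        (∀ i, (a i : ℤ) * b.1 = N * al u d b i) ∧ ∀ v x, eval x (G j v) = s v * ∏ i, x i ^ a i) ∧
      ∀ K : Set V, IsCompact K → ∃ D : ℝ, 1 ≤ D ∧ ∀ v ∈ K, ∀ x : ι → ℂ, ∀ b ∈ B, b ≠ 0 →
        ∃ a : ι → ℕ, (∀ i, (a i : ℤ) * b.1 = N * al u d b i) ∧
          ∏ i, ‖x i‖ ^ a i ≤ D * ∑ j, ‖eval x (G j v)‖ := by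
  classical
  let B' : Type := {b // b ∈ B ∧ b ≠ 0}
  have hfin : Finite B' := by
    have : Finite {b // b ∈ B} := inferInstance
    exact Finite.of_injective (fun b : B' => (⟨b.1, b.2.1⟩ : {b // b ∈ B})) fun b b' h => by
      have h1 : b.1 = b'.1 := congrArg (fun z : {b // b ∈ B} => z.1) h
      exact Subtype.ext h1
  have hft : Fintype B' := Fintype.ofFinite _
  choose E hE hg using fun b : B' => hsemi b.1 b.2.1 b.2.2
  have hpos : ∀ b : B', 1 ≤ b.1.1.toNat := by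
    intro b
    have h1 := hB b.1 b.2.1
    have h2 : b.1.1 ≠ 0 := fun h => b.2.2 (hB0 b.1 b.2.1 h)
    omega
  set N := ∏ b : B', E b * b.1.1.toNat with hN
  have hN1 : 1 ≤ N := Finset.prod_pos fun b _ => Nat.mul_pos (hE b) (hpos b)
  have hdiv : ∀ b : B', ∃ t : ℕ, N = E b * t * b.1.1.toNat := by
    intro b
    obtain ⟨t, ht⟩ := Finset.dvd_prod_of_mem (fun b : B' => E b * b.1.1.toNat) (Finset.mem_univ b)
    exact ⟨t, by rw [hN, ht]; ring⟩
  choose t ht using hdiv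
  let A : B' → ι → ℕ := fun b i => E b * t b * (al u d b.1 i).toNat
  have hA : ∀ b i, (A b i : ℤ) = al u d ((E b * t b) • b.1) i := fun b i =>
    toNat_al_smul (hBal b.1 b.2.1 i)
  have hx1 : ∀ b : B', ((E b * t b) • b.1).1 = N := by
    intro b
    have h1 : ((b.1.1.toNat : ℕ) : ℤ) = b.1.1 := Int.toNat_of_nonneg (hB b.1 b.2.1)
    rw [Prod.smul_fst, nsmul_eq_mul, ← h1]
    exact_mod_cast (ht b).symm
  have hAk : ∀ b : B', ∀ i, (A b i : ℤ) * b.1.1 = N * al u d b.1 i := by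
    intro b i
    have h1 : ((b.1.1.toNat : ℕ) : ℤ) = b.1.1 := Int.toNat_of_nonneg (hB b.1 b.2.1)
    have h2 : (N : ℤ) = E b * t b * b.1.1 := by
      rw [← h1]
      exact_mod_cast ht b
    simp only [A]
    rw [Nat.cast_mul, Nat.cast_mul, Int.toNat_of_nonneg (hBal b.1 b.2.1 i), h2]
    ring
  have hgg : ∀ b : B', GG (lb L c N (A b)) := by
    intro b
    have h1 := (hg b).mul (Dvd.intro (t b) rfl : E b ∣ E b * t b)
    rw [lb_pow] at h1
    rw [← ht b] at h1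
    exact h1
  choose tf s hs hs0 using fun b : B' => finite_gg hΓ (hgg b)
  let e : Fin (Fintype.card (Σ b : B', tf b)) ≃ (Σ b : B', tf b) := (Fintype.equivFin _).symm
  let G₀ : (Σ b : B', tf b) → V → MvPolynomial ι ℂ := fun j v =>
    monomial (Finsupp.equivFunOnFinite.symm (A j.1)) (s j.1 j.2 v)
  have heval : ∀ (j : Σ b : B', tf b) v (x : ι → ℂ), eval x (G₀ j v) = s j.1 j.2 v * ∏ i, x i ^ A j.1 i := by
    intro j v x
    simp only [G₀]
    rw [eval_monomial]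
    congr 1
    rw [Finsupp.prod_fintype _ _ fun i => pow_zero _]
    rfl
  refine ⟨N, _, fun j => G₀ (e j), hN1, fun j => ?_, fun j => ?_, fun K hK => ?_⟩
  · refine isSection_mono ⟨((E (e j).1 * t (e j).1) • (e j).1.1).2, fun i => ?_⟩ (hs _ _)
    have h1 := hA (e j).1 i
    rw [al, hx1] at h1
    exact h1
  · exact ⟨(e j).1.1, (e j).1.2.1, (e j).1.2.2, A (e j).1, s (e j).1 (e j).2, hAk _, heval _⟩
  · -- the lower bounds
    have hlow : ∀ b : B', ∃ δ : ℝ, 0 < δ ∧ ∀ v ∈ K, δ ≤ ∑ j : tf b, ‖s b j v‖ := by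
      intro b
      rcases K.eq_empty_or_nonempty with rfl | hne
      · exact ⟨1, one_pos, fun v hv => absurd hv (Set.notMem_empty v)⟩
      have hcont : ContinuousOn (fun v => ∑ j : tf b, ‖s b j v‖) K :=
        (continuous_finsetSum _ fun j _ => (hs b j).holo.continuous.norm).continuousOn
      obtain ⟨v₀, hv₀, hmin⟩ := hK.exists_isMinOn hne hcont
      refine ⟨∑ j : tf b, ‖s b j v₀‖, ?_, fun v hv => hmin hv⟩
      obtain ⟨j, hj⟩ := hs0 b v₀
      exact Finset.sum_pos' (fun j _ => norm_nonneg _) ⟨j, Finset.mem_univ j, norm_pos_iff.2 hj⟩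
    choose δ hδ hδb using hlow
    refine ⟨1 + ∑ b, (δ b)⁻¹, ?_, fun v hv x b hb hb0 => ?_⟩
    · have : 0 ≤ ∑ b, (δ b)⁻¹ := Finset.sum_nonneg fun b _ => (inv_pos.2 (hδ b)).le
      linarith
    · let b' : B' := ⟨b, hb, hb0⟩
      refine ⟨A b', hAk b', ?_⟩
      have h1 : ∑ j, ‖eval x (G₀ (e j) v)‖ = ∑ j : (Σ b : B', tf b), ‖eval x (G₀ j v)‖ :=
        Equiv.sum_comp e fun j => ‖eval x (G₀ j v)‖
      have h2 : ∑ j : (Σ b : B', tf b), ‖eval x (G₀ j v)‖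
          = ∑ b : B', (∑ j : tf b, ‖s b j v‖) * ∏ i, ‖x i‖ ^ A b i := by
        rw [Fintype.sum_sigma]
        refine Finset.sum_congr rfl fun b _ => ?_
        rw [Finset.sum_mul]
        refine Finset.sum_congr rfl fun j _ => ?_
        rw [heval, norm_mul, norm_prod]
        simp only [norm_pow]
      rw [h1, h2]
      have hP : ∀ b : B', 0 ≤ ∏ i, ‖x i‖ ^ A b i := fun b =>
        Finset.prod_nonneg fun i _ => pow_nonneg (norm_nonneg _) _
      have h3 : (∑ j : tf b', ‖s b' j v‖) * ∏ i, ‖x i‖ ^ A b' i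
          ≤ ∑ b : B', (∑ j : tf b, ‖s b j v‖) * ∏ i, ‖x i‖ ^ A b i :=
        Finset.single_le_sum (f := fun b : B' => (∑ j : tf b, ‖s b j v‖) * ∏ i, ‖x i‖ ^ A b i)
          (fun b _ => mul_nonneg (Finset.sum_nonneg fun j _ => norm_nonneg _) (hP b))
          (Finset.mem_univ b')
      have h4 : δ b' * ∏ i, ‖x i‖ ^ A b' i ≤ (∑ j : tf b', ‖s b' j v‖) * ∏ i, ‖x i‖ ^ A b' i :=
        mul_le_mul_of_nonneg_right (hδb b' v hv) (hP b')
      have h5 : (δ b')⁻¹ ≤ 1 + ∑ b, (δ b)⁻¹ := by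
        have := Finset.single_le_sum (f := fun b => (δ b)⁻¹) (fun b _ => (inv_pos.2 (hδ b)).le)
          (Finset.mem_univ b')
        linarith
      have h6 : ∏ i, ‖x i‖ ^ A b' i = (δ b')⁻¹ * (δ b' * ∏ i, ‖x i‖ ^ A b' i) := by
        rw [← mul_assoc, inv_mul_cancel₀ (hδ b').ne', one_mul]
      rw [h6]
      exact mul_le_mul h5 (h4.trans h3) (mul_nonneg (hδ b').le (hP b'))
        (by linarith [(inv_pos.2 (hδ b')).le])

end Q47.TK
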