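import Pool.Agent.Q47.TK.Zar

/-!
# Zariski decompositions on toric bundles: the theorem
-/

set_option autoImplicit false

namespace Q47.TK

open Pool.Agent.W594.SYZ2 Pool.Agent.W594.SYZ2.TQ Pool.Agent.TH735.AQ MvPolynomial Q47.EB Q47.KN
open Q47.TB Filter
open Q47.MM (nef_of_section Inv inv_of_chern roots exists_tests Refls nef_of_roots cone_decomp)

variable {V : Type*} [NormedAddCommGroup V] [NormedSpace ℂ V] {Γ : Subgroup (V ≃ᵃ[ℂ] V)}
  {ι : Type*} [Fintype ι] {n : ℕ}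

theorem sum_pow_le {κ : Type*} (s : Finset κ) {f : κ → ℝ} (hf : ∀ a ∈ s, 0 ≤ f a) {N : ℕ}
    (hN : 1 ≤ N) {P M : ℝ} (hP : 0 ≤ P) (h : ∀ a ∈ s, f a ^ N * P ≤ M) :
    (∑ a ∈ s, f a) ^ N * P ≤ (s.card : ℝ) ^ N * M := by
  rcases s.eq_empty_or_nonempty with rfl | hne
  · have hN' : N ≠ 0 := by omega
    simp [zero_pow hN']
  obtain ⟨a₀, ha₀, hmax⟩ := Finset.exists_max_image s f hne
  have h1 : ∑ a ∈ s, f a ≤ s.card * f a₀ := by
    have := Finset.sum_le_card_nsmul s f (f a₀) hmax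
    rwa [nsmul_eq_mul] at this
  calc (∑ a ∈ s, f a) ^ N * P ≤ (s.card * f a₀) ^ N * P :=
        mul_le_mul_of_nonneg_right (pow_le_pow_left₀ (Finset.sum_nonneg hf) h1 N) hP
    _ = (s.card : ℝ) ^ N * (f a₀ ^ N * P) := by ring
    _ ≤ _ := mul_le_mul_of_nonneg_left (h a₀ ha₀) (by positivity)

/-- The value of a polynomial. -/
theorem norm_eval_le {p : MvPolynomial ι ℂ} {A : Finset (ι →₀ ℕ)}
    (hA : ∀ α, coeff α p ≠ 0 → α ∈ A) (x : ι → ℂ) :
    ‖eval x p‖ ≤ ∑ α ∈ A, ‖coeff α p‖ * ∏ i, ‖x i‖ ^ α i := by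
  classical
  have h1 : eval x p = ∑ α ∈ A, coeff α p * ∏ i, x i ^ α i := by
    rw [eval_eq']
    refine Finset.sum_subset (fun α hα => hA α (mem_support_iff.1 hα)) fun α _ hα => ?_
    rw [notMem_support_iff.1 hα, zero_mul]
  rw [h1]
  refine (norm_sum_le _ _).trans (Finset.sum_le_sum fun α _ => ?_)
  rw [norm_mul, norm_prod]
  simp only [norm_pow]
  exact le_rfl

variable [FiniteDimensional ℂ V]

/-- The decomposition. -/
theorem zar (hΓ : IsTorusQuotient Γ) {ρ : V → ℂ} (hρ : IsRamification Γ ρ)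
    {u : ι → Fin n → ℤ} {S : Set (Set ι)} (hS : IsSmoothFan u S)
    {c : ι → LineBundle Γ} {Hc : ι → V → V → ℂ} (hc : ∀ i, IsChernForm (c i) (Hc i))
    {m : ℕ} {d : ι → ℤ} {F : V → MvPolynomial ι ℂ} {L : LineBundle Γ}
    {H : V → V → ℂ} (hL : IsChernForm L H) (hF : TB.IsLogPluricanonical u c m ρ d F L)
    (T : Finset (ι →₀ ℕ)) (hT : ∀ α ∈ T, ∃ v, coeff α (F v) ≠ 0)
    (hw : ∀ a : ι → ℕ, {i | a i ≠ 0} ∈ S → ∃ α ∈ T, ∑ i, a i * α i ≤ m * ∑ i, a i)
    (hpne : (pol u (fun i => d i - m) H Hc).Nonempty) :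
    ∃ (N r : ℕ) (G : Fin r → V → MvPolynomial ι ℂ), 1 ≤ N ∧
      (∀ j, IsSection u c (fun i => N * (d i - m)) (L.pow N).e (G j)) ∧
      (∀ j, ∃ (a : ι → ℕ) (s : V → ℂ), (fun i => (a i : ℝ) / N) ∈ pol u (fun i => d i - m) H Hc ∧
        ∀ v x, eval x (G j v) = s v * ∏ i, x i ^ a i) ∧
      (∀ K : Set (V × (ι → ℂ)), IsCompact K → ∃ C : ℝ, ∀ p ∈ K,
        ∀ β ∈ pol u (fun i => d i - m) H Hc,
          ∏ i, ‖p.2 i‖ ^ (N * β i : ℝ) ≤ C * ∑ j, ‖eval p.2 (G j p.1)‖) ∧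
      ∀ (A : LineBundle Γ) (HA : V → V → ℂ), IsChernForm A HA → ∀ b : ι → ℤ, ∃ C : ℕ,
        ∀ k : ℕ, 1 ≤ k → ∀ G' : V → MvPolynomial ι ℂ,
          IsSection u c (fun i => k * (d i - m) + b i) (tensor (L.pow k) A).e G' →
            ∀ K : Set (V × (ι → ℂ)), IsCompact K → ∃ C' : ℝ, ∀ p ∈ K,
              ‖eval p.2 (G' p.1)‖ ^ N * ∏ i, ‖p.2 i‖ ^ C ≤
                C' * (∑ j, ‖eval p.2 (G j p.1)‖) ^ k := by
  classical
  have := finite_Lin hΓ
  have hRf : Fintype (Refls Γ) := Fintype.ofFinite _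
  obtain ⟨X, Y, tL, tc, htL, htc, htA, ht⟩ := exists_tst hΓ hL hc
  obtain ⟨B, hB, hBg, hBW⟩ := gens (tst u (fun i => d i - m) tL tc)
    (tst_inj hS (d := fun i => d i - m) tL tc)
  have hsemi := semi_of_pair hΓ hρ hS hc hL hF T hT hw htL htc ht
  have hB1 : ∀ b ∈ B, 0 ≤ b.1 := fun b hb => (hB b hb).1
  have hBal : ∀ b ∈ B, ∀ i, 0 ≤ al u (fun i => d i - m) b i := fun b hb i =>
    (hB b hb).2 (Sum.inl i)
  have hB0 : ∀ b ∈ B, b.1 = 0 → b = 0 := fun b hb h => eq_zero_of_nonneg hS h (hBal b hb)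
  have hBpos : ∀ b ∈ B, b ≠ 0 → 0 < b.1 := fun b hb h =>
    lt_of_le_of_ne (hB b hb).1 fun h' => h (hB0 b hb h'.symm)
  -- real points
  have hreal : ∀ β ∈ pol u (fun i => d i - m) H Hc,
      ∃ (κ : Type) (_ : Fintype κ) (r : κ → ℝ) (x : κ → ℤ × (Fin n → ℤ)), (∀ k, 0 < r k) ∧
        (∀ k, ∃ μ : ℤ × (Fin n → ℤ) → ℕ, x k = ∑ b ∈ B, μ b • b) ∧ ∑ k, r k * (x k).1 = 1 ∧
        ∀ i, β i = ∑ k, r k * (al u (fun i => d i - m) (x k) i : ℝ) := by
    rintro β ⟨hβ0, ⟨q, hq⟩, hn⟩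
    have hh := herm_real hL.1 (fun i => (hc i).1) β
    have him : ∀ g, 0 ≤ (tL g : ℝ)
        - ∑ i, (((d i - m : ℤ) : ℝ) + ∑ k, q k * u i k) * tc i g := by
      intro g
      have h1 := (ht _ hh).1 (fun a _ => hn a) g
      have h2 : (H (X g) (Y g) - ∑ i, (β i : ℂ) * Hc i (X g) (Y g)).im
          = tL g - ∑ i, β i * tc i g := by
        rw [Complex.sub_im, Complex.im_sum, htL]
        simp only [Complex.im_ofReal_mul, htc]
      rw [h2] at h1
      simp only [hq] at h1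
      exact h1
    obtain ⟨κ, hκ, r, x, hr, hx1, hxt, hs1, hs2⟩ := real_decomp u (fun i => d i - m) tL tc q
      (fun i => by rw [← hq]; exact hβ0 i) him
    refine ⟨κ, hκ, r, x, hr, fun k => hBg (x k) (hx1 k) (hxt k), hs1, fun i => ?_⟩
    rw [hq i]
    have h1 : ∀ k, r k * (al u (fun i => d i - m) (x k) i : ℝ)
        = r k * (x k).1 * ((d i - m : ℤ) : ℝ) + ∑ l, r k * (x k).2 l * u i l := by
      intro k
      rw [al]
      push_cast
      rw [mul_add, Finset.mul_sum, mul_assoc]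
      congr 1
      exact Finset.sum_congr rfl fun l _ => by ring
    simp only [h1]
    rw [Finset.sum_add_distrib, ← Finset.sum_mul, hs1, one_mul, Finset.sum_comm]
    congr 1
    refine Finset.sum_congr rfl fun l _ => ?_
    rw [← hs2 l, Finset.sum_mul]
  have hne : ∃ b ∈ B, b ≠ 0 := by
    by_contra hne
    push Not at hne
    obtain ⟨β, hβ⟩ := hpne
    obtain ⟨κ, _, r, x, hr, hx, hs, -⟩ := hreal β hβ
    have h1 : ∀ k, x k = 0 := by
      intro k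
      obtain ⟨μ, hμ⟩ := hx k
      rw [hμ]
      exact Finset.sum_eq_zero fun b hb => by rw [hne b hb, smul_zero]
    simp only [h1] at hs
    simp at hs
  obtain ⟨N, r, G, hN, hGs, hGm, hGb⟩ := exists_secs hΓ hB1 hBal hB0 fun b hb hb0 =>
    (hsemi b (hBpos b hb hb0) (hB b hb).2).2
  obtain ⟨b₀, hb₀, hb₀0⟩ := id hne
  let a₀ : ι → ℕ := fun i => (N * al u (fun i => d i - m) b₀ i / b₀.1).toNat
  have ha₀ : ∀ a : ι → ℕ, (∀ i, (a i : ℤ) * b₀.1 = N * al u (fun i => d i - m) b₀ i) →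
      a = a₀ := by
    intro a ha
    funext i
    simp only [a₀]
    rw [← ha i, Int.mul_ediv_cancel _ (hBpos b₀ hb₀ hb₀0).ne', Int.toNat_natCast]
  -- the bounds at a point
  have hbound : ∀ K : Set V, IsCompact K → ∃ D : ℝ, 1 ≤ D ∧ ∀ v ∈ K, ∀ x : ι → ℂ,
      ∏ i, ‖x i‖ ^ a₀ i ≤ D * ∑ j, ‖eval x (G j v)‖ ∧
      ∀ b ∈ B, ∏ i, ‖x i‖ ^ (N * (al u (fun i => d i - m) b i).toNat)
        ≤ (D * ∑ j, ‖eval x (G j v)‖) ^ b.1.toNat := by
    intro K hK
    obtain ⟨D, hD, h⟩ := hGb K hK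
    refine ⟨D, hD, fun v hv x => ⟨?_, fun b hb => ?_⟩⟩
    · obtain ⟨a, ha1, ha2⟩ := h v hv x b₀ hb₀ hb₀0
      rw [ha₀ a ha1] at ha2
      exact ha2
    · by_cases hb0 : b = 0
      · rw [hb0]
        simp [al]
      · obtain ⟨a, ha1, ha2⟩ := h v hv x b hb hb0
        have h2 : ∏ i, ‖x i‖ ^ (N * (al u (fun i => d i - m) b i).toNat)
            = (∏ i, ‖x i‖ ^ a i) ^ b.1.toNat := by
          rw [← Finset.prod_pow]
          refine Finset.prod_congr rfl fun i _ => ?_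
          rw [← pow_mul]
          congr 1
          have h3 : ((N * (al u (fun i => d i - m) b i).toNat : ℕ) : ℤ)
              = ((a i * b.1.toNat : ℕ) : ℤ) := by
            rw [Nat.cast_mul, Nat.cast_mul, Int.toNat_of_nonneg (hBal b hb i),
              Int.toNat_of_nonneg (hB1 b hb), ha1 i]
          exact_mod_cast h3
        rw [h2]
        exact pow_le_pow_left₀ (Finset.prod_nonneg fun i _ => pow_nonneg (norm_nonneg _) _) ha2 _
  have hS0 : ∀ (v : V) (x : ι → ℂ), 0 ≤ ∑ j, ‖eval x (G j v)‖ := fun v x =>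
    Finset.sum_nonneg fun j _ => norm_nonneg _
  refine ⟨N, r, G, hN, hGs, fun j => ?_, fun K hK => ?_, fun A HA hA b => ?_⟩
  · obtain ⟨b, hb, hb0, a, s, ha, hs⟩ := hGm j
    refine ⟨a, s, ?_, hs⟩
    have h1 := mem_pol_of_cone (hBpos b hb hb0) (hBal b hb)
      (hsemi b (hBpos b hb hb0) (hB b hb).2).1
    have h2 : (fun i => (a i : ℝ) / N) = (b.1 : ℝ)⁻¹ • alR u (fun i => d i - m) (vec b) := by
      funext i
      rw [Pi.smul_apply, alR_vec, smul_eq_mul]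
      have hNR : (N : ℝ) ≠ 0 := by positivity
      have hbR : (b.1 : ℝ) ≠ 0 := by exact_mod_cast (hBpos b hb hb0).ne'
      have h3 : (a i : ℝ) * b.1 = N * al u (fun i => d i - m) b i := by exact_mod_cast ha i
      field_simp
      linarith
    rw [h2]
    exact h1
  · obtain ⟨D, hD, h⟩ := hbound _ (hK.image continuous_fst)
    refine ⟨D, fun p hp β hβ => ?_⟩
    obtain ⟨κ, _, r, x, hr, hx, hs, hβ⟩ := hreal β hβ
    exact real_bound hB1 hBal N (fun i => norm_nonneg _)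
      (mul_nonneg (by linarith) (hS0 _ _)) (h p.1 ⟨p, hp, rfl⟩ p.2).2 (fun k => (hr k).le) hx hs hβ
  · obtain ⟨tA, htA'⟩ := htA A HA hA
    let ε : ℕ := ∑ i, (b i).natAbs + ∑ g, (tA g - ∑ i, b i * tc i g).natAbs
    have hε1 : ∀ i, |b i| ≤ ε := by
      intro i
      have h1 : (b i).natAbs ≤ ∑ i, (b i).natAbs :=
        Finset.single_le_sum (f := fun i => (b i).natAbs) (fun _ _ => Nat.zero_le _)
          (Finset.mem_univ i)
      rw [Int.abs_eq_natAbs]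
      exact_mod_cast h1.trans (Nat.le_add_right _ _)
    have hε2 : ∀ g, |tA g - ∑ i, b i * tc i g| ≤ ε := by
      intro g
      have h1 : (tA g - ∑ i, b i * tc i g).natAbs ≤ ∑ g, (tA g - ∑ i, b i * tc i g).natAbs :=
        Finset.single_le_sum (f := fun g => (tA g - ∑ i, b i * tc i g).natAbs)
          (fun _ _ => Nat.zero_le _) (Finset.mem_univ g)
      rw [Int.abs_eq_natAbs]
      exact_mod_cast h1.trans (Nat.le_add_left _ _)
    obtain ⟨W, hW, hWg⟩ := hBW ε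
    obtain ⟨D₁, hD₁⟩ := near_count hB1 hB0 hne hW hWg
    obtain ⟨C, hC⟩ := near_bound (u := u) (d := fun i => d i - m) hB1 hBal hW a₀ N b
    refine ⟨C, fun k hk G' hG' K hK => ?_⟩
    obtain ⟨Xk, hXk, -⟩ := hD₁ k hk
    obtain ⟨R, hR⟩ := hK.exists_bound_of_continuousOn (f := fun p : V × (ι → ℂ) => p.2)
      continuous_snd.continuousOn
    obtain ⟨C₁, hC₁0, hC₁⟩ := hC k R
    obtain ⟨D, hD, h⟩ := hbound _ (hK.image continuous_fst)
    let ex : ℤ × (Fin n → ℤ) → (ι →₀ ℕ) := fun x =>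
      Finsupp.equivFunOnFinite.symm fun i => (al u (fun i => d i - m) x i + b i).toNat
    let As : Finset (ι →₀ ℕ) := (Xk.filter fun x => ∀ i, 0 ≤ al u (fun i => d i - m) x i + b i).image ex
    have hAs : ∀ v α, coeff α (G' v) ≠ 0 → α ∈ As := by
      intro v α hα
      obtain ⟨x, hx1, hx2, hx3⟩ := mem_near hΓ hL hc hA htL htc htA' ht hε1 hε2 hG' hα
      refine Finset.mem_image.2 ⟨x, Finset.mem_filter.2 ⟨(hXk x).2 ⟨hx1, hx3⟩, fun i => ?_⟩, ?_⟩
      · rw [← hx2 i]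
        exact Int.natCast_nonneg _
      · ext i
        simp only [ex, Finsupp.equivFunOnFinite_symm_apply_apply]
        rw [← hx2 i]
        rfl
    obtain ⟨M, hM⟩ := (hK.image continuous_fst).exists_bound_of_continuousOn
      (f := fun v : V => ∑ α ∈ As, ‖coeff α (G' v)‖)
      (continuous_finsetSum _ fun α _ => (hG'.holo α).continuous.norm).continuousOn
    refine ⟨(As.card : ℝ) ^ N * (M ^ N * (C₁ * D ^ k)), fun p hp => ?_⟩
    have hpK : p.1 ∈ Prod.fst '' K := ⟨p, hp, rfl⟩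
    have hM0 : 0 ≤ M := (norm_nonneg _).trans (hM p.1 hpK)
    have hP : 0 ≤ ∏ i, ‖p.2 i‖ ^ C := Finset.prod_nonneg fun i _ => pow_nonneg (norm_nonneg _) _
    have h1 := norm_eval_le (hAs p.1) p.2
    have h2 := sum_pow_le As (f := fun α => ‖coeff α (G' p.1)‖ * ∏ i, ‖p.2 i‖ ^ α i)
      (fun α _ => mul_nonneg (norm_nonneg _) (Finset.prod_nonneg fun i _ =>
        pow_nonneg (norm_nonneg _) _)) hN hP (M := M ^ N * (C₁ * (D * ∑ j, ‖eval p.2 (G j p.1)‖) ^ k))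
      fun α hα => by
        obtain ⟨x, hx, rfl⟩ := Finset.mem_image.1 hα
        obtain ⟨hx1, hx2⟩ := Finset.mem_filter.1 hx
        obtain ⟨hx3, hx4⟩ := (hXk x).1 hx1
        have h3 := hC₁ (fun i => ‖p.2 i‖) (D * ∑ j, ‖eval p.2 (G j p.1)‖)
          (fun i => norm_nonneg _) (fun i => (norm_le_pi_norm p.2 i).trans (hR p hp))
          (mul_nonneg (by linarith) (hS0 _ _)) (h p.1 hpK p.2).1 (h p.1 hpK p.2).2 x hx3
          (hWg x (by rw [hx3]; exact Int.natCast_nonneg _) hx4) (fun i => ex x i) fun i => by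
            simp only [ex, Finsupp.equivFunOnFinite_symm_apply_apply]
            exact Int.toNat_of_nonneg (hx2 i)
        rw [mul_pow, mul_assoc]
        have h4 : ‖coeff (ex x) (G' p.1)‖ ≤ M := by
          refine le_trans (Finset.single_le_sum (f := fun α => ‖coeff α (G' p.1)‖)
            (fun α _ => norm_nonneg _) hα) ((le_abs_self _).trans (hM p.1 hpK))
        exact mul_le_mul (pow_le_pow_left₀ (norm_nonneg _) h4 _) h3
          (mul_nonneg (pow_nonneg (Finset.prod_nonneg fun i _ => pow_nonneg (norm_nonneg _) _) _)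
            hP) (pow_nonneg hM0 _)
    calc ‖eval p.2 (G' p.1)‖ ^ N * ∏ i, ‖p.2 i‖ ^ C
        ≤ (∑ α ∈ As, ‖coeff α (G' p.1)‖ * ∏ i, ‖p.2 i‖ ^ α i) ^ N * ∏ i, ‖p.2 i‖ ^ C :=
          mul_le_mul_of_nonneg_right (pow_le_pow_left₀ (norm_nonneg _) h1 _) hP
      _ ≤ _ := h2
      _ = _ := by
          rw [mul_pow]
          ring

end Q47.TK
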